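import Mathlib
import Pool.Agent.Helper1.BalanceDefs

set_option autoImplicit false

open MeasureTheory Pool.Agent.Helper1.Balance

namespace Pool.Agent.Helper8.KS

variable {n : ℕ}

/-! ## Linear extensions, heights, variances -/

open Classical in
/-- The finset of linear extensions of `r` (a permutation `σ`; `σ a` is the position of `a`). -/
noncomputable def LEs (r : Fin n → Fin n → Prop) : Finset (Equiv.Perm (Fin n)) :=
  Finset.univ.filter (fun σ => ∀ a b, r a b → σ a ≤ σ b)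

/-- Average over the linear extensions. -/
noncomputable def Ex (r : Fin n → Fin n → Prop) (f : Equiv.Perm (Fin n) → ℝ) : ℝ :=
  (∑ σ ∈ LEs r, f σ) / ((LEs r).card : ℝ)

/-- The position of `x` in `σ`, counted from `1` to `n`. -/
noncomputable def pos (σ : Equiv.Perm (Fin n)) (x : Fin n) : ℝ := ((σ x : ℕ) : ℝ) + 1

/-- Average height of `x`. -/
noncomputable def ht (r : Fin n → Fin n → Prop) (x : Fin n) : ℝ := Ex r (fun σ => pos σ x)

/-- Variance of the position of `x`. -/
noncomputable def vr (r : Fin n → Fin n → Prop) (x : Fin n) : ℝ :=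
  Ex r (fun σ => (pos σ x - ht r x) ^ 2)

/-- `r` is `ε`-unbalanced. -/
def Unb (ε : ℝ) (r : Fin n → Fin n → Prop) : Prop :=
  ∀ x y : Fin n, x ≠ y → ε ≤ |prob r x y - 1 / 2|

/-- The closed order cone of `r`. -/
def Cone (r : Fin n → Fin n → Prop) : Set (Fin n → ℝ) :=
  {t | ∀ x y, r x y → t x ≤ t y}

/-- Shift the coordinates in `B` by `lam`. -/
noncomputable def shiftBy (B : Finset (Fin n)) (lam : ℝ) (t : Fin n → ℝ) : Fin n → ℝ :=
  fun x => t x + if x ∈ B then lam else 0

/-- The interface: a probability measure on `Fin n → ℝ` attached to the poset `r` with greatest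
element `top` (realised by `(n+1)` times a uniform point of the order polytope). -/
structure Model (r : Fin n → Fin n → Prop) (top : Fin n) where
  /-- `r` is a partial order -/
  poset : IsPoset r
  /-- `top` is its greatest element -/
  isTop : ∀ x, r x top
  /-- the measure -/
  μ : Measure (Fin n → ℝ)
  /-- it is a probability measure -/
  isProb : IsProbabilityMeasure μ
  /-- it is carried by a bounded set -/
  bdd : ∃ R : ℝ, ∀ᵐ t ∂μ, ∀ x, |t x| ≤ R
  /-- it is carried by the order cone -/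
  cone : ∀ᵐ t ∂μ, t ∈ Cone r
  /-- differences have no atoms -/
  noatom : ∀ x y : Fin n, x ≠ y → ∀ c : ℝ, μ {t | t x - t y = c} = 0
  /-- order probabilities -/
  prob_lt : ∀ x y : Fin n, x ≠ y → μ.real {t | t x < t y} = prob r x y
  /-- means -/
  mean : ∀ x y : Fin n, ∫ t, (t x - t y) ∂μ = ht r x - ht r y
  /-- first absolute moments -/
  absm : ∀ x y : Fin n, ∫ t, |t x - t y| ∂μ = Ex r (fun σ => |pos σ x - pos σ y|)
  /-- second moments -/
  sqm : ∀ x y : Fin n, ∫ t, (t x - t y) ^ 2 ∂μ ≤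
    Ex r (fun σ => (pos σ x - pos σ y) ^ 2) + Ex r (fun σ => |pos σ x - pos σ y|)
  /-- midpoint log-concavity (on the cone) -/
  mid : ∀ A B D : Set (Fin n → ℝ), MeasurableSet A → MeasurableSet B → MeasurableSet D →
    (∀ a ∈ A, ∀ b ∈ B, a ∈ Cone r → b ∈ Cone r → (fun x => (a x + b x) / 2) ∈ D) →
    μ.real A * μ.real B ≤ μ.real D ^ 2
  /-- shift inequality -/
  shift : ∀ (B : Finset (Fin n)) (lam : ℝ) (A : Set (Fin n → ℝ)), top ∉ B → 0 ≤ lam →
    MeasurableSet A → (∀ t ∈ A, shiftBy B lam t ∈ Cone r) →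
    ∀ g : (Fin n → ℝ) → ENNReal, Measurable g →
      ∫⁻ t in A, g (shiftBy B lam t) ∂μ ≤ ∫⁻ t, g t ∂μ

variable {r : Fin n → Fin n → Prop} {top : Fin n}

namespace Model

instance (M : Model r top) : IsProbabilityMeasure M.μ := M.isProb

/-- Centered difference `(t x - t y) - (h x - h y)`. -/
noncomputable def cd (_M : Model r top) (x y : Fin n) (t : Fin n → ℝ) : ℝ :=
  (t x - t y) - (ht r x - ht r y)

/-- The pseudo-metric `s x y`: standard deviation of `t x - t y`. -/
noncomputable def s (M : Model r top) (x y : Fin n) : ℝ :=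
  Real.sqrt (∫ t, (M.cd x y t) ^ 2 ∂M.μ)

/-- `Q` is a piece of scale `ρ`. -/
def IsPiece (M : Model r top) (Q : Finset (Fin n)) (ρ : ℝ) : Prop :=
  ∀ x ∈ Q, ∀ y ∈ Q, |ht r x - ht r y| ≤ ρ ∧ M.s x y ≤ 2 * ρ

/-- Every piece of scale `ρ` is a union of at most `N0` pieces of scale `ρ/2`. -/
def Cov (M : Model r top) (N0 : ℕ) : Prop :=
  ∀ (ρ : ℝ) (Q : Finset (Fin n)), 0 < ρ → M.IsPiece Q ρ →
    ∃ Qs : Finset (Finset (Fin n)), Qs.card ≤ N0 ∧
      (∀ Q' ∈ Qs, Q' ⊆ Q ∧ M.IsPiece Q' (ρ / 2)) ∧ ∀ x ∈ Q, ∃ Q' ∈ Qs, x ∈ Q'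

/-- The set `S(F, lam)`. -/
def SS (_M : Model r top) (F : Finset (Fin n × Fin n)) (lam : ℝ) : Set (Fin n → ℝ) :=
  {t | t ∈ Cone r ∧ ∀ p ∈ F, lam ≤ t p.2 - t p.1}

end Model

/-- One step up of height less than `δ`. -/
def Step (r : Fin n → Fin n → Prop) (δ : ℝ) (x y : Fin n) : Prop :=
  r x y ∧ ht r y - ht r x < δ

/-- `z` is stuck: everything reachable from `z` by steps `< δ` stays below `h z + ell`. -/
def Stuck (r : Fin n → Fin n → Prop) (δ ell : ℝ) (z : Fin n) : Prop :=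
  ∀ w, Relation.ReflTransGen (Step r δ) z w → ht r w < ht r z + ell

/-- Midpoint log-concavity of a measure on the line. -/
def MidLC (ν : Measure ℝ) : Prop :=
  ∀ A B D : Set ℝ, MeasurableSet A → MeasurableSet B → MeasurableSet D →
    (∀ a ∈ A, ∀ b ∈ B, (a + b) / 2 ∈ D) → ν.real A * ν.real B ≤ ν.real D ^ 2

end Pool.Agent.Helper8.KS
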