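import Pool.Agent.Helper8.KS.Defs
import Pool.Agent.Helper60.KS.Width

set_option autoImplicit false

open Pool.Agent.Helper1.Balance

namespace Pool.Agent.Helper8.KS

theorem LEs_eq_LX {n : ℕ} (r : Fin n → Fin n → Prop) :
    LEs r = Pool.Agent.Helper18.Interval.LX r := by
  ext σ
  rw [Pool.Agent.Helper18.Interval.mem_LX]
  unfold LEs
  simp

/-- Theorem II: bounded spread implies bounded width. -/
theorem theoremII (D : ℝ) (hD : 1 ≤ D) : ∃ W : ℕ, ∀ {n : ℕ}
    (r : Fin n → Fin n → Prop), IsPoset r → (∀ x, vr r x ≤ D ^ 2) →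
    ∀ s : Finset (Fin n), IsAnti r s → s.card ≤ W := by
  obtain ⟨W, hW⟩ := Pool.Agent.Helper60.KS.width_bound D (by linarith)
  refine ⟨W, ?_⟩
  intro n r hr hV s hs
  refine hW n r (fun x => ht r x - 1) hr ?_ s hs
  intro x
  have hpos : (0 : ℝ) < ((Pool.Agent.Helper18.Interval.LX r).card : ℝ) := by
    exact_mod_cast Pool.Agent.Helper60.KS.LX_card_pos hr
  have h1 := hV x
  unfold vr Ex at h1
  rw [LEs_eq_LX, div_le_iff₀ hpos] at h1
  refine le_trans (le_of_eq ?_) h1
  refine Finset.sum_congr rfl fun σ _ => ?_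
  unfold pos
  ring

end Pool.Agent.Helper8.KS
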