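import Pool.Agent.Helper8.KS.TheoremI
import Pool.Agent.Helper8.KS.TheoremII
import Pool.Agent.Helper11.KS.Chain
import Pool.Agent.Helper1.BalanceProof

set_option autoImplicit false

open Pool.Agent.Helper1.Balance

namespace Pool.Agent.Helper8.KS

/-- The Kahn-Saks conjecture. -/
theorem kahn_saks (ε : ℝ) (hε : 0 < ε) : ∃ W : ℕ, ∀ {n : ℕ} (r : Fin n → Fin n → Prop),
    IsPoset r → ∀ s : Finset (Fin n), IsAnti r s → W < s.card →
    ∃ x y : Fin n, ¬ r x y ∧ ¬ r y x ∧ |prob r x y - 1 / 2| < ε := by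
  have hε' : 0 < min ε (1 / 2) := lt_min hε (by norm_num)
  obtain ⟨D0, hD0, h1⟩ := theoremI (min ε (1 / 2)) hε'
  obtain ⟨W, hW⟩ := theoremII D0 hD0
  refine ⟨W, fun r hr s hs hWs => ?_⟩
  by_contra hcon
  push Not at hcon
  have hU : Unb (min ε (1 / 2)) r := by
    intro x y hxy
    by_cases h : r x y ∨ r y x
    · exact Pool.Agent.Helper11.Chain.unb_of_rel r hr h hxy (min_le_right _ _)
    · push Not at h
      exact le_trans (min_le_left _ _) (hcon x y h.1 h.2)
  have := hW r hr (h1 r hr hU) s hs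
  omega

theorem prob_add' {n : ℕ} (r : Fin n → Fin n → Prop) (hr : IsPoset r) {x y : Fin n}
    (h : x ≠ y) : prob r x y + prob r y x = 1 := by
  classical
  rw [Pool.Agent.Helper11.Chain.prob_eq_Ex, Pool.Agent.Helper11.Chain.prob_eq_Ex, ← add_div,
    div_eq_one_iff_eq]
  · have : (LEs r).card = ((LEs r).filter (fun σ => σ x < σ y)).card +
        ((LEs r).filter (fun σ => σ y < σ x)).card := by
      rw [← Finset.card_filter_add_card_filter_not (fun σ : Equiv.Perm (Fin n) => σ x < σ y)]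
      congr 2
      ext σ
      simp only [Finset.mem_filter, not_lt]
      constructor
      · rintro ⟨h1, h2⟩
        exact ⟨h1, lt_of_le_of_ne h2 (fun hh => h (σ.injective hh.symm))⟩
      · rintro ⟨h1, h2⟩; exact ⟨h1, h2.le⟩
    rw [this]; push_cast; ring
  · exact_mod_cast (Finset.card_pos.2 (Pool.Agent.Helper11.Chain.LEs_nonempty r hr)).ne'

theorem prob_nonneg' {n : ℕ} (r : Fin n → Fin n → Prop) (x y : Fin n) : 0 ≤ prob r x y := by
  unfold prob
  positivity

theorem balance_nonneg' {n : ℕ} (r : Fin n → Fin n → Prop) : 0 ≤ balance r := by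
  unfold balance
  apply Real.sSup_nonneg
  rintro t ⟨x, y, _, _, rfl⟩
  exact le_min (prob_nonneg' r x y) (prob_nonneg' r y x)

theorem min_le_balance' {n : ℕ} (r : Fin n → Fin n → Prop) (hr : IsPoset r) {x y : Fin n}
    (h1 : ¬ r x y) (h2 : ¬ r y x) : min (prob r x y) (prob r y x) ≤ balance r := by
  unfold balance
  apply le_csSup
  · refine ⟨1, ?_⟩
    rintro t ⟨a, b, h3, _, rfl⟩
    have hab : a ≠ b := by
      rintro rfl
      exact h3 (hr.1 a)
    have := prob_add' r hr hab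
    have := prob_nonneg' r b a
    exact le_trans (min_le_left _ _) (by linarith)
  · exact ⟨x, y, h1, h2, rfl⟩

/-- balance at most `1/2 - ε` forces bounded width -/
theorem width_of_balance (ε : ℝ) (hε : 0 < ε) : ∃ W : ℕ, ∀ {n : ℕ} (r : Fin n → Fin n → Prop),
    IsPoset r → balance r ≤ 1 / 2 - ε → ∀ s : Finset (Fin n), IsAnti r s → s.card ≤ W := by
  obtain ⟨W, hW⟩ := kahn_saks ε hε
  refine ⟨W, fun r hr hb s hs => ?_⟩
  by_contra hcon
  push Not at hcon
  obtain ⟨x, y, h1, h2, h3⟩ := hW r hr s hs hcon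
  have hxy : x ≠ y := by
    rintro rfl
    exact h1 (hr.1 x)
  have h4 := min_le_balance' r hr h1 h2
  have h5 := prob_add' r hr hxy
  rw [abs_lt] at h3
  have h6 : 1 / 2 - ε < min (prob r x y) (prob r y x) := lt_min (by linarith) (by linarith)
  linarith

theorem bddBelow_set' (w : ℕ) : BddBelow {d : ℝ | ∃ (n : ℕ) (r : Fin n → Fin n → Prop),
    IsPoset r ∧ HasWidth r w ∧ d = balance r} := by
  refine ⟨0, ?_⟩
  rintro d ⟨n, r, _, _, rfl⟩
  exact balance_nonneg' r

/-- for every width there is a poset (an antichain) -/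
theorem exists_width (w : ℕ) : ∃ (n : ℕ) (r : Fin n → Fin n → Prop),
    IsPoset r ∧ HasWidth r w := by
  refine ⟨w, fun a b => a = b, ⟨fun _ => rfl, fun _ _ _ h1 h2 => h1.trans h2,
    fun _ _ h _ => h⟩, ⟨Finset.univ, by simp, fun a _ b _ h => h⟩, fun s _ => ?_⟩
  exact (Finset.card_le_univ s).trans (by simp)

theorem deltaW_ge (ε : ℝ) (hε : 0 < ε) : ∃ W : ℕ, ∀ w : ℕ, W ≤ w → 1 / 2 - ε ≤ deltaW w := by
  obtain ⟨W, hW⟩ := width_of_balance ε hε
  refine ⟨W + 1, fun w hw => ?_⟩
  unfold deltaW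
  apply le_csInf
  · obtain ⟨n, r, h1, h2⟩ := exists_width w
    exact ⟨_, n, r, h1, h2, rfl⟩
  · rintro d ⟨n, r, h1, ⟨⟨s, hs1, hs2⟩, h3⟩, rfl⟩
    by_contra hcon
    push Not at hcon
    have := hW r h1 hcon.le s hs2
    omega

theorem deltaW_lt_half (w : ℕ) : deltaW w < 1 / 2 := by
  rcases Nat.lt_or_ge w 2 with h | h
  · have hsub : ∀ a b : Fin w, a = b := by
      intro a b
      apply Fin.ext
      have := a.2
      have := b.2
      omega
    have h0 : balance (fun _ _ : Fin w => True) = 0 := by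
      unfold balance
      have : {t : ℝ | ∃ x y : Fin w, ¬ True ∧ ¬ True ∧
          t = min (prob (fun _ _ : Fin w => True) x y) (prob (fun _ _ : Fin w => True) y x)} =
            ∅ := by
        ext t
        simp
      rw [this, Real.sSup_empty]
    have h1 : deltaW w ≤ 0 := by
      unfold deltaW
      refine csInf_le (bddBelow_set' w) ⟨w, fun _ _ => True, ?_, ?_, h0.symm⟩
      · exact ⟨fun _ => trivial, fun _ _ _ _ _ => trivial, fun a b _ _ => hsub a b⟩
      · refine ⟨⟨Finset.univ, by simp, ?_⟩, ?_⟩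
        · intro a _ b _ hab
          exact absurd (hsub a b) hab
        · intro s _
          exact (Finset.card_le_univ s).trans (by simp)
    linarith
  · have h1 := main w h
    have hw' : (2 : ℝ) ≤ w := by exact_mod_cast h
    have h5 : 0 < 1 / (12 * ((w : ℝ) - 1)) := div_pos one_pos (by linarith)
    linarith

/-- `δ_w → 1/2`. -/
theorem deltaW_tendsto : Filter.Tendsto deltaW Filter.atTop (nhds (1 / 2)) := by
  rw [Metric.tendsto_atTop]
  intro ε hε
  obtain ⟨W, hW⟩ := deltaW_ge (ε / 2) (by linarith)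
  refine ⟨W, fun w hw => ?_⟩
  have h1 := hW w hw
  have h2 := deltaW_lt_half w
  rw [Real.dist_eq, abs_lt]
  constructor <;> linarith

/-- for every `w` all large `w'` have `δ_w < δ_{w'}` -/
theorem deltaW_lt_eventually (w : ℕ) (hw : 1 ≤ w) :
    ∃ W : ℕ, ∀ w' : ℕ, W ≤ w' → deltaW w < deltaW w' := by
  have h1 := deltaW_lt_half w
  obtain ⟨W, hW⟩ := deltaW_ge ((1 / 2 - deltaW w) / 2) (by linarith)
  refine ⟨W, fun w' hw' => ?_⟩
  have := hW w' hw'
  linarith

/-- infinitely often `δ_w < δ_{w+1}` -/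
theorem deltaW_lt_succ (w₀ : ℕ) : ∃ w : ℕ, w₀ ≤ w ∧ deltaW w < deltaW (w + 1) := by
  have h0 := deltaW_lt_half w₀
  obtain ⟨W, hW⟩ := deltaW_ge ((1 / 2 - deltaW w₀) / 2) (by linarith)
  by_contra hcon
  push Not at hcon
  have h5 : ∀ k, deltaW (w₀ + k) ≤ deltaW w₀ := by
    intro k
    induction k with
    | zero => exact le_rfl
    | succ k ih => exact (hcon (w₀ + k) (by omega)).trans ih
  have h6 := hW (w₀ + W) (by omega)
  have h7 := h5 W
  linarith

end Pool.Agent.Helper8.KS
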