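import Mathlib
import Pool.Agent.Helper8.KS.PLBase

set_option autoImplicit false

open MeasureTheory

namespace Pool.Agent.Helper8.KS

/-- Brunn-Minkowski in midpoint form on `Fin n → ℝ`. -/
theorem bm_mid {n : ℕ} (A B D : Set (Fin n → ℝ)) (hA : MeasurableSet A) (hB : MeasurableSet B)
    (hD : MeasurableSet D) (h : ∀ a ∈ A, ∀ b ∈ B, (fun x => (a x + b x) / 2) ∈ D) :
    volume A * volume B ≤ volume D ^ 2 :=
  Pool.Agent.Helper8.KS.PLB.bm_midpoint hA hB hD h

end Pool.Agent.Helper8.KS
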