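import Pool.Agent.Helper8.KS.OneDim

set_option autoImplicit false

open MeasureTheory Pool.Agent.Helper1.Balance

namespace Pool.Agent.Helper8.KS

variable {n : ℕ} {r : Fin n → Fin n → Prop} {top : Fin n}

/-! Transfer of the one-dimensional statements to `Z = t x - t y`, and the pseudo-metric. -/

namespace Model

private lemma meas_diff (x y : Fin n) : Measurable (fun t : Fin n → ℝ => t x - t y) :=
  (measurable_pi_apply x).sub (measurable_pi_apply y)

private lemma memLp_diff (M : Model r top) (x y : Fin n) (p : ENNReal) :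
    MemLp (fun t : Fin n → ℝ => t x - t y) p M.μ := by
  obtain ⟨R, hR⟩ := M.bdd
  refine MemLp.of_bound (meas_diff x y).aestronglyMeasurable (R + R) ?_
  filter_upwards [hR] with t ht
  have h1 := abs_le.1 (ht x)
  have h2 := abs_le.1 (ht y)
  rw [Real.norm_eq_abs, abs_le]
  constructor <;> linarith

private lemma int_diff (M : Model r top) (x y : Fin n) :
    Integrable (fun t : Fin n → ℝ => t x - t y) M.μ :=
  memLp_one_iff_integrable.1 (memLp_diff M x y 1)

theorem s_nonneg (M : Model r top) (x y : Fin n) : 0 ≤ M.s x y :=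
  Real.sqrt_nonneg _

theorem s_self (M : Model r top) (x : Fin n) : M.s x x = 0 := by
  unfold s cd
  simp

theorem s_comm (M : Model r top) (x y : Fin n) : M.s x y = M.s y x := by
  unfold s cd
  congr 1
  apply integral_congr_ae
  apply Filter.Eventually.of_forall
  intro t
  simp only
  ring

/-- everything polynomial is integrable: -/
theorem memLp_cd (M : Model r top) (x y : Fin n) (p : ENNReal) : MemLp (M.cd x y) p M.μ :=
  (memLp_diff M x y p).sub (memLp_const _)

private lemma s_eq_eLpNorm (M : Model r top) (x y : Fin n) :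
    M.s x y = (eLpNorm (M.cd x y) 2 M.μ).toReal := by
  rw [(M.memLp_cd x y 2).eLpNorm_eq_integral_rpow_norm (by norm_num) (by norm_num)]
  have h0 : 0 ≤ ∫ t, ‖M.cd x y t‖ ^ (2:ENNReal).toReal ∂M.μ :=
    integral_nonneg fun t => Real.rpow_nonneg (norm_nonneg _) _
  rw [ENNReal.toReal_ofReal (Real.rpow_nonneg h0 _)]
  unfold s
  rw [Real.sqrt_eq_rpow]
  have e : ∀ t, ‖M.cd x y t‖ ^ (2:ENNReal).toReal = (M.cd x y t) ^ 2 := by
    intro t
    rw [ENNReal.toReal_ofNat, Real.rpow_ofNat, Real.norm_eq_abs, sq_abs]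
  simp_rw [e]
  norm_num

theorem s_triangle (M : Model r top) (x y z : Fin n) : M.s x z ≤ M.s x y + M.s y z := by
  rw [s_eq_eLpNorm, s_eq_eLpNorm, s_eq_eLpNorm]
  have h1 := (M.memLp_cd x y 2)
  have h2 := (M.memLp_cd y z 2)
  rw [← ENNReal.toReal_add h1.eLpNorm_ne_top h2.eLpNorm_ne_top]
  apply ENNReal.toReal_mono (ENNReal.add_ne_top.2 ⟨h1.eLpNorm_ne_top, h2.eLpNorm_ne_top⟩)
  have e : M.cd x z = M.cd x y + M.cd y z := by
    funext t
    simp only [cd, Pi.add_apply]
    ring
  rw [e]
  exact eLpNorm_add_le h1.1 h2.1 (by norm_num)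

theorem s_sq (M : Model r top) (x y : Fin n) :
    M.s x y ^ 2 = ∫ t, (M.cd x y t) ^ 2 ∂M.μ := by
  unfold s
  exact Real.sq_sqrt (integral_nonneg fun t => sq_nonneg _)

/-- an a.e. constant difference is impossible -/
private lemma not_ae_eq (M : Model r top) {x y : Fin n} (h : x ≠ y) (c : ℝ) :
    ¬ ∀ᵐ t ∂M.μ, t x - t y = c := by
  intro hc
  have h1 := M.noatom x y h c
  rw [ae_iff] at hc
  have h2 : M.μ Set.univ ≤ 0 := by
    calc M.μ Set.univ ≤ M.μ ({t | t x - t y = c} ∪ {t | ¬ t x - t y = c}) := by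
          apply measure_mono
          intro t _
          exact em _
      _ ≤ M.μ {t | t x - t y = c} + M.μ {t | ¬ t x - t y = c} := measure_union_le _ _
      _ = 0 := by rw [h1, hc, add_zero]
  rw [measure_univ] at h2
  exact absurd h2 (by norm_num)

theorem s_pos (M : Model r top) {x y : Fin n} (h : x ≠ y) : 0 < M.s x y := by
  rcases (M.s_nonneg x y).lt_or_eq with h0 | h0
  · exact h0
  · exfalso
    have h1 := M.s_sq x y
    rw [← h0, zero_pow two_ne_zero] at h1
    have h2 : Integrable (fun t => (M.cd x y t) ^ 2) M.μ := (M.memLp_cd x y 2).integrable_sq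
    have h3 := (integral_eq_zero_iff_of_nonneg (fun t => sq_nonneg _) h2).1 h1.symm
    apply M.not_ae_eq h (ht r x - ht r y)
    filter_upwards [h3] with t ht
    have h4 : M.cd x y t ^ 2 = 0 := ht
    have h5 : M.cd x y t = 0 := by simpa using h4
    unfold cd at h5
    linarith

/-- the law of `t x - t y` -/
private noncomputable def law (M : Model r top) (x y : Fin n) : Measure ℝ :=
  M.μ.map (fun t => t x - t y)

private lemma law_prob (M : Model r top) (x y : Fin n) : IsProbabilityMeasure (M.law x y) :=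
  Measure.isProbabilityMeasure_map (meas_diff x y).aemeasurable

private lemma law_real (M : Model r top) (x y : Fin n) {A : Set ℝ} (hA : MeasurableSet A) :
    (M.law x y).real A = M.μ.real {t | t x - t y ∈ A} := by
  unfold law
  rw [map_measureReal_apply (meas_diff x y) hA]
  rfl

private lemma law_midLC (M : Model r top) (x y : Fin n) : MidLC (M.law x y) := by
  intro A B D hA hB hD h
  rw [law_real M x y hA, law_real M x y hB, law_real M x y hD]
  apply M.mid _ _ _ (meas_diff x y hA) (meas_diff x y hB) (meas_diff x y hD)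
  intro a ha b hb _ _
  have h1 := h _ ha _ hb
  have e : (a x + b x) / 2 - (a y + b y) / 2 = ((a x - a y) + (b x - b y)) / 2 := by ring
  show (a x + b x) / 2 - (a y + b y) / 2 ∈ D
  rw [e]
  exact h1

private lemma law_bdd (M : Model r top) (x y : Fin n) : ∃ R : ℝ, ∀ᵐ z ∂(M.law x y), |z| ≤ R := by
  obtain ⟨R, hR⟩ := M.bdd
  refine ⟨R + R, ?_⟩
  unfold law
  rw [ae_map_iff (meas_diff x y).aemeasurable (measurableSet_le measurable_abs measurable_const)]
  filter_upwards [hR] with t ht
  have h1 := abs_le.1 (ht x)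
  have h2 := abs_le.1 (ht y)
  rw [abs_le]
  constructor <;> linarith

private lemma law_mean (M : Model r top) (x y : Fin n) : ht r x - ht r y = ∫ z, z ∂(M.law x y) := by
  unfold law
  rw [integral_map (meas_diff x y).aemeasurable (by fun_prop), M.mean]

private lemma law_var (M : Model r top) (x y : Fin n) :
    ∫ z, (z - (ht r x - ht r y)) ^ 2 ∂(M.law x y) = M.s x y ^ 2 := by
  unfold law
  rw [integral_map (meas_diff x y).aemeasurable (by fun_prop), s_sq]
  rfl

/-- tails of `t x - t y` -/
theorem tail (M : Model r top) (x y : Fin n) (σ : ℝ) (hσ : 0 < σ) (hs : M.s x y ≤ σ)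
    (u : ℝ) (hu : 0 ≤ u) :
    M.μ.real {t | u * σ ≤ |M.cd x y t|} ≤ 4 * (3 : ℝ) ^ (-u / 4) := by
  have := M.law_prob x y
  have h := oneDim_tail (M.law x y) (M.law_midLC x y) (M.law_bdd x y) (ht r x - ht r y) σ
    (M.law_mean x y) hσ (by
      rw [law_var]
      exact pow_le_pow_left₀ (M.s_nonneg x y) hs 2) u hu
  rw [law_real M x y (measurableSet_le measurable_const (by fun_prop))] at h
  exact h

/-- comparable pairs are ordered in `μ` a.e. -/
theorem ae_le (M : Model r top) {x y : Fin n} (h : r x y) : ∀ᵐ t ∂M.μ, t x ≤ t y := by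
  filter_upwards [M.cone] with t ht
  exact ht x y h

theorem ht_mono (M : Model r top) {x y : Fin n} (h : r x y) (hne : x ≠ y) :
    ht r x < ht r y := by
  have hle := M.ae_le h
  have h0 : 0 ≤ᵐ[M.μ] fun t => t y - t x := by
    filter_upwards [hle] with t ht
    simp only [Pi.zero_apply]
    linarith
  have h1 := integral_nonneg_of_ae h0
  rw [M.mean] at h1
  rcases h1.lt_or_eq with h2 | h2
  · linarith
  · exfalso
    rw [← M.mean y x] at h2
    have h3 := (integral_eq_zero_iff_of_nonneg_ae h0 (M.int_diff y x)).1 h2.symm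
    apply M.not_ae_eq hne.symm 0
    filter_upwards [h3] with t ht
    exact ht

private lemma law_nonneg (M : Model r top) {x y : Fin n} (h : r x y) : ∀ᵐ z ∂(M.law y x), 0 ≤ z := by
  unfold law
  refine (ae_map_iff (meas_diff y x).aemeasurable (measurableSet_Ici (a := (0:ℝ)))).2 ?_
  filter_upwards [M.ae_le h] with t ht
  show 0 ≤ t y - t x
  linarith

/-- comparable pairs: `s ≤ 7 |h - h|` -/
theorem s_le_of_rel (M : Model r top) {x y : Fin n} (h : r x y) :
    M.s x y ≤ 7 * (ht r y - ht r x) := by
  rcases eq_or_ne x y with hxy | hxy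
  · subst hxy
    rw [s_self]
    simp
  · have := M.law_prob y x
    have hlt := M.ht_mono h hxy
    obtain ⟨C, _, hC⟩ := oneDim_nonneg
    have h1 := (hC (M.law y x) (M.law_midLC y x) (M.law_bdd y x) (M.law_nonneg h)
      (ht r y - ht r x) (M.law_mean y x) (by linarith)).1
    rw [law_var] at h1
    rw [s_comm]
    exact le_of_sq_le_sq h1 (by linarith)

end Model

/-- small ball for `t x - t y` -/
theorem small_ball : ∃ C : ℝ, 1 ≤ C ∧ ∀ {n : ℕ} {r : Fin n → Fin n → Prop} {top : Fin n}
    (M : Model r top) (x y : Fin n), x ≠ y → ∀ (a w : ℝ), 0 < w →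
    M.μ.real {t | a ≤ t x - t y ∧ t x - t y ≤ a + w} ≤ C * w / M.s x y := by
  obtain ⟨C, hC1, hC⟩ := oneDim_small_ball
  refine ⟨C, hC1, ?_⟩
  intro n r top M x y hxy a w hw
  have := M.law_prob x y
  have h := hC (M.law x y) (M.law_midLC x y) (M.law_bdd x y) (ht r x - ht r y) (M.s x y)
    (M.law_mean x y) (M.s_pos hxy) (M.law_var x y).symm a w hw
  rw [M.law_real x y measurableSet_Icc] at h
  exact h

/-- small values for comparable pairs -/
theorem small_rel : ∃ C : ℝ, 1 ≤ C ∧ ∀ {n : ℕ} {r : Fin n → Fin n → Prop} {top : Fin n}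
    (M : Model r top) (x y : Fin n), r x y → x ≠ y → ∀ (w : ℝ), 0 ≤ w →
    M.μ.real {t | t y - t x ≤ w} ≤ C * w / (ht r y - ht r x) := by
  obtain ⟨C, hC1, hC⟩ := oneDim_nonneg
  refine ⟨C, hC1, ?_⟩
  intro n r top M x y hr hxy w hw
  have := M.law_prob y x
  have hlt := M.ht_mono hr hxy
  have hm : 0 < ht r y - ht r x := by linarith
  rcases hw.lt_or_eq with hw0 | hw0
  · have h := (hC (M.law y x) (M.law_midLC y x) (M.law_bdd y x) (M.law_nonneg hr)
      (ht r y - ht r x) (M.law_mean y x) hm).2 (w / (ht r y - ht r x)) (div_pos hw0 hm)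
    rw [div_mul_cancel₀ _ hm.ne', M.law_real y x measurableSet_Iic, ← mul_div_assoc] at h
    exact h
  · subst hw0
    have h0 : M.μ {t | t y - t x ≤ 0} = 0 := by
      have h1 := M.noatom y x hxy.symm 0
      have h2 := M.ae_le hr
      rw [ae_iff] at h2
      apply measure_mono_null (t := {t | t y - t x = 0} ∪ {t | ¬ t x ≤ t y})
      · intro t ht
        have ht' : t y - t x ≤ 0 := ht
        rcases le_or_gt (t x) (t y) with h3 | h3
        · left
          show t y - t x = 0
          linarith
        · right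
          exact not_le.2 h3
      · exact measure_union_null h1 h2
    rw [measureReal_def, h0]
    simp

end Pool.Agent.Helper8.KS
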