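import Pool.Agent.Helper8.KS.Family
import Pool.Agent.Helper1.KS.Blk

set_option autoImplicit false

open MeasureTheory Pool.Agent.Helper1.Balance

namespace Pool.Agent.Helper8.KS

section Aux

variable {n : ℕ} {r : Fin n → Fin n → Prop} {top : Fin n}


private theorem blk_measurableSet_cone (r : Fin n → Fin n → Prop) : MeasurableSet (Cone r) := by
  classical
  have : Cone r = ⋂ x : Fin n, ⋂ y : Fin n, {t | r x y → t x ≤ t y} := by
    ext t; simp [Cone]
  rw [this]
  refine MeasurableSet.iInter fun x => MeasurableSet.iInter fun y => ?_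
  by_cases h : r x y
  · simp only [h, true_imp_iff]
    exact measurableSet_le (measurable_pi_apply x) (measurable_pi_apply y)
  · simp only [h, false_imp_iff, Set.ofPred_true]
    exact MeasurableSet.univ

private theorem blk_measurableSet_SS (M : Model r top) (F : Finset (Fin n × Fin n)) (lam : ℝ) :
    MeasurableSet (M.SS F lam) := by
  have : M.SS F lam = Cone r ∩ ⋂ p ∈ F, {t | lam ≤ t p.2 - t p.1} := by
    ext t; simp [Model.SS]
  rw [this]
  refine (blk_measurableSet_cone r).inter ?_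
  refine Finset.measurableSet_biInter F fun p _ => ?_
  exact measurableSet_le measurable_const ((measurable_pi_apply p.2).sub (measurable_pi_apply p.1))

private theorem blk_measurable_cd (M : Model r top) (x y : Fin n) : Measurable (M.cd x y) := by
  unfold Model.cd
  exact ((measurable_pi_apply x).sub (measurable_pi_apply y)).sub measurable_const

/-- the variance bound from the shift inequality -/
private theorem blk_var_of_shift (M : Model r top) (B : Finset (Fin n)) (F : Finset (Fin n × Fin n))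
    (lam : ℝ) (hlam : 0 ≤ lam) (htop : top ∉ B)
    (hF : ∀ x ∈ B, ∀ y, y ∉ B → r x y → (x, y) ∈ F)
    (hA : 1 / 2 ≤ M.μ.real (M.SS F lam)) (a x : Fin n) (ha : a ∈ B) (hx : x ∉ B) :
    lam / 3 ≤ M.s a x := by
  classical
  set A := M.SS F lam with hAdef
  have hAm : MeasurableSet A := blk_measurableSet_SS M F lam
  have hcone : ∀ t ∈ A, shiftBy B lam t ∈ Cone r := by
    intro t ht u v huv
    have htc : t ∈ Cone r := ht.1
    have h1 := htc u v huv
    unfold shiftBy
    by_cases hu : u ∈ B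
    · by_cases hv : v ∈ B
      · simp only [hu, hv, if_true]; linarith
      · have h2 := ht.2 (u, v) (hF u hu v hv huv)
        simp only [hu, hv, if_true, if_false] at h2 ⊢
        linarith
    · by_cases hv : v ∈ B
      · simp only [hu, hv, if_true, if_false]; linarith
      · simp only [hu, hv, if_false]; linarith
  set g : (Fin n → ℝ) → ENNReal := fun t => ENNReal.ofReal ((M.cd a x t) ^ 2) with hg
  have hgm : Measurable g := ((blk_measurable_cd M a x).pow_const 2).ennreal_ofReal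
  have hsh := M.shift B lam A htop hlam hAm hcone g hgm
  have hcd : ∀ t, M.cd a x (shiftBy B lam t) = M.cd a x t + lam := by
    intro t
    unfold Model.cd shiftBy
    simp only [ha, hx, if_true, if_false]
    ring
  have hint : Integrable (fun t => (M.cd a x t) ^ 2) M.μ := (M.memLp_cd a x 2).integrable_sq
  have htot : ∫⁻ t, g t ∂M.μ = ENNReal.ofReal (M.s a x ^ 2) := by
    rw [M.s_sq, ofReal_integral_eq_lintegral_ofReal hint (ae_of_all _ fun t => sq_nonneg _)]
  have h1 : ∫⁻ t in A, g t ∂M.μ ≤ ENNReal.ofReal (M.s a x ^ 2) := by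
    rw [← htot]; exact setLIntegral_le_lintegral A g
  have h2 : ∫⁻ t in A, g (shiftBy B lam t) ∂M.μ ≤ ENNReal.ofReal (M.s a x ^ 2) := by
    rw [← htot]; exact hsh
  have hgs : Measurable fun t => g (shiftBy B lam t) := by
    have : (fun t => g (shiftBy B lam t)) = fun t => ENNReal.ofReal ((M.cd a x t + lam) ^ 2) := by
      funext t; rw [hg]; simp only [hcd]
    rw [this]
    exact (((blk_measurable_cd M a x).add_const lam).pow_const 2).ennreal_ofReal
  have h3 : ENNReal.ofReal (lam ^ 2 / 2) * M.μ A ≤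
      ∫⁻ t in A, (g t + g (shiftBy B lam t)) ∂M.μ := by
    rw [← setLIntegral_const]
    refine setLIntegral_mono (hgm.add hgs) fun t _ => ?_
    rw [hg]
    simp only [hcd]
    rw [← ENNReal.ofReal_add (sq_nonneg _) (sq_nonneg _)]
    apply ENNReal.ofReal_le_ofReal
    nlinarith [sq_nonneg (2 * M.cd a x t + lam)]
  rw [lintegral_add_left hgm] at h3
  have h4 : ENNReal.ofReal (lam ^ 2 / 2) * M.μ A ≤ ENNReal.ofReal (2 * M.s a x ^ 2) := by
    refine h3.trans ((add_le_add h1 h2).trans ?_)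
    rw [← ENNReal.ofReal_add (sq_nonneg _) (sq_nonneg _)]
    apply ENNReal.ofReal_le_ofReal
    linarith
  have h5 : lam ^ 2 / 2 * M.μ.real A ≤ 2 * M.s a x ^ 2 := by
    have hA' : M.μ A = ENNReal.ofReal (M.μ.real A) := (ofReal_measureReal).symm
    rw [hA', ← ENNReal.ofReal_mul (by positivity),
      ENNReal.ofReal_le_ofReal_iff (by positivity)] at h4
    exact h4
  have h6 : lam ^ 2 / 2 * (1 / 2) ≤ 2 * M.s a x ^ 2 :=
    (mul_le_mul_of_nonneg_left hA (by positivity)).trans h5
  have hs0 := M.s_nonneg a x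
  by_contra hcon
  push Not at hcon
  have h7 : M.s a x ^ 2 < (lam / 3) ^ 2 := by
    apply pow_lt_pow_left₀ hcon hs0 (by norm_num)
  nlinarith [sq_nonneg lam]


end Aux

open Classical in
/-- the pairs leaving `B` upwards -/
noncomputable def upPairs {n : ℕ} (r : Fin n → Fin n → Prop) (B : Finset (Fin n)) :
    Finset (Fin n × Fin n) :=
  Finset.univ.filter (fun p => p.1 ∈ B ∧ p.2 ∉ B ∧ r p.1 p.2)

/-- last step of (7.1): shift argument -/
theorem shift_var {n : ℕ} {r : Fin n → Fin n → Prop} {top : Fin n} (M : Model r top)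
    (B : Finset (Fin n)) (hB : top ∉ B) (lam : ℝ) (hlam : 0 ≤ lam)
    (h : 1 / 2 ≤ M.μ.real (M.SS (upPairs r B) lam)) (x y : Fin n) (hx : x ∈ B) (hy : y ∉ B) :
    lam / 3 ≤ M.s x y := by
  refine blk_var_of_shift M B (upPairs r B) lam hlam hB ?_ h x y hx hy
  intro u hu v hv huv
  simp [upPairs, hu, hv, huv]

/-- main step of (7.1) -/
theorem block_good (N0 : ℕ) (h1 : 1 ≤ N0) (R : ℝ) : ∃ c : ℝ, 0 < c ∧
    ∀ {n : ℕ} {r : Fin n → Fin n → Prop} {top : Fin n} (M : Model r top), M.Cov N0 →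
    ∀ (δ ell : ℝ) (B : Finset (Fin n)) (z : Fin n), 0 < δ → 0 < ell → ell ≤ R * δ →
    z ∈ B → (∀ x ∈ B, r z x ∧ ht r x < ht r z + ell) →
    (∀ x ∈ B, ∀ y, y ∉ B → r x y → δ ≤ ht r y - ht r x) →
    1 / 2 ≤ M.μ.real (M.SS (upPairs r B) (c * δ)) := by
  classical
  obtain ⟨C5, hC5, hsm⟩ := small_rel
  have hC5p : 0 < C5 := lt_of_lt_of_le one_pos hC5
  refine ⟨Pool.Agent.Helper1.KSB.cB N0 C5 (max R 1), Pool.Agent.Helper1.KSB.cB_pos _ hC5p, ?_⟩
  intro n r top M hcov δ ell B z hδ hell hR hz hB hgap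
  have I : Pool.Agent.Helper1.KSB.Inp M N0 C5 := by
    refine ⟨h1, hC5p, hcov, fun x y hxy hne w hw => hsm M x y hxy hne w hw, ?_⟩
    intro ρ Q hρ hQ x0 hx0 u hu
    exact chaining M N0 h1 hcov ρ hρ Q hQ x0 hx0 u hu
  have hRp : 0 < max R 1 := lt_of_lt_of_le one_pos (le_max_right _ _)
  have hℓp : 0 < max R 1 * δ := mul_pos hRp hδ
  have hℓ : ell ≤ max R 1 * δ := hR.trans (mul_le_mul_of_nonneg_right (le_max_left _ _) hδ.le)
  have hzr : ∀ w ∈ B, M.s z w ≤ 7 * ell ∧ ht r z ≤ ht r w := by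
    intro w hw
    rcases eq_or_ne z w with h0 | h0
    · rw [← h0, M.s_self]; exact ⟨by linarith, le_rfl⟩
    · have k1 := M.s_le_of_rel (hB w hw).1
      have k2 := M.ht_mono (hB w hw).1 h0
      have k3 := (hB w hw).2
      exact ⟨by linarith, k2.le⟩
  have hBp : M.IsPiece B (7 * (max R 1 * δ)) := by
    intro r1 h1 r2 h2
    obtain ⟨a1, b1⟩ := hzr r1 h1
    obtain ⟨a2, b2⟩ := hzr r2 h2
    have c1 := (hB r1 h1).2
    have c2 := (hB r2 h2).2
    refine ⟨?_, ?_⟩
    · rw [abs_le]; constructor <;> linarith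
    · have k1 := M.s_triangle r1 z r2
      rw [M.s_comm r1 z] at k1
      linarith
  have key := Pool.Agent.Helper1.KSB.block_all I hδ hℓp B hBp
  rw [mul_div_assoc, div_self hδ.ne', mul_one] at key
  refine key.trans (Pool.Agent.Helper1.KSB.SS_mono M ?_ le_rfl)
  intro p hp
  simp only [upPairs, Finset.mem_filter, Finset.mem_univ, true_and] at hp
  exact Pool.Agent.Helper1.KSB.mem_PPge.2 ⟨hp.1, hp.2.1, hp.2.2, hgap _ hp.1 _ hp.2.1 hp.2.2⟩

/-- (7.1) -/
theorem block (N0 : ℕ) (h1 : 1 ≤ N0) (R : ℝ) : ∃ c : ℝ, 0 < c ∧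
    ∀ {n : ℕ} {r : Fin n → Fin n → Prop} {top : Fin n} (M : Model r top), M.Cov N0 →
    ∀ (δ ell : ℝ) (B : Finset (Fin n)) (z : Fin n), 0 < δ → 0 < ell → ell ≤ R * δ →
    top ∉ B → z ∈ B → (∀ x ∈ B, r z x ∧ ht r x < ht r z + ell) →
    (∀ x ∈ B, ∀ y, y ∉ B → r x y → δ ≤ ht r y - ht r x) →
    ∀ x ∈ B, ∀ y, y ∉ B → c * δ ≤ M.s x y := by
  obtain ⟨c, hc, H⟩ := block_good N0 h1 R
  refine ⟨c / 3, by positivity, ?_⟩
  intro n r top M hcov δ ell B z hδ hell hR htop hz hB hgap x hx y hy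
  have h := H M hcov δ ell B z hδ hell hR hz hB hgap
  have := shift_var M B htop (c * δ) (by positivity) h x y hx hy
  linarith

end Pool.Agent.Helper8.KS
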