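import Pool.Agent.Helper8.KS.Doubling

set_option autoImplicit false

open MeasureTheory Pool.Agent.Helper1.Balance

namespace Pool.Agent.Helper8.KS

variable {n : ℕ} {r : Fin n → Fin n → Prop} {top : Fin n}

namespace Model

theorem cd_self (M : Model r top) (x : Fin n) (t : Fin n → ℝ) : M.cd x x t = 0 := by
  unfold cd; ring

theorem cd_add (M : Model r top) (x y z : Fin n) (t : Fin n → ℝ) :
    M.cd x z t = M.cd x y t + M.cd y z t := by
  unfold cd; ring

end Model

/-- (5.1) -/
theorem chaining (M : Model r top) (N0 : ℕ) (h1 : 1 ≤ N0) (hcov : M.Cov N0) (ρ : ℝ)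
    (hρ : 0 < ρ) (Q : Finset (Fin n)) (hQ : M.IsPiece Q ρ) (x0 : Fin n) (hx0 : x0 ∈ Q)
    (u : ℝ) (hu : 0 ≤ u) :
    M.μ.real {t | ∃ x ∈ Q, u * ρ ≤ |M.cd x x0 t|} ≤
      16 * (N0 : ℝ) ^ 2 * (3 : ℝ) ^ (-u / 16) := by
  have hN := h1
  have hC := hcov
  classical
  have hN1 : (1 : ℝ) ≤ N0 := by exact_mod_cast hN
  -- minimal distance
  obtain ⟨s0, hs0, hmin⟩ : ∃ s0 : ℝ, 0 < s0 ∧ ∀ x y : Fin n, x ≠ y → s0 ≤ M.s x y := by
    by_cases hP : ((Finset.univ : Finset (Fin n × Fin n)).filter (fun p => p.1 ≠ p.2)).Nonempty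
    · obtain ⟨p, hp, hpm⟩ := Finset.exists_min_image _ (fun p : Fin n × Fin n => M.s p.1 p.2) hP
      rw [Finset.mem_filter] at hp
      refine ⟨M.s p.1 p.2, M.s_pos hp.2, ?_⟩
      intro x y hxy
      exact hpm (x, y) (by rw [Finset.mem_filter]; exact ⟨Finset.mem_univ _, hxy⟩)
    · refine ⟨1, one_pos, ?_⟩
      intro x y hxy
      exact absurd ⟨(x, y), by rw [Finset.mem_filter]; exact ⟨Finset.mem_univ _, hxy⟩⟩ hP
  -- trivial bound
  have h3 : (0 : ℝ) < 3 := by norm_num
  have htriv : ∀ S : Set (Fin n → ℝ), M.μ.real S ≤ 1 := fun S => measureReal_le_one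
  -- induction
  have key : ∀ j : ℕ, ∀ (ρ : ℝ), 0 < ρ → 2 * ρ < 2 ^ j * s0 → ∀ Q : Finset (Fin n),
      M.IsPiece Q ρ → ∀ x0 ∈ Q, ∀ u : ℝ, 0 ≤ u →
      M.μ.real {t | ∃ x ∈ Q, u * ρ ≤ |M.cd x x0 t|}
        ≤ 16 * (N0 : ℝ) ^ 2 * (3 : ℝ) ^ (-u / 16) := by
    intro j
    induction j with
    | zero =>
      intro ρ hρ hj Q hQ x0 hx0 u hu
      rcases hu.eq_or_lt with rfl | hu0
      · refine (htriv _).trans ?_
        rw [neg_zero, zero_div, Real.rpow_zero]
        nlinarith
      · have : {t : Fin n → ℝ | ∃ x ∈ Q, u * ρ ≤ |M.cd x x0 t|} = ∅ := by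
          ext t
          simp only [Set.mem_ofPred_eq, Set.mem_empty_iff_false, iff_false]
          rintro ⟨x, hx, hxu⟩
          have hxx : x = x0 := by
            by_contra hne
            have h1 := hmin x x0 hne
            have h2 := (hQ x hx x0 hx0).2
            rw [pow_zero, one_mul] at hj
            linarith
          subst hxx
          rw [M.cd_self, abs_zero] at hxu
          have := mul_pos hu0 hρ
          linarith
        rw [this, measureReal_empty]
        positivity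
    | succ j ih =>
      intro ρ hρ hj Q hQ x0 hx0 u hu
      obtain ⟨Qs, hcard, hQs, hcov⟩ := hC ρ Q hρ hQ
      -- the constant c
      set c : ℝ := 8 * Real.logb 3 (2 * N0) with hc
      have hc0 : 0 ≤ c := by
        rw [hc]
        have : 0 ≤ Real.logb 3 (2 * N0) := Real.logb_nonneg (by norm_num) (by linarith)
        linarith
      have hc3 : (3 : ℝ) ^ (c / 8) = 2 * N0 := by
        rw [hc, show 8 * Real.logb 3 (2 * N0) / 8 = Real.logb 3 (2 * N0) by ring]
        exact Real.rpow_logb h3 (by norm_num) (by linarith)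
      set v : ℝ := u / 2 - c with hv
      -- choose representatives
      let rep : Finset (Fin n) → Fin n := fun Q' => if h : Q'.Nonempty then h.choose else x0
      have hrep : ∀ Q' : Finset (Fin n), Q'.Nonempty → rep Q' ∈ Q' := by
        intro Q' hne
        simp only [rep, dif_pos hne]
        exact hne.choose_spec
      set E : ℝ := (3 : ℝ) ^ (-u / 16) with hE
      have hE0 : 0 < E := Real.rpow_pos_of_pos h3 _
      have e1 : (3 : ℝ) ^ (-v / 8) = 2 * N0 * E := by
        rw [hE, ← hc3, ← Real.rpow_add h3]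
        congr 1
        rw [hv]; ring
      have e2 : (3 : ℝ) ^ (-(u + 2 * c) / 16) * (2 * N0) = E := by
        rw [hE, ← hc3, ← Real.rpow_add h3]
        congr 1
        ring
      have hsub : {t : Fin n → ℝ | ∃ x ∈ Q, u * ρ ≤ |M.cd x x0 t|} ⊆
          ⋃ Q' ∈ Qs.filter (fun Q' => Q'.Nonempty),
            ({t | v * ρ ≤ |M.cd (rep Q') x0 t|} ∪
              {t | ∃ x ∈ Q', (u + 2 * c) * (ρ / 2) ≤ |M.cd x (rep Q') t|}) := by
        rintro t ⟨x, hx, hxu⟩
        obtain ⟨Q', hQ', hxQ'⟩ := hcov x hx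
        simp only [Set.mem_iUnion]
        refine ⟨Q', Finset.mem_filter.mpr ⟨hQ', ⟨x, hxQ'⟩⟩, ?_⟩
        by_cases h1 : v * ρ ≤ |M.cd (rep Q') x0 t|
        · left; exact h1
        · right
          refine ⟨x, hxQ', ?_⟩
          push Not at h1
          have h2 := M.cd_add x (rep Q') x0 t
          have h3' := abs_add_le (M.cd x (rep Q') t) (M.cd (rep Q') x0 t)
          rw [← h2] at h3'
          have : (u + 2 * c) * (ρ / 2) = u * ρ - v * ρ := by rw [hv]; ring
          rw [this]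
          linarith
      have hbound : ∀ Q' ∈ Qs.filter (fun Q' => Q'.Nonempty),
          M.μ.real ({t | v * ρ ≤ |M.cd (rep Q') x0 t|} ∪
              {t | ∃ x ∈ Q', (u + 2 * c) * (ρ / 2) ≤ |M.cd x (rep Q') t|})
            ≤ 16 * N0 * E := by
        intro Q' hQ'
        rw [Finset.mem_filter] at hQ'
        obtain ⟨hQ'1, hne⟩ := hQ'
        obtain ⟨hQ'Q, hQ'p⟩ := hQs Q' hQ'1
        have hr := hrep Q' hne
        refine (measureReal_union_le _ _).trans ?_
        have b1 : M.μ.real {t | v * ρ ≤ |M.cd (rep Q') x0 t|} ≤ 4 * (3 : ℝ) ^ (-v / 8) := by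
          rcases le_or_gt 0 v with hv0 | hv0
          · have := M.tail (rep Q') x0 (2 * ρ) (by linarith) (hQ _ (hQ'Q hr) _ hx0).2 (v / 2)
              (by linarith)
            rw [show v / 2 * (2 * ρ) = v * ρ by ring, show -(v / 2) / 4 = -v / 8 by ring] at this
            exact this
          · refine (htriv _).trans ?_
            have : (1 : ℝ) ≤ (3 : ℝ) ^ (-v / 8) :=
              Real.one_le_rpow (by norm_num) (by linarith)
            linarith
        have b2 := ih (ρ / 2) (by linarith) (by rw [pow_succ] at hj; linarith) Q' hQ'p (rep Q') hr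
          (u + 2 * c) (by linarith)
        have e3 : 16 * (N0 : ℝ) ^ 2 * (3 : ℝ) ^ (-(u + 2 * c) / 16) = 8 * N0 * E := by
          rw [← e2]; ring
        rw [e3] at b2
        rw [e1] at b1
        linarith
      calc M.μ.real {t : Fin n → ℝ | ∃ x ∈ Q, u * ρ ≤ |M.cd x x0 t|}
          ≤ M.μ.real (⋃ Q' ∈ Qs.filter (fun Q' => Q'.Nonempty),
            ({t | v * ρ ≤ |M.cd (rep Q') x0 t|} ∪
              {t | ∃ x ∈ Q', (u + 2 * c) * (ρ / 2) ≤ |M.cd x (rep Q') t|})) :=
            measureReal_mono hsub (measure_ne_top _ _)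
        _ ≤ ∑ Q' ∈ Qs.filter (fun Q' => Q'.Nonempty),
            M.μ.real ({t | v * ρ ≤ |M.cd (rep Q') x0 t|} ∪
              {t | ∃ x ∈ Q', (u + 2 * c) * (ρ / 2) ≤ |M.cd x (rep Q') t|}) :=
            measureReal_biUnion_finset_le _ _
        _ ≤ ∑ Q' ∈ Qs.filter (fun Q' => Q'.Nonempty), 16 * N0 * E := Finset.sum_le_sum hbound
        _ = ((Qs.filter (fun Q' => Q'.Nonempty)).card : ℝ) * (16 * N0 * E) := by
            rw [Finset.sum_const, nsmul_eq_mul]
        _ ≤ N0 * (16 * N0 * E) := by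
            apply mul_le_mul_of_nonneg_right _ (by positivity)
            have := (Finset.card_filter_le Qs (fun Q' => Q'.Nonempty)).trans hcard
            exact_mod_cast this
        _ = 16 * (N0 : ℝ) ^ 2 * E := by ring
  obtain ⟨j, hj⟩ := pow_unbounded_of_one_lt (2 * ρ / s0) (show (1:ℝ) < 2 by norm_num)
  exact key j ρ hρ (by rwa [div_lt_iff₀ hs0] at hj) Q hQ x0 hx0 u hu

end Pool.Agent.Helper8.KS
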