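import Pool.Agent.Helper8.KS.Counting

set_option autoImplicit false

open MeasureTheory Pool.Agent.Helper1.Balance

namespace Pool.Agent.Helper8.KS

section aux

variable {n : ℕ} {r : Fin n → Fin n → Prop} {top : Fin n}

private theorem meas_lt (x y : Fin n) : MeasurableSet {t : Fin n → ℝ | t x < t y} :=
  measurableSet_lt (measurable_pi_apply x) (measurable_pi_apply y)

/-- far elements are ordered with probability at least `5/9` -/
private theorem far_order (M : Model r top) (D : ℝ) (hD : 1 ≤ D) (hv : ∀ x, vr r x ≤ D ^ 2)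
    (a b : Fin n) (h : ht r a + 128 * D ≤ ht r b) : 5 / 9 ≤ prob r a b := by
  have hne : a ≠ b := by
    rintro rfl
    linarith
  set H := ht r b - ht r a with hH
  have hH0 : 128 * D ≤ H := by rw [hH]; linarith
  have hHpos : 0 < H := by linarith
  have hs2 := s_sq_le M D hD hv a b
  have habs : |ht r a - ht r b| = H := by
    rw [hH, abs_sub_comm, abs_of_pos]; linarith
  rw [habs] at hs2
  have hs : M.s a b ≤ H / 8 := by
    apply le_of_sq_le_sq _ (by positivity)
    refine le_trans hs2 ?_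
    nlinarith
  have ht := M.tail a b (H / 8) (by positivity) hs 8 (by norm_num)
  have h49 : 4 * (3 : ℝ) ^ (-(8 : ℝ) / 4) = 4 / 9 := by
    rw [show (-(8 : ℝ) / 4) = ((-2 : ℤ) : ℝ) by norm_num, Real.rpow_intCast]
    norm_num
  rw [h49] at ht
  have hsub : {t : Fin n → ℝ | t a < t b}ᶜ ⊆ {t | 8 * (H / 8) ≤ |M.cd a b t|} := by
    intro t ht
    simp only [Set.mem_compl_iff, Set.mem_ofPred_eq, not_lt] at ht ⊢
    unfold Model.cd
    refine le_trans ?_ (le_abs_self _)
    rw [hH]
    linarith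
  have h1 := measureReal_mono (μ := M.μ) hsub (by finiteness)
  rw [probReal_compl_eq_one_sub (meas_lt a b), M.prob_lt a b hne] at h1
  linarith

end aux

/-- (10.4) -/
theorem closeness (ε : ℝ) (hε : 0 < ε) (hε' : ε ≤ 1 / 2) : ∃ C : ℝ, 1 ≤ C ∧ ∀ l2 : ℝ, 1 ≤ l2 →
    ∃ l3 : ℝ, l2 ≤ l3 ∧ ∀ {n : ℕ} {r : Fin n → Fin n → Prop} {top : Fin n}
    (M : Model r top), Unb ε r → ∀ D : ℝ, 1 ≤ D → (∀ x, vr r x ≤ D ^ 2) →
    ∀ (y : Fin n) (κ : ℝ), 0 < κ → ∀ (m : ℕ) (γ : ℕ → Fin n),
    (∀ i, i < m → Step r (κ * D) (γ i) (γ (i + 1))) →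
    ht r (γ 0) ≤ ht r y - l3 * D → ht r y + l3 * D ≤ ht r (γ m) →
    ∀ x : Fin n, |ht r x - ht r y| ≤ l2 * D →
      ∃ i, i ≤ m ∧ M.s x (γ i) ≤ C * κ * D ∧ |ht r x - ht r (γ i)| ≤ C * κ * D := by
  obtain ⟨C3, hC3, hball⟩ := small_ball
  obtain ⟨U, hU0, hU⟩ : ∃ U : ℝ, 0 ≤ U ∧ 4 * (3 : ℝ) ^ (-U / 4) < ε := by
    have h1 : Filter.Tendsto (fun k : ℕ => 4 * ((1 : ℝ) / 3) ^ k) Filter.atTop (nhds (4 * 0)) :=
      (tendsto_pow_atTop_nhds_zero_of_lt_one (by norm_num) (by norm_num)).const_mul 4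
    rw [mul_zero] at h1
    obtain ⟨k, hk⟩ := (h1.eventually (gt_mem_nhds hε)).exists
    refine ⟨4 * k, by positivity, ?_⟩
    have : (3 : ℝ) ^ (-(4 * (k : ℝ)) / 4) = (1 / 3) ^ k := by
      rw [show -(4 * (k : ℝ)) / 4 = -(k : ℝ) by ring, Real.rpow_neg (by norm_num),
        Real.rpow_natCast, one_div, inv_pow]
    rw [this]
    exact hk
  refine ⟨1 + 1 / ε + (1 + U) * (C3 / ε ^ 2), ?_, ?_⟩
  · have : 0 ≤ 1 / ε + (1 + U) * (C3 / ε ^ 2) := by positivity
    linarith
  intro l2 hl2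
  refine ⟨l2 + 128, by linarith, ?_⟩
  intro n r top M hunb D hD hv y κ hκ m γ hγ h0 hm x hx
  have hδ : 0 < κ * D := by positivity
  have hCε : 0 ≤ 1 / ε := by positivity
  have hC3ε : 0 ≤ C3 / ε ^ 2 := by positivity
  have hUC : 0 ≤ U * (C3 / ε ^ 2) := by positivity
  by_cases hin : ∃ i, i ≤ m ∧ x = γ i
  · obtain ⟨i, hi, rfl⟩ := hin
    refine ⟨i, hi, ?_, ?_⟩
    · rw [M.s_self]; positivity
    · rw [sub_self, abs_zero]; positivity
  push Not at hin
  rw [abs_le] at hx
  -- p i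
  have hp0 : 1 / 2 + ε ≤ prob r (γ 0) x := by
    have h1 := far_order M D hD hv (γ 0) x (by nlinarith [hx.1])
    have h2 := hunb (γ 0) x (fun h => hin 0 (Nat.zero_le _) h.symm)
    rw [abs_of_nonneg (by linarith)] at h2
    linarith
  have hpm : ¬ (1 / 2 + ε ≤ prob r (γ m) x) := by
    have h1 := far_order M D hD hv x (γ m) (by nlinarith [hx.2])
    have hne : x ≠ γ m := hin m le_rfl
    have h3 : prob r (γ m) x + prob r x (γ m) ≤ 1 := by
      rw [← M.prob_lt _ _ hne, ← M.prob_lt _ _ hne.symm]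
      rw [← measureReal_union (by
        rw [Set.disjoint_left]
        intro t h1 h2
        simp only [Set.mem_ofPred_eq] at h1 h2
        exact absurd h1 (not_lt.2 h2.le)) (meas_lt _ _)]
      exact measureReal_le_one
    linarith
  obtain ⟨i, him, hpi, hpi1⟩ : ∃ i, i < m ∧ 1 / 2 + ε ≤ prob r (γ i) x ∧
      ¬ (1 / 2 + ε ≤ prob r (γ (i + 1)) x) := by
    by_contra hcon
    push Not at hcon
    have : ∀ j, j ≤ m → 1 / 2 + ε ≤ prob r (γ j) x := by
      intro j
      induction j with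
      | zero => intro _; exact hp0
      | succ j ih =>
        intro hj
        exact hcon j (by omega) (ih (by omega))
    exact hpm (this m le_rfl)
  have hpi2 : prob r (γ (i + 1)) x ≤ 1 / 2 - ε := by
    have h2 := hunb (γ (i + 1)) x (fun h => hin (i + 1) (by omega) h.symm)
    push Not at hpi1
    rcases le_or_gt 0 (prob r (γ (i + 1)) x - 1 / 2) with h | h
    · rw [abs_of_nonneg h] at h2; linarith
    · rw [abs_of_neg h] at h2; linarith
  set z := γ i with hz
  set z' := γ (i + 1) with hz'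
  have hxz : x ≠ z := hin i him.le
  have hxz' : x ≠ z' := hin (i + 1) (by omega)
  have hst := hγ i him
  rw [← hz, ← hz'] at hst
  -- the event of a small difference
  set A : Set (Fin n → ℝ) := {t | t z < t x} with hA
  set B : Set (Fin n → ℝ) := {t | t z' < t x} with hB
  set G : Set (Fin n → ℝ) := {t | κ * D / ε ≤ t z' - t z} with hG
  set F : Set (Fin n → ℝ) := {t | 0 ≤ t x - t z ∧ t x - t z ≤ 0 + κ * D / ε} with hF
  have hsub : A ⊆ F ∪ G ∪ B := by
    intro t ht
    by_contra hcon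
    simp only [hA, hB, hG, hF, Set.mem_union, Set.mem_ofPred_eq, not_or, not_and, not_le,
      not_lt] at ht hcon
    obtain ⟨⟨h1, h2⟩, h3⟩ := hcon
    have h4 := h1 (by linarith)
    linarith
  have hμA : M.μ.real A = prob r z x := M.prob_lt _ _ hxz.symm
  have hμB : M.μ.real B = prob r z' x := M.prob_lt _ _ hxz'.symm
  have hnn : ∀ᵐ t ∂M.μ, 0 ≤ t z' - t z := by
    filter_upwards [M.ae_le hst.1] with t ht
    linarith
  have hintd : Integrable (fun t : Fin n → ℝ => t z' - t z) M.μ := by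
    obtain ⟨R, hR⟩ := M.bdd
    refine Integrable.of_bound ?_ (2 * R) ?_
    · exact ((measurable_pi_apply z').sub (measurable_pi_apply z)).aestronglyMeasurable
    · filter_upwards [hR] with t ht
      have h1 := ht z
      have h2 := ht z'
      rw [Real.norm_eq_abs]
      rw [abs_le] at *
      constructor <;> linarith
  have hμG : M.μ.real G ≤ ε := by
    have h1 := mul_meas_ge_le_integral_of_nonneg hnn hintd (κ * D / ε)
    rw [M.mean] at h1
    have h2 : ht r z' - ht r z < κ * D := hst.2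
    have h3 : κ * D / ε * M.μ.real G ≤ κ * D / ε * ε := by
      have : κ * D / ε * ε = κ * D := by field_simp
      rw [this]
      exact le_trans h1 h2.le
    exact le_of_mul_le_mul_left h3 (by positivity)
  have hμF : ε ≤ M.μ.real F := by
    have h1 : M.μ.real A ≤ M.μ.real F + M.μ.real G + M.μ.real B := by
      refine le_trans (measureReal_mono hsub (by finiteness)) ?_
      refine le_trans (measureReal_union_le _ _) ?_
      gcongr
      exact measureReal_union_le _ _
    rw [hμA, hμB] at h1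
    linarith
  have hs0 : 0 < M.s x z := M.s_pos hxz
  have hsb := hball M x z hxz 0 (κ * D / ε) (by positivity)
  have hs1 : M.s x z ≤ C3 / ε ^ 2 * (κ * D) := by
    have h1 : ε ≤ C3 * (κ * D / ε) / M.s x z := le_trans hμF hsb
    rw [le_div_iff₀ hs0] at h1
    have h2 : M.s x z ≤ C3 * (κ * D / ε) / ε := by
      rw [le_div_iff₀ hε]
      linarith
    refine le_trans h2 (le_of_eq ?_)
    field_simp
  refine ⟨i, him.le, ?_, ?_⟩
  · refine le_trans hs1 ?_
    have : C3 / ε ^ 2 * (κ * D) ≤ (1 + 1 / ε + (1 + U) * (C3 / ε ^ 2)) * (κ * D) := by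
      apply mul_le_mul_of_nonneg_right _ hδ.le
      nlinarith
    linarith
  · set σ : ℝ := C3 / ε ^ 2 * (κ * D) with hσ
    have hσ0 : 0 < σ := by positivity
    have htl := M.tail x z σ hσ0 hs1 U hU0
    have hlt : M.μ.real {t | U * σ ≤ |M.cd x z t|} < M.μ.real F := by linarith
    obtain ⟨t, ht1, ht2⟩ : ∃ t, t ∈ F ∧ t ∉ {t | U * σ ≤ |M.cd x z t|} := by
      by_contra hcon
      push Not at hcon
      exact absurd (measureReal_mono (μ := M.μ) (show F ⊆ _ from hcon) (by finiteness))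
        (not_le.2 hlt)
    simp only [Set.mem_ofPred_eq, not_le] at ht2
    rw [hF] at ht1
    simp only [Set.mem_ofPred_eq, zero_add] at ht1
    have h3 : |ht r x - ht r z| ≤ κ * D / ε + U * σ := by
      unfold Model.cd at ht2
      rw [abs_lt] at ht2
      have h5 : 0 ≤ κ * D / ε := by positivity
      rw [abs_le]
      constructor <;> linarith [ht1.1, ht1.2, ht2.1, ht2.2]
    refine le_trans h3 ?_
    have h4 : κ * D / ε + U * σ = (1 / ε + U * (C3 / ε ^ 2)) * (κ * D) := by
      rw [hσ]; ring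
    rw [h4, show (1 + 1 / ε + (1 + U) * (C3 / ε ^ 2)) * κ * D =
      (1 + 1 / ε + (1 + U) * (C3 / ε ^ 2)) * (κ * D) by ring]
    apply mul_le_mul_of_nonneg_right _ hδ.le
    nlinarith

end Pool.Agent.Helper8.KS
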