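import Pool.Agent.Helper8.KS.Basic
import Pool.Agent.Helper18.KS.Count

set_option autoImplicit false

open MeasureTheory Pool.Agent.Helper1.Balance

namespace Pool.Agent.Helper8.KS

/-- `LEs r` is nonempty -/
theorem LEs_nonempty {n : ℕ} (r : Fin n → Fin n → Prop) (hr : IsPoset r) :
    (LEs r).Nonempty :=
  Finset.card_pos.1 (Pool.Agent.Helper18.KSC.LEs_pos hr)

/-- `prob` through `Ex` -/
theorem prob_eq_Ex {n : ℕ} (r : Fin n → Fin n → Prop) (x y : Fin n) :
    prob r x y = Ex r (fun σ => if σ x < σ y then 1 else 0) := by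
  classical
  unfold prob Ex
  rw [Finset.sum_boole]
  congr 1
  · congr 1
    rw [Nat.card_eq_fintype_card, Fintype.card_subtype]
    congr 1
    ext σ
    simp [LEs]
  · congr 1
    rw [Nat.card_eq_fintype_card, Fintype.card_subtype]
    congr 1

/-- (9.1) -/
theorem s_sq_le {n : ℕ} {r : Fin n → Fin n → Prop} {top : Fin n} (M : Model r top) (D : ℝ)
    (hD : 1 ≤ D) (hv : ∀ x, vr r x ≤ D ^ 2) (x y : Fin n) :
    M.s x y ^ 2 ≤ 6 * D ^ 2 + |ht r x - ht r y| := by
  unfold Model.s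
  rw [Real.sq_sqrt (integral_nonneg fun t => sq_nonneg _)]
  exact Pool.Agent.Helper18.KSC.s_sq_le M D hD hv x y

open Classical in
/-- (9.2) -/
theorem count_upper {n : ℕ} (r : Fin n → Fin n → Prop) (hr : IsPoset r) (D : ℝ)
    (hD : 1 ≤ D) (hv : ∀ x, vr r x ≤ D ^ 2) (a b : ℝ) (hab : a ≤ b) :
    ((Finset.univ.filter (fun x => a ≤ ht r x ∧ ht r x ≤ b)).card : ℝ) ≤
      4 / 3 * (b - a + 4 * D + 1) := by
  refine Pool.Agent.Helper18.KSC.card_mean_le hr D (by linarith) hv a b hab _ ?_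
  intro x hx
  rw [Finset.mem_filter] at hx
  exact hx.2

open Classical in
/-- (9.3) -/
theorem count_lower : ∃ c0 : ℝ, 1 ≤ c0 ∧ ∀ {n : ℕ} (r : Fin n → Fin n → Prop),
    IsPoset r → ∀ (D : ℝ), 1 ≤ D → (∀ x, vr r x ≤ D ^ 2) → ∀ a : ℝ, 1 ≤ a → a + c0 * D ≤ n →
    D ≤ ((Finset.univ.filter (fun x => a ≤ ht r x ∧ ht r x ≤ a + c0 * D)).card : ℝ) := by
  refine ⟨16, by norm_num, ?_⟩
  intro n r hr D hD hv a ha hn
  refine Pool.Agent.Helper18.KSC.le_card_mean hr D hD hv a (a + 16 * D) rfl ha hn _ ?_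
  intro x h1 h2
  rw [Finset.mem_filter]
  exact ⟨Finset.mem_univ x, h1, h2⟩

open Classical in
/-- distinct integer positions -/
theorem card_pos_near {n : ℕ} (σ : Equiv.Perm (Fin n)) (y : Fin n) (w : ℝ) (hw : 0 ≤ w) :
    ((Finset.univ.filter (fun x => |pos σ x - pos σ y| ≤ w)).card : ℝ) ≤ 2 * w + 1 := by
  have := Pool.Agent.Helper18.KSC.card_pos_le σ (pos σ y - w) (pos σ y + w) (by linarith)
    (Finset.univ.filter (fun x => |pos σ x - pos σ y| ≤ w)) (by
      intro x hx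
      rw [Finset.mem_filter] at hx
      have := abs_le.1 hx.2
      constructor <;> linarith [this.1, this.2])
  linarith

end Pool.Agent.Helper8.KS
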