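import Pool.Agent.Helper8.KS.Counting

set_option autoImplicit false

open MeasureTheory Pool.Agent.Helper1.Balance

namespace Pool.Agent.Helper8.KS

open Classical in
/-- crossing probability of `x` and `y` (asymmetric convention when the heights agree) -/
noncomputable def crossP {n : ℕ} (r : Fin n → Fin n → Prop) (x y : Fin n) : ℝ :=
  if ht r x < ht r y then prob r y x else prob r x y

/-! ### auxiliary facts on `Ex` -/

private theorem exNonneg {n : ℕ} (r : Fin n → Fin n → Prop) (f : Equiv.Perm (Fin n) → ℝ)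
    (hf : ∀ σ, 0 ≤ f σ) : 0 ≤ Ex r f := by
  unfold Ex
  exact div_nonneg (Finset.sum_nonneg (fun σ _ => hf σ)) (by positivity)

private theorem exLeOne {n : ℕ} (r : Fin n → Fin n → Prop) (f : Equiv.Perm (Fin n) → ℝ)
    (hf : ∀ σ, f σ ≤ 1) : Ex r f ≤ 1 := by
  unfold Ex
  apply div_le_one_of_le₀ _ (by positivity)
  calc ∑ σ ∈ LEs r, f σ ≤ ∑ σ ∈ LEs r, (1 : ℝ) := Finset.sum_le_sum (fun σ _ => hf σ)
    _ = ((LEs r).card : ℝ) := by simp

private theorem exCS {n : ℕ} (r : Fin n → Fin n → Prop) (f g : Equiv.Perm (Fin n) → ℝ) :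
    Ex r (fun σ => f σ * g σ) ≤
      Real.sqrt (Ex r (fun σ => f σ ^ 2)) * Real.sqrt (Ex r (fun σ => g σ ^ 2)) := by
  have h0 : 0 ≤ ((LEs r).card : ℝ) := by positivity
  have hA : 0 ≤ ∑ σ ∈ LEs r, f σ ^ 2 := Finset.sum_nonneg (fun σ _ => sq_nonneg _)
  have hB : 0 ≤ ∑ σ ∈ LEs r, g σ ^ 2 := Finset.sum_nonneg (fun σ _ => sq_nonneg _)
  have hcs := Finset.sum_mul_sq_le_sq_mul_sq (LEs r) f g
  have h1 : ∑ σ ∈ LEs r, f σ * g σ ≤
      Real.sqrt (∑ σ ∈ LEs r, f σ ^ 2) * Real.sqrt (∑ σ ∈ LEs r, g σ ^ 2) := by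
    rw [← Real.sqrt_mul hA]
    exact Real.le_sqrt_of_sq_le hcs
  unfold Ex
  rw [Real.sqrt_div hA, Real.sqrt_div hB, div_mul_div_comm, Real.mul_self_sqrt h0]
  exact div_le_div_of_nonneg_right h1 h0

private theorem exSumSq {n : ℕ} (r : Fin n → Fin n → Prop) {ι : Type*} (S : Finset ι)
    (f : ι → Equiv.Perm (Fin n) → ℝ) :
    Real.sqrt (Ex r (fun σ => (∑ x ∈ S, f x σ) ^ 2)) ≤
      ∑ x ∈ S, Real.sqrt (Ex r (fun σ => (f x σ) ^ 2)) := by
  apply Real.sqrt_le_iff.mpr
  refine ⟨Finset.sum_nonneg (fun x _ => Real.sqrt_nonneg _), ?_⟩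
  have h1 : Ex r (fun σ => (∑ x ∈ S, f x σ) ^ 2) =
      ∑ x ∈ S, ∑ x' ∈ S, Ex r (fun σ => f x σ * f x' σ) := by
    unfold Ex
    simp_rw [sq, Finset.sum_mul_sum]
    simp_rw [← Finset.sum_div]
    congr 1
    rw [Finset.sum_comm]
    refine Finset.sum_congr rfl (fun x _ => ?_)
    rw [Finset.sum_comm]
  rw [h1, sq, Finset.sum_mul_sum]
  exact Finset.sum_le_sum (fun x _ => Finset.sum_le_sum (fun x' _ => exCS r _ _))

private theorem exVar {n : ℕ} (r : Fin n → Fin n → Prop) (f : Equiv.Perm (Fin n) → ℝ) (c : ℝ) :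
    Ex r (fun σ => (f σ - Ex r f) ^ 2) ≤ Ex r (fun σ => (f σ - c) ^ 2) := by
  rcases (LEs r).card.eq_zero_or_pos with h0 | h0
  · unfold Ex
    simp [h0]
  have hpos : (0 : ℝ) < ((LEs r).card : ℝ) := by exact_mod_cast h0
  have hs : ∑ σ ∈ LEs r, f σ = Ex r f * ((LEs r).card : ℝ) := by
    unfold Ex
    field_simp
  have key : ∑ σ ∈ LEs r, (f σ - Ex r f) ^ 2 ≤ ∑ σ ∈ LEs r, (f σ - c) ^ 2 := by
    have e1 : ∑ σ ∈ LEs r, (f σ - c) ^ 2 =
        ∑ σ ∈ LEs r, (f σ - Ex r f) ^ 2 + 2 * (Ex r f - c) * (∑ σ ∈ LEs r, (f σ - Ex r f)) +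
          ((LEs r).card : ℝ) * (Ex r f - c) ^ 2 := by
      rw [Finset.mul_sum, ← Finset.sum_add_distrib]
      have : ((LEs r).card : ℝ) * (Ex r f - c) ^ 2 = ∑ σ ∈ LEs r, (Ex r f - c) ^ 2 := by
        simp
      rw [this, ← Finset.sum_add_distrib]
      refine Finset.sum_congr rfl (fun σ _ => ?_)
      ring
    have e2 : ∑ σ ∈ LEs r, (f σ - Ex r f) = 0 := by
      rw [Finset.sum_sub_distrib, hs]
      simp
      ring
    rw [e1, e2]
    have : 0 ≤ ((LEs r).card : ℝ) * (Ex r f - c) ^ 2 := by positivity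
    linarith
  show (∑ σ ∈ LEs r, (f σ - Ex r f) ^ 2) / ((LEs r).card : ℝ) ≤
    (∑ σ ∈ LEs r, (f σ - c) ^ 2) / ((LEs r).card : ℝ)
  exact div_le_div_of_nonneg_right key hpos.le

private theorem probNonneg {n : ℕ} (r : Fin n → Fin n → Prop) (x y : Fin n) :
    0 ≤ prob r x y := by
  rw [prob_eq_Ex]
  exact exNonneg r _ (fun σ => by split_ifs <;> norm_num)

private theorem probLeOne {n : ℕ} (r : Fin n → Fin n → Prop) (x y : Fin n) :
    prob r x y ≤ 1 := by
  rw [prob_eq_Ex]
  exact exLeOne r _ (fun σ => by split_ifs <;> norm_num)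

private theorem posEq {n : ℕ} (σ : Equiv.Perm (Fin n)) (y : Fin n) :
    pos σ y = 1 + ∑ x ∈ Finset.univ.filter (fun x => x ≠ y),
      (if σ x < σ y then (1 : ℝ) else 0) := by
  have h1 : ∑ x ∈ Finset.univ.filter (fun x => x ≠ y), (if σ x < σ y then (1 : ℝ) else 0) =
      ∑ x : Fin n, (if σ x < σ y then (1 : ℝ) else 0) := by
    rw [Finset.sum_filter]
    refine Finset.sum_congr rfl (fun x _ => ?_)
    by_cases hxy : x = y
    · subst hxy; simp
    · simp [hxy]
  have h2 : ∑ x : Fin n, (if σ x < σ y then (1 : ℝ) else 0) =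
      ∑ z : Fin n, (if z < σ y then (1 : ℝ) else 0) :=
    Equiv.sum_comp σ (fun z => if z < σ y then (1 : ℝ) else 0)
  have h3 : ∑ z : Fin n, (if z < σ y then (1 : ℝ) else 0) = ((σ y : ℕ) : ℝ) := by
    rw [Finset.sum_ite]
    simp only [Finset.sum_const, Finset.sum_const_zero, add_zero, nsmul_eq_mul, mul_one]
    congr 1
    have : (Finset.univ.filter (fun z : Fin n => z < σ y)) = Finset.Iio (σ y) := by
      ext z; simp
    rw [this]
    simp
  rw [h1, h2, h3]
  unfold pos
  ring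

/-- (10.0) -/
theorem sd_le_sum_cross {n : ℕ} (r : Fin n → Fin n → Prop) (hr : IsPoset r) (y : Fin n) :
    Real.sqrt (vr r y) ≤ ∑ x ∈ Finset.univ.filter (fun x => x ≠ y), Real.sqrt (crossP r x y) := by
  classical
  set S : Finset (Fin n) := Finset.univ.filter (fun x => x ≠ y) with hS
  -- signed crossing indicator
  set f : Fin n → Equiv.Perm (Fin n) → ℝ := fun x σ =>
    if ht r x < ht r y then -(if σ y < σ x then (1 : ℝ) else 0)
    else (if σ x < σ y then (1 : ℝ) else 0) with hf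
  set c : ℝ := 1 + ∑ x ∈ S, (if ht r x < ht r y then (1 : ℝ) else 0) with hc
  have hpos : ∀ σ : Equiv.Perm (Fin n), pos σ y - c = ∑ x ∈ S, f x σ := by
    intro σ
    rw [posEq σ y, hc]
    rw [add_sub_add_left_eq_sub, ← Finset.sum_sub_distrib]
    refine Finset.sum_congr rfl (fun x hx => ?_)
    have hxy : x ≠ y := by
      rw [hS] at hx
      simpa using hx
    have hne : σ x ≠ σ y := fun h => hxy (σ.injective h)
    simp only [hf]
    rcases lt_or_gt_of_ne hne with h | h
    · have h' : ¬ σ y < σ x := not_lt.mpr h.le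
      by_cases hh : ht r x < ht r y
      · simp [h, h', hh]
      · simp [h, hh]
    · have h' : ¬ σ x < σ y := not_lt.mpr h.le
      by_cases hh : ht r x < ht r y
      · simp [h, h', hh]
      · simp [h', hh]
  have h1 : vr r y ≤ Ex r (fun σ => (∑ x ∈ S, f x σ) ^ 2) := by
    have h2 := exVar r (fun σ => pos σ y) c
    have h3 : (fun σ : Equiv.Perm (Fin n) => (pos σ y - c) ^ 2) =
        (fun σ => (∑ x ∈ S, f x σ) ^ 2) := by
      funext σ; rw [hpos σ]
    rw [h3] at h2
    exact h2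
  refine (Real.sqrt_le_sqrt h1).trans ((exSumSq r S f).trans ?_)
  refine Finset.sum_le_sum (fun x _ => ?_)
  apply Real.sqrt_le_sqrt
  apply le_of_eq
  unfold crossP
  by_cases hh : ht r x < ht r y
  · rw [if_pos hh, prob_eq_Ex]
    congr 1
    funext σ
    simp only [hf, if_pos hh]
    split_ifs <;> norm_num
  · rw [if_neg hh, prob_eq_Ex]
    congr 1
    funext σ
    simp only [hf, if_neg hh]
    split_ifs <;> norm_num

theorem crossP_nonneg {n : ℕ} (r : Fin n → Fin n → Prop) (x y : Fin n) : 0 ≤ crossP r x y := by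
  unfold crossP
  split_ifs
  · exact probNonneg r y x
  · exact probNonneg r x y

theorem crossP_le_one {n : ℕ} (r : Fin n → Fin n → Prop) (x y : Fin n) : crossP r x y ≤ 1 := by
  unfold crossP
  split_ifs
  · exact probLeOne r y x
  · exact probLeOne r x y

/-- tail bound of the crossing probability -/
theorem crossP_le {n : ℕ} {r : Fin n → Fin n → Prop} {top : Fin n} (M : Model r top)
    (x y : Fin n) (hxy : x ≠ y) :
    crossP r x y ≤ 4 * (3 : ℝ) ^ (-(|ht r x - ht r y| / M.s x y) / 4) := by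
  have hs : 0 < M.s x y := M.s_pos hxy
  have ht0 := M.tail x y (M.s x y) hs le_rfl (|ht r x - ht r y| / M.s x y)
    (div_nonneg (abs_nonneg _) hs.le)
  refine le_trans ?_ ht0
  have hmul : |ht r x - ht r y| / M.s x y * M.s x y = |ht r x - ht r y| :=
    div_mul_cancel₀ _ hs.ne'
  rw [hmul]
  unfold crossP
  split_ifs with hh
  · rw [← M.prob_lt y x hxy.symm]
    apply measureReal_mono
    · intro t ht1
      simp only [Set.mem_setOf_eq] at ht1 ⊢
      unfold Model.cd
      rw [abs_of_neg (by linarith : ht r x - ht r y < 0)]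
      exact le_trans (by linarith) (le_abs_self _)
    · exact measure_ne_top _ _
  · rw [← M.prob_lt x y hxy]
    apply measureReal_mono
    · intro t ht1
      simp only [Set.mem_setOf_eq] at ht1 ⊢
      unfold Model.cd
      rw [abs_of_nonneg (by linarith : 0 ≤ ht r x - ht r y)]
      exact le_trans (by linarith) (neg_le_abs _)
    · exact measure_ne_top _ _

/-! ### the far sum -/

private theorem pow3_le (v : ℝ) (hv : 0 < v) : (3 : ℝ) ^ (-v) ≤ 24 / v ^ 4 := by
  have h1 : Real.exp v ≤ (3 : ℝ) ^ v := by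
    have hlog : 1 ≤ Real.log 3 := by
      rw [Real.le_log_iff_exp_le (by norm_num)]
      exact Real.exp_one_lt_three.le
    rw [Real.rpow_def_of_pos (by norm_num : (0 : ℝ) < 3)]
    apply Real.exp_le_exp.mpr
    nlinarith
  have h2 : v ^ 4 / 24 ≤ Real.exp v := by
    have := Real.pow_div_factorial_le_exp v hv.le 4
    have hfac : ((Nat.factorial 4 : ℕ) : ℝ) = 24 := by norm_num [Nat.factorial]
    rw [hfac] at this
    exact this
  have h3 : v ^ 4 / 24 ≤ (3 : ℝ) ^ v := h2.trans h1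
  rw [Real.rpow_neg (by norm_num : (0 : ℝ) ≤ 3)]
  have h4 : 0 < v ^ 4 / 24 := by positivity
  calc ((3 : ℝ) ^ v)⁻¹ ≤ (v ^ 4 / 24)⁻¹ := inv_anti₀ h4 h3
    _ = 24 / v ^ 4 := by rw [inv_div]

/-- pointwise bound of the far terms -/
private theorem far_term {n : ℕ} {r : Fin n → Fin n → Prop} {top : Fin n}
    (M : Model r top) (D : ℝ) (hD : 1 ≤ D) (hv : ∀ x, vr r x ≤ D ^ 2) (x y : Fin n)
    (hfar : D ≤ |ht r x - ht r y|) :
    Real.sqrt (crossP r x y) ≤ 10000000 * (D / |ht r x - ht r y|) ^ 2 := by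
  set d : ℝ := |ht r x - ht r y| with hd
  have hD0 : 0 < D := by linarith
  have hd0 : 0 < d := by linarith
  have hxy : x ≠ y := by
    rintro rfl
    simp only [sub_self, abs_zero] at hd
    linarith
  have hs : 0 < M.s x y := M.s_pos hxy
  have hs2 : M.s x y ^ 2 ≤ 7 * D * d := by
    have := s_sq_le M D hD hv x y
    rw [← hd] at this
    nlinarith
  have hc := crossP_le M x y hxy
  rw [← hd] at hc
  set v : ℝ := d / M.s x y / 8 with hvdef
  have hv0 : 0 < v := by positivity
  have h1 : Real.sqrt (crossP r x y) ≤ 2 * (3 : ℝ) ^ (-v) := by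
    apply Real.sqrt_le_iff.mpr
    refine ⟨by positivity, ?_⟩
    calc crossP r x y ≤ 4 * (3 : ℝ) ^ (-(d / M.s x y) / 4) := hc
      _ = (2 * (3 : ℝ) ^ (-v)) ^ 2 := by
          rw [mul_pow, ← Real.rpow_natCast ((3 : ℝ) ^ (-v)) 2, ← Real.rpow_mul (by norm_num)]
          congr 1
          · norm_num
          · congr 1
            rw [hvdef]
            push_cast
            ring
  refine h1.trans ?_
  have h2 := pow3_le v hv0
  have h3 : v ^ 4 = d ^ 4 / (M.s x y ^ 2) ^ 2 / 4096 := by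
    rw [hvdef]
    field_simp
    norm_num
  have h4 : (M.s x y ^ 2) ^ 2 ≤ (7 * D * d) ^ 2 := by
    apply pow_le_pow_left₀ (by positivity) hs2
  have h5 : d ^ 2 / (49 * D ^ 2 * 4096) ≤ v ^ 4 := by
    rw [h3, div_div, div_le_div_iff₀ (by positivity) (by positivity)]
    nlinarith [mul_le_mul_of_nonneg_left h4 (by positivity : 0 ≤ d ^ 2 * 4096)]
  calc 2 * (3 : ℝ) ^ (-v) ≤ 2 * (24 / v ^ 4) := by linarith
    _ ≤ 2 * (24 / (d ^ 2 / (49 * D ^ 2 * 4096))) := by
        gcongr
    _ = 9633792 * (D / d) ^ 2 := by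
        field_simp
        norm_num
    _ ≤ 10000000 * (D / d) ^ 2 := by
        have : 0 ≤ (D / d) ^ 2 := by positivity
        nlinarith

open Classical in
/-- (10.1) -/
theorem far_sum : ∃ l2 : ℝ, 1 ≤ l2 ∧ ∀ {n : ℕ} {r : Fin n → Fin n → Prop} {top : Fin n}
    (M : Model r top) (D : ℝ), 1 ≤ D → (∀ x, vr r x ≤ D ^ 2) → ∀ y : Fin n,
    ∑ x ∈ Finset.univ.filter (fun x => l2 * D ≤ |ht r x - ht r y|), Real.sqrt (crossP r x y)
      ≤ D / 8 := by
  -- m = 2560000000
  refine ⟨2560000000, by norm_num, ?_⟩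
  intro n r top M D hD hv y
  have hD0 : 0 < D := by linarith
  set F : Finset (Fin n) := Finset.univ.filter
    (fun x => 2560000000 * D ≤ |ht r x - ht r y|) with hF
  set j : Fin n → ℕ := fun x => ⌊|ht r x - ht r y| / D⌋₊ with hj
  have hjle : ∀ x, (j x : ℝ) * D ≤ |ht r x - ht r y| := by
    intro x
    have := Nat.floor_le (div_nonneg (abs_nonneg (ht r x - ht r y)) hD0.le)
    calc (j x : ℝ) * D ≤ (|ht r x - ht r y| / D) * D := by
          exact mul_le_mul_of_nonneg_right this hD0.le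
      _ = |ht r x - ht r y| := div_mul_cancel₀ _ hD0.ne'
  have hjlt : ∀ x, |ht r x - ht r y| < ((j x : ℝ) + 1) * D := by
    intro x
    have := Nat.lt_floor_add_one (|ht r x - ht r y| / D)
    calc |ht r x - ht r y| = (|ht r x - ht r y| / D) * D := (div_mul_cancel₀ _ hD0.ne').symm
      _ < ((j x : ℝ) + 1) * D := mul_lt_mul_of_pos_right this hD0
  have hjbig : ∀ x ∈ F, 2560000000 ≤ j x := by
    intro x hx
    have h1 : 2560000000 * D ≤ |ht r x - ht r y| := by
      rw [hF] at hx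
      exact (Finset.mem_filter.mp hx).2
    apply Nat.le_floor
    rw [le_div_iff₀ hD0]
    push_cast
    exact h1
  -- pointwise bound
  have hpt : ∀ x ∈ F, Real.sqrt (crossP r x y) ≤ 10000000 * (((j x : ℝ)) ^ 2)⁻¹ := by
    intro x hx
    have hjx : (0 : ℝ) < (j x : ℝ) := by
      have := hjbig x hx
      have h2 : 0 < j x := by omega
      exact_mod_cast h2
    have h1 : 2560000000 * D ≤ |ht r x - ht r y| := by
      rw [hF] at hx
      exact (Finset.mem_filter.mp hx).2
    have h2 : D ≤ |ht r x - ht r y| := by linarith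
    have h3 := far_term M D hD hv x y h2
    have hd0 : 0 < |ht r x - ht r y| := by linarith
    have h4 : D / |ht r x - ht r y| ≤ (j x : ℝ)⁻¹ := by
      rw [div_le_iff₀ hd0, ← div_eq_inv_mul, le_div_iff₀ hjx]
      have := hjle x
      linarith
    calc Real.sqrt (crossP r x y) ≤ 10000000 * (D / |ht r x - ht r y|) ^ 2 := h3
      _ ≤ 10000000 * ((j x : ℝ)⁻¹) ^ 2 := by
          apply mul_le_mul_of_nonneg_left _ (by norm_num)
          exact pow_le_pow_left₀ (by positivity) h4 2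
      _ = 10000000 * (((j x : ℝ)) ^ 2)⁻¹ := by rw [inv_pow]
  -- counting the fibres
  have hcount : ∀ k : ℕ, ((F.filter (fun x => j x = k)).card : ℝ) ≤ 16 * D := by
    intro k
    have hsub : F.filter (fun x => j x = k) ⊆
        (Finset.univ.filter (fun x => ht r y + k * D ≤ ht r x ∧ ht r x ≤ ht r y + (k + 1) * D)) ∪
        (Finset.univ.filter (fun x => ht r y - (k + 1) * D ≤ ht r x ∧
          ht r x ≤ ht r y - k * D)) := by
      intro x hx
      have hk : j x = k := (Finset.mem_filter.mp hx).2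
      have h1 := hjle x
      have h2 := hjlt x
      rw [hk] at h1 h2
      rw [Finset.mem_union, Finset.mem_filter, Finset.mem_filter]
      rcases le_total 0 (ht r x - ht r y) with h3 | h3
      · rw [abs_of_nonneg h3] at h1 h2
        left
        exact ⟨Finset.mem_univ _, by linarith, by linarith⟩
      · rw [abs_of_nonpos h3] at h1 h2
        right
        exact ⟨Finset.mem_univ _, by linarith, by linarith⟩
    have hc1 := count_upper r M.poset D hD hv (ht r y + k * D) (ht r y + (k + 1) * D)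
      (by nlinarith)
    have hc2 := count_upper r M.poset D hD hv (ht r y - (k + 1) * D) (ht r y - k * D)
      (by nlinarith)
    have hcard := (Finset.card_le_card hsub).trans (Finset.card_union_le _ _)
    have hcard' : ((F.filter (fun x => j x = k)).card : ℝ) ≤
      ((Finset.univ.filter (fun x => ht r y + k * D ≤ ht r x ∧
        ht r x ≤ ht r y + (k + 1) * D)).card : ℝ) +
        ((Finset.univ.filter (fun x => ht r y - (k + 1) * D ≤ ht r x ∧
          ht r x ≤ ht r y - k * D)).card : ℝ) := by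
      exact_mod_cast hcard
    have e1 : ht r y + ((k : ℝ) + 1) * D - (ht r y + (k : ℝ) * D) = D := by ring
    have e2 : ht r y - (k : ℝ) * D - (ht r y - ((k : ℝ) + 1) * D) = D := by ring
    rw [e1] at hc1
    rw [e2] at hc2
    linarith
  -- the range of j
  have himg : F.image j ⊆ Finset.Ioo 2559999999 ((F.image j).sup id + 1) := by
    intro k hk
    rw [Finset.mem_Ioo]
    refine ⟨?_, ?_⟩
    · obtain ⟨x, hx, rfl⟩ := Finset.mem_image.mp hk
      have := hjbig x hx
      omega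
    · have : k ≤ (F.image j).sup id := Finset.le_sup (f := id) hk
      omega
  calc ∑ x ∈ F, Real.sqrt (crossP r x y)
      ≤ ∑ x ∈ F, 10000000 * (((j x : ℝ)) ^ 2)⁻¹ := Finset.sum_le_sum hpt
    _ = ∑ k ∈ F.image j, (F.filter (fun x => j x = k)).card • (10000000 * ((k : ℝ) ^ 2)⁻¹) :=
        Finset.sum_comp (fun k : ℕ => 10000000 * ((k : ℝ) ^ 2)⁻¹) j
    _ ≤ ∑ k ∈ F.image j, 16 * D * (10000000 * ((k : ℝ) ^ 2)⁻¹) := by
        refine Finset.sum_le_sum (fun k _ => ?_)
        rw [nsmul_eq_mul]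
        exact mul_le_mul_of_nonneg_right (hcount k) (by positivity)
    _ ≤ ∑ k ∈ Finset.Ioo 2559999999 ((F.image j).sup id + 1),
          16 * D * (10000000 * ((k : ℝ) ^ 2)⁻¹) := by
        apply Finset.sum_le_sum_of_subset_of_nonneg himg
        intro k _ _
        positivity
    _ = 160000000 * D * ∑ k ∈ Finset.Ioo 2559999999 ((F.image j).sup id + 1),
          ((k : ℝ) ^ 2)⁻¹ := by
        rw [Finset.mul_sum]
        refine Finset.sum_congr rfl (fun k _ => ?_)
        ring
    _ ≤ 160000000 * D * (2 / ((2559999999 : ℕ) + 1)) := by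
        apply mul_le_mul_of_nonneg_left _ (by positivity)
        exact sum_Ioo_inv_sq_le 2559999999 ((F.image j).sup id + 1)
    _ ≤ D / 8 := by
        push_cast
        norm_num
        linarith

end Pool.Agent.Helper8.KS
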