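import Pool.Agent.Helper8.KS.StuckIso
import Pool.Agent.Helper8.KS.Counting

set_option autoImplicit false

open MeasureTheory Pool.Agent.Helper1.Balance

namespace Pool.Agent.Helper8.KS

/-- the greatest element is always last -/
theorem ht_top {n : ℕ} {r : Fin n → Fin n → Prop} {top : Fin n} (M : Model r top) :
    ht r top = n := by
  have hne := LEs_nonempty r M.poset
  have hpos : ∀ σ ∈ LEs r, pos σ top = n := by
    intro σ hσ
    have hσ' : ∀ a b, r a b → σ a ≤ σ b := by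
      simpa [LEs] using hσ
    have hn : 0 < n := Fin.pos top
    have h1 : (⟨n - 1, by omega⟩ : Fin n) ≤ σ top := by
      have h2 := hσ' (σ.symm ⟨n - 1, by omega⟩) top (M.isTop _)
      simpa using h2
    have h3 : n - 1 ≤ (σ top : ℕ) := h1
    have h4 : (σ top : ℕ) < n := (σ top).isLt
    have h5 : (σ top : ℕ) + 1 = n := by omega
    unfold pos
    exact_mod_cast h5
  unfold ht Ex
  rw [Finset.sum_congr rfl hpos, Finset.sum_const, nsmul_eq_mul]
  have hc : ((LEs r).card : ℝ) ≠ 0 := by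
    have := Finset.card_pos.mpr hne
    positivity
  field_simp

/-- (10.3) -/
theorem dense_chain (ε : ℝ) (hε : 0 < ε) (κ l3 : ℝ) (hκ : 0 < κ) (hl3 : 1 ≤ l3) :
    ∃ D0 : ℝ, 1 ≤ D0 ∧ ∃ c : ℝ, 1 ≤ c ∧ ∀ {n : ℕ} {r : Fin n → Fin n → Prop} {top : Fin n}
    (M : Model r top), Unb ε r → ∀ D : ℝ, D0 ≤ D → (∀ x, vr r x ≤ D ^ 2) → ∀ y : Fin n,
    c * D ≤ ht r y → ht r y + c * D ≤ n →
    ∃ (m : ℕ) (γ : ℕ → Fin n), (∀ i, i < m → Step r (κ * D) (γ i) (γ (i + 1))) ∧
      ht r (γ 0) ≤ ht r y - l3 * D ∧ ht r y + l3 * D ≤ ht r (γ m) := by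
  classical
  obtain ⟨c0, hc0, hcount⟩ := count_lower
  obtain ⟨N0, hN0, hcov⟩ := cov_exists ε hε
  obtain ⟨c1, hc1, hstuck⟩ := stuck_isolated N0 hN0 ((2 * l3 + c0) / κ)
  obtain ⟨j, hj⟩ : ∃ j : ℕ, 2 * (6 + c0) / (c1 * κ) < 2 ^ j :=
    pow_unbounded_of_one_lt _ (by norm_num)
  refine ⟨(N0 : ℝ) ^ j + 1, by have : (0 : ℝ) ≤ (N0 : ℝ) ^ j := by positivity
                               linarith, l3 + c0 + 1, by linarith, ?_⟩
  intro n r top M hU D hD hv y hy1 hy2
  have hD1 : 1 ≤ D := by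
    have : (0 : ℝ) ≤ (N0 : ℝ) ^ j := by positivity
    linarith
  set a : ℝ := ht r y - (l3 + c0) * D with ha
  have ha1 : 1 ≤ a := by rw [ha]; nlinarith
  have ha2 : a + c0 * D ≤ n := by rw [ha]; nlinarith
  have hW := hcount r M.poset D hD1 hv a ha1 ha2
  set W := Finset.univ.filter (fun x => a ≤ ht r x ∧ ht r x ≤ a + c0 * D) with hWdef
  have hmem : ∀ z ∈ W, a ≤ ht r z ∧ ht r z ≤ a + c0 * D := by
    intro z hz
    simpa [hWdef] using hz
  -- some element of `W` is not stuck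
  have hex : ∃ z ∈ W, ¬ Stuck r (κ * D) ((2 * l3 + c0) * D) z := by
    by_contra hcon
    push Not at hcon
    have hpiece : M.IsPiece W ((6 + c0) * D) := by
      intro x hx z hz
      obtain ⟨h1, h2⟩ := hmem x hx
      obtain ⟨h3, h4⟩ := hmem z hz
      have h5 : |ht r x - ht r z| ≤ c0 * D := by
        rw [abs_le]; constructor <;> linarith
      refine ⟨h5.trans (by nlinarith), ?_⟩
      have h6 := s_sq_le M D hD1 hv x z
      have h7 : M.s x z ^ 2 ≤ ((6 + c0) * D) ^ 2 := by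
        have h8 : c0 * D ≤ c0 * D ^ 2 := by
          have : D ≤ D ^ 2 := by nlinarith
          nlinarith
        have h9 : (6 + c0) * D ^ 2 ≤ (6 + c0) ^ 2 * D ^ 2 := by
          have h10 : (6 + c0) ≤ (6 + c0) ^ 2 := by nlinarith
          have h11 : 0 ≤ D ^ 2 := by positivity
          nlinarith
        calc M.s x z ^ 2 ≤ 6 * D ^ 2 + |ht r x - ht r z| := h6
          _ ≤ 6 * D ^ 2 + c0 * D ^ 2 := by linarith
          _ = (6 + c0) * D ^ 2 := by ring
          _ ≤ (6 + c0) ^ 2 * D ^ 2 := h9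
          _ = ((6 + c0) * D) ^ 2 := by ring
      have h12 : M.s x z ≤ (6 + c0) * D :=
        (le_abs_self _).trans (abs_le_of_sq_le_sq h7 (by positivity))
      nlinarith
    have hsep : ∀ x ∈ W, ∀ z ∈ W, x ≠ z → 2 * ((6 + c0) * D / 2 ^ j) < M.s x z := by
      intro x hx z hz hxz
      have h1 := hstuck M (hcov M hU) (κ * D) ((2 * l3 + c0) * D) x (by positivity)
        (by positivity) (by field_simp; exact le_refl _) (hcon x hx) (by
          rw [ht_top M]
          obtain ⟨h2, h3⟩ := hmem x hx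
          rw [ha] at h3
          nlinarith) z (Ne.symm hxz)
      refine lt_of_lt_of_le ?_ h1
      rw [div_lt_iff₀ (by positivity)] at hj
      have hpj : (0 : ℝ) < 2 ^ j := by positivity
      rw [← mul_div_assoc, div_lt_iff₀ hpj]
      nlinarith
    have h1 := (hcov M hU).packing j ((6 + c0) * D) W (by positivity) hpiece hsep
    have h2 : (W.card : ℝ) ≤ (N0 : ℝ) ^ j := by exact_mod_cast h1
    linarith
  obtain ⟨z, hz, hns⟩ := hex
  obtain ⟨m, γ, hγ0, hstep, hend⟩ := not_stuck_chain r (κ * D) ((2 * l3 + c0) * D) z hns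
  obtain ⟨h1, h2⟩ := hmem z hz
  refine ⟨m, γ, hstep, ?_, ?_⟩
  · rw [hγ0]
    rw [ha] at h2
    linarith
  · refine le_trans ?_ hend
    rw [ha] at h1
    linarith

end Pool.Agent.Helper8.KS
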