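import Pool.Agent.Helper8.KS.Basic

set_option autoImplicit false

open MeasureTheory Pool.Agent.Helper1.Balance

namespace Pool.Agent.Helper8.KS

variable {n : ℕ} {r : Fin n → Fin n → Prop} {top : Fin n}

namespace Model

/-- (4.1) ==> (4.2): a packing bound gives the covering property. -/
theorem cov_of_packing (M : Model r top) (K : ℕ)
    (hK : ∀ S : ℝ, 0 < S → ∀ X : Finset (Fin n),
      (∀ x ∈ X, ∀ y ∈ X, x ≠ y → S ≤ M.s x y ∧ M.s x y ≤ 4 * S ∧ |ht r x - ht r y| ≤ 2 * S) →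
      X.card ≤ K) :
    M.Cov (2 * K) := by
  classical
  intro ρ Q hρ hQ
  rcases Q.eq_empty_or_nonempty with rfl | hne
  · exact ⟨∅, by simp, by simp, by simp⟩
  -- a maximal separated set
  obtain ⟨X, hX, hmax⟩ := Finset.exists_max_image
    (Q.powerset.filter (fun X => ∀ x ∈ X, ∀ y ∈ X, x ≠ y → ρ / 2 ≤ M.s x y)) Finset.card
    ⟨∅, by simp⟩
  rw [Finset.mem_filter, Finset.mem_powerset] at hX
  obtain ⟨hXQ, hsep⟩ := hX
  have hcard : X.card ≤ K := by
    apply hK (ρ / 2) (by linarith) X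
    intro x hx y hy hxy
    have h1 := hQ x (hXQ hx) y (hXQ hy)
    exact ⟨hsep x hx y hy hxy, by linarith [h1.2], by linarith [h1.1]⟩
  obtain ⟨m0, hm0, hmin⟩ := Finset.exists_min_image Q (fun x => ht r x) hne
  let pc : Fin n × Bool → Finset (Fin n) := fun p =>
    Q.filter (fun x => M.s x p.1 < ρ / 2 ∧
      (if p.2 then ht r x ≤ ht r m0 + ρ / 2 else ht r m0 + ρ / 2 < ht r x))
  refine ⟨(X ×ˢ (Finset.univ : Finset Bool)).image pc, ?_, ?_, ?_⟩
  · calc ((X ×ˢ (Finset.univ : Finset Bool)).image pc).card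
        ≤ (X ×ˢ (Finset.univ : Finset Bool)).card := Finset.card_image_le
      _ = X.card * 2 := by rw [Finset.card_product]; simp
      _ ≤ 2 * K := by omega
  · intro Q' hQ'
    rw [Finset.mem_image] at hQ'
    obtain ⟨p, _, rfl⟩ := hQ'
    refine ⟨Finset.filter_subset _ _, ?_⟩
    intro x hx y hy
    simp only [pc, Finset.mem_filter] at hx hy
    obtain ⟨hxQ, hxs, hxh⟩ := hx
    obtain ⟨hyQ, hys, hyh⟩ := hy
    have a1 := hmin x hxQ
    have a2 := hmin y hyQ
    have a3 := (abs_le.mp (hQ x hxQ m0 hm0).1).2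
    have a4 := (abs_le.mp (hQ y hyQ m0 hm0).1).2
    constructor
    · rw [abs_le]
      cases hp : p.2
      · rw [hp] at hxh hyh
        simp only [Bool.false_eq_true, if_false] at hxh hyh
        constructor <;> linarith
      · rw [hp] at hxh hyh
        simp only [if_true] at hxh hyh
        constructor <;> linarith
    · have := M.s_triangle x p.1 y
      rw [M.s_comm p.1 y] at this
      linarith
  · intro x hx
    -- x is close to an element of X
    obtain ⟨z, hz, hzs⟩ : ∃ z ∈ X, M.s x z < ρ / 2 := by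
      by_contra hcon
      push Not at hcon
      have hxX : x ∉ X := by
        intro hxX
        have := hcon x hxX
        rw [M.s_self] at this
        linarith
      have hins : insert x X ∈ Q.powerset.filter
          (fun X => ∀ x ∈ X, ∀ y ∈ X, x ≠ y → ρ / 2 ≤ M.s x y) := by
        rw [Finset.mem_filter, Finset.mem_powerset]
        refine ⟨Finset.insert_subset hx hXQ, ?_⟩
        intro a ha b hb hab
        rw [Finset.mem_insert] at ha hb
        rcases ha with rfl | ha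
        · rcases hb with rfl | hb
          · exact absurd rfl hab
          · exact hcon b hb
        · rcases hb with rfl | hb
          · rw [M.s_comm]; exact hcon a ha
          · exact hsep a ha b hb hab
      have := hmax _ hins
      rw [Finset.card_insert_of_notMem hxX] at this
      omega
    by_cases hh : ht r x ≤ ht r m0 + ρ / 2
    · refine ⟨pc (z, true), Finset.mem_image_of_mem _ (by simp [hz]), ?_⟩
      simp only [pc, Finset.mem_filter]
      exact ⟨hx, hzs, by simpa using hh⟩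
    · refine ⟨pc (z, false), Finset.mem_image_of_mem _ (by simp [hz]), ?_⟩
      simp only [pc, Finset.mem_filter]
      exact ⟨hx, hzs, by simpa using lt_of_not_ge hh⟩

end Model

/-- pieces of a larger scale -/
theorem Model.IsPiece.mono {M : Model r top} {Q Q' : Finset (Fin n)} {ρ ρ' : ℝ}
    (h : M.IsPiece Q ρ) (hQ : Q' ⊆ Q) (hρ : ρ ≤ ρ') : M.IsPiece Q' ρ' := by
  intro x hx y hy
  have h1 := h x (hQ hx) y (hQ hy)
  exact ⟨h1.1.trans hρ, by linarith [h1.2]⟩

/-- (4.2), iterated -/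
theorem Model.Cov.iter {M : Model r top} {N0 : ℕ} (hcov : M.Cov N0) (j : ℕ) (ρ : ℝ)
    (Q : Finset (Fin n)) (hρ : 0 < ρ) (hQ : M.IsPiece Q ρ) :
    ∃ Qs : Finset (Finset (Fin n)), Qs.card ≤ N0 ^ j ∧
      (∀ Q' ∈ Qs, Q' ⊆ Q ∧ M.IsPiece Q' (ρ / 2 ^ j)) ∧ ∀ x ∈ Q, ∃ Q' ∈ Qs, x ∈ Q' := by
  classical
  induction j with
  | zero =>
    refine ⟨{Q}, by simp, ?_, ?_⟩
    · intro Q' hQ'
      rw [Finset.mem_singleton] at hQ'
      subst hQ'
      refine ⟨Finset.Subset.refl _, ?_⟩
      rw [pow_zero, div_one]; exact hQ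
    · intro x hx
      exact ⟨Q, by simp, hx⟩
  | succ j ih =>
    obtain ⟨Qs, hcard, hQs, hc⟩ := ih
    have hpos : 0 < ρ / 2 ^ j := by positivity
    choose! F hF using fun (Q' : Finset (Fin n)) (hQ' : Q' ∈ Qs) =>
      hcov (ρ / 2 ^ j) Q' hpos (hQs Q' hQ').2
    refine ⟨Qs.biUnion F, ?_, ?_, ?_⟩
    · calc (Qs.biUnion F).card ≤ Qs.card * N0 :=
            Finset.card_biUnion_le_card_mul _ _ _ (fun Q' hQ' => (hF Q' hQ').1)
        _ ≤ N0 ^ j * N0 := Nat.mul_le_mul_right _ hcard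
        _ = N0 ^ (j + 1) := (pow_succ _ _).symm
    · intro Q'' hQ''
      rw [Finset.mem_biUnion] at hQ''
      obtain ⟨Q', hQ', hm⟩ := hQ''
      obtain ⟨h1, h2⟩ := (hF Q' hQ').2.1 Q'' hm
      refine ⟨h1.trans (hQs Q' hQ').1, ?_⟩
      rw [pow_succ, ← div_div]
      exact h2
    · intro x hx
      obtain ⟨Q', hQ', hxQ'⟩ := hc x hx
      obtain ⟨Q'', hQ'', hxQ''⟩ := (hF Q' hQ').2.2 x hxQ'
      exact ⟨Q'', Finset.mem_biUnion.mpr ⟨Q', hQ', hQ''⟩, hxQ''⟩

/-- packing: a separated piece is small -/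
theorem Model.Cov.packing {M : Model r top} {N0 : ℕ} (hcov : M.Cov N0) (j : ℕ) (ρ : ℝ)
    (Q : Finset (Fin n)) (hρ : 0 < ρ) (hQ : M.IsPiece Q ρ)
    (hsep : ∀ x ∈ Q, ∀ y ∈ Q, x ≠ y → 2 * (ρ / 2 ^ j) < M.s x y) : Q.card ≤ N0 ^ j := by
  classical
  obtain ⟨Qs, hcard, hQs, hc⟩ := hcov.iter j ρ Q hρ hQ
  have hsub : Q ⊆ Qs.biUnion id := by
    intro x hx
    obtain ⟨Q', hQ', hxQ'⟩ := hc x hx
    exact Finset.mem_biUnion.mpr ⟨Q', hQ', hxQ'⟩
  calc Q.card ≤ (Qs.biUnion id).card := Finset.card_le_card hsub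
    _ ≤ Qs.card * 1 := by
        apply Finset.card_biUnion_le_card_mul
        intro Q' hQ'
        rw [id, Finset.card_le_one]
        intro a ha b hb
        by_contra hab
        have h1 := hsep a ((hQs Q' hQ').1 ha) b ((hQs Q' hQ').1 hb) hab
        have h2 := ((hQs Q' hQ').2 a ha b hb).2
        linarith
    _ = Qs.card := mul_one _
    _ ≤ N0 ^ j := hcard

end Pool.Agent.Helper8.KS
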