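import Mathlib
import Pool.Agent.Helper23.KS.Komlos

set_option autoImplicit false

open MeasureTheory

namespace Pool.Agent.Helper8.KS

open Pool.Agent.Helper23.KS

section finite

variable {W : Type*} [Fintype W] (k : ℕ)

/-- The skew form on functions on `W × Fin k`. -/
noncomputable def BW : EuclideanSpace ℝ (W × Fin k) →ₗ[ℝ] EuclideanSpace ℝ (W × Fin k) →ₗ[ℝ] ℝ :=
  LinearMap.mk₂ ℝ (fun u v => ∑ w : W, ∑ a : Fin k, ∑ b : Fin k, sg a b * u (w, a) * v (w, b))
    (by
      intro u u' v
      simp only [← Finset.sum_add_distrib]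
      refine Finset.sum_congr rfl fun w _ => Finset.sum_congr rfl fun a _ =>
        Finset.sum_congr rfl fun b _ => ?_
      simp only [PiLp.add_apply]; ring)
    (by
      intro c u v
      simp only [smul_eq_mul, Finset.mul_sum]
      refine Finset.sum_congr rfl fun w _ => Finset.sum_congr rfl fun a _ =>
        Finset.sum_congr rfl fun b _ => ?_
      simp only [PiLp.smul_apply, smul_eq_mul]; ring)
    (by
      intro u v v'
      simp only [← Finset.sum_add_distrib]
      refine Finset.sum_congr rfl fun w _ => Finset.sum_congr rfl fun a _ =>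
        Finset.sum_congr rfl fun b _ => ?_
      simp only [PiLp.add_apply]; ring)
    (by
      intro c u v
      simp only [smul_eq_mul, Finset.mul_sum]
      refine Finset.sum_congr rfl fun w _ => Finset.sum_congr rfl fun a _ =>
        Finset.sum_congr rfl fun b _ => ?_
      simp only [PiLp.smul_apply, smul_eq_mul]; ring)

theorem BW_apply (u v : EuclideanSpace ℝ (W × Fin k)) :
    BW k u v = ∑ w : W, ∑ a : Fin k, ∑ b : Fin k, sg a b * u (w, a) * v (w, b) := rfl

theorem BW_self (u : EuclideanSpace ℝ (W × Fin k)) : BW k u u = 0 := by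
  have h : BW k u u = - BW k u u := by
    conv_lhs => rw [BW_apply]
    rw [BW_apply, ← Finset.sum_neg_distrib]
    refine Finset.sum_congr rfl fun w _ => ?_
    conv_lhs => rw [Finset.sum_comm]
    rw [← Finset.sum_neg_distrib]
    refine Finset.sum_congr rfl fun a _ => ?_
    rw [← Finset.sum_neg_distrib]
    refine Finset.sum_congr rfl fun b _ => ?_
    have h1 := sg_neg (a : ℕ) b
    rw [h1]; ring
  linarith

theorem BW_le (u v : EuclideanSpace ℝ (W × Fin k)) :
    |BW k u v| ≤ (k : ℝ) * ‖u‖ * ‖v‖ := by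
  have h1 : (BW k u v) ^ 2 ≤ (k * ‖u‖ ^ 2) * (k * ‖v‖ ^ 2) := by
    have e1 : BW k u v = ∑ x : W × Fin k × Fin k,
        (sg x.2.1 x.2.2 * u (x.1, x.2.1)) * v (x.1, x.2.2) := by
      rw [BW_apply, Fintype.sum_prod_type]
      refine Finset.sum_congr rfl fun w _ => ?_
      rw [Fintype.sum_prod_type]
    rw [e1]
    refine le_trans (Finset.sum_mul_sq_le_sq_mul_sq _ _ _) ?_
    have e2 : ∑ x : W × Fin k × Fin k, (sg x.2.1 x.2.2 * u (x.1, x.2.1)) ^ 2 ≤ k * ‖u‖ ^ 2 := by
      rw [EuclideanSpace.norm_sq_eq, Finset.mul_sum, Fintype.sum_prod_type, Fintype.sum_prod_type]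
      refine Finset.sum_le_sum fun w _ => ?_
      rw [Fintype.sum_prod_type]
      refine Finset.sum_le_sum fun a _ => ?_
      have : ∀ b : Fin k, (sg a b * u (w, a)) ^ 2 ≤ ‖u (w, a)‖ ^ 2 := by
        intro b
        rw [mul_pow, Real.norm_eq_abs, sq_abs]
        have := sg_sq_le a b
        nlinarith [sq_nonneg (u (w, a))]
      calc ∑ b : Fin k, (sg a b * u (w, a)) ^ 2 ≤ ∑ _b : Fin k, ‖u (w, a)‖ ^ 2 :=
            Finset.sum_le_sum fun b _ => this b
        _ = k * ‖u (w, a)‖ ^ 2 := by simp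
    have e3 : ∑ x : W × Fin k × Fin k, (v (x.1, x.2.2)) ^ 2 ≤ k * ‖v‖ ^ 2 := by
      rw [EuclideanSpace.norm_sq_eq, Finset.mul_sum, Fintype.sum_prod_type, Fintype.sum_prod_type]
      refine Finset.sum_le_sum fun w _ => ?_
      rw [Fintype.sum_prod_type]
      simp only
      rw [← Finset.mul_sum, Finset.sum_const, Finset.card_univ, Fintype.card_fin, nsmul_eq_mul]
      refine le_of_eq ?_
      congr 1
      refine Finset.sum_congr rfl fun b _ => ?_
      rw [Real.norm_eq_abs, sq_abs]
    have h0 : 0 ≤ ∑ x : W × Fin k × Fin k, (v (x.1, x.2.2)) ^ 2 :=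
      Finset.sum_nonneg fun _ _ => sq_nonneg _
    have h0' : (0 : ℝ) ≤ k * ‖u‖ ^ 2 := by positivity
    exact mul_le_mul e2 e3 h0 h0'
  have h2 : (k * ‖u‖ ^ 2) * (k * ‖v‖ ^ 2) = ((k : ℝ) * ‖u‖ * ‖v‖) ^ 2 := by ring
  rw [h2] at h1
  exact abs_le_of_sq_le_sq h1 (by positivity)

/-- The vector of a function with weights. -/
noncomputable def vW (p : W → ℝ) (X : W → Fin k) : EuclideanSpace ℝ (W × Fin k) :=
  WithLp.toLp 2 (fun x => (if X x.1 = x.2 then (1 : ℝ) else 0) * Real.sqrt (p x.1))

omit [Fintype W] in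
theorem vW_apply (p : W → ℝ) (X : W → Fin k) (x : W × Fin k) :
    vW k p X x = (if X x.1 = x.2 then (1 : ℝ) else 0) * Real.sqrt (p x.1) := rfl

theorem norm_vW_le (p : W → ℝ) (hp : ∀ w, 0 ≤ p w) (hs : ∑ w, p w ≤ 1) (X : W → Fin k) :
    ‖vW k p X‖ ≤ 1 := by
  have h : ‖vW k p X‖ ^ 2 ≤ 1 := by
    rw [EuclideanSpace.norm_sq_eq, Fintype.sum_prod_type]
    refine le_trans (le_of_eq ?_) hs
    refine Finset.sum_congr rfl fun w _ => ?_
    rw [Finset.sum_eq_single (X w)]
    · rw [vW_apply, Real.norm_eq_abs, sq_abs, if_pos rfl, one_mul, Real.sq_sqrt (hp w)]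
    · intro b _ hb
      rw [vW_apply, if_neg (fun hh => hb hh.symm)]
      simp
    · intro hh; exact absurd (Finset.mem_univ _) hh
  have h0 := norm_nonneg (vW k p X)
  nlinarith

theorem BW_vW (p : W → ℝ) (hp : ∀ w, 0 ≤ p w) (X Y : W → Fin k) :
    BW k (vW k p X) (vW k p Y) =
      ∑ w, ((if X w < Y w then p w else 0) - (if Y w < X w then p w else 0)) := by
  rw [BW_apply]
  refine Finset.sum_congr rfl fun w _ => ?_
  rw [Finset.sum_eq_single (X w)]
  · rw [Finset.sum_eq_single (Y w)]
    · rw [vW_apply, vW_apply, if_pos rfl, if_pos rfl]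
      have h1 : Real.sqrt (p w) * Real.sqrt (p w) = p w := Real.mul_self_sqrt (hp w)
      simp only [one_mul]
      rw [mul_assoc, h1]
      unfold sg
      simp only [Fin.lt_def]
      split_ifs <;> first | omega | ring
    · intro b _ hb
      rw [vW_apply k p Y, if_neg (fun hh => hb hh.symm)]
      ring
    · intro hh; exact absurd (Finset.mem_univ _) hh
  · intro a _ ha
    refine Finset.sum_eq_zero fun b _ => ?_
    rw [vW_apply k p X, if_neg (fun hh => ha hh.symm)]
    ring
  · intro hh; exact absurd (Finset.mem_univ _) hh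

end finite

/-- (3.1) Komlos' strange pigeonhole principle. -/
theorem komlos (k : ℕ) (β : ℝ) (hβ : 0 < β) : ∃ M0 : ℕ, ∀ {Ω : Type} [MeasurableSpace Ω]
    (μ : Measure Ω) [IsProbabilityMeasure μ] (M : ℕ) (X : Fin M → Ω → Fin k),
    (∀ i, Measurable (X i)) →
    (∀ i j, i ≠ j → β ≤ |μ.real {ω | X i ω < X j ω} - μ.real {ω | X j ω < X i ω}|) →
    M < M0 := by
  classical
  obtain ⟨L, hL⟩ := exists_nat_gt (4 * ((k : ℝ) + 1) ^ 2 / β ^ 2)
  refine ⟨2 ^ (2 ^ L), ?_⟩
  intro Ω _ μ _ M X hX h
  by_contra hcon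
  push Not at hcon
  -- the joint law
  have hXm : Measurable (fun ω i => X i ω) := measurable_pi_lambda _ hX
  set ν : Measure (Fin M → Fin k) := μ.map (fun ω i => X i ω) with hν
  have hνp : IsProbabilityMeasure ν := Measure.isProbabilityMeasure_map hXm.aemeasurable
  set p : (Fin M → Fin k) → ℝ := fun w => ν.real {w} with hp
  have hp0 : ∀ w, 0 ≤ p w := fun w => measureReal_nonneg
  have hmeas : ∀ s : Set (Fin M → Fin k), MeasurableSet s := fun s => s.toFinite.measurableSet
  have hset : ∀ s : Set (Fin M → Fin k), ν.real s = ∑ w, (if w ∈ s then p w else 0) := by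
    intro s
    have h1 : s = ⋃ w ∈ (Finset.univ.filter (fun w => w ∈ s)), {w} := by
      ext w; simp
    conv_lhs => rw [h1]
    rw [measureReal_biUnion_finset]
    · rw [Finset.sum_filter]
    · intro a _ b _ hab
      simp [Function.onFun, hab]
    · intro b _; exact hmeas _
  have hsum : ∑ w, p w ≤ 1 := by
    have := hset Set.univ
    simp only [Set.mem_univ, if_true] at this
    rw [← this]
    exact measureReal_le_one
  have hpr : ∀ i j, μ.real {ω | X i ω < X j ω} =
      ∑ w : Fin M → Fin k, (if w i < w j then p w else 0) := by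
    intro i j
    have h1 := hset {w | w i < w j}
    rw [hν, map_measureReal_apply hXm (hmeas _)] at h1
    refine h1.trans (Finset.sum_congr rfl fun w _ => ?_)
    by_cases hw : w i < w j <;> simp [hw]
  obtain ⟨l, hl, hlS, hlR⟩ := exists_transitive_list
    (fun i j : Fin M => β ≤ μ.real {ω | X i ω < X j ω} - μ.real {ω | X j ω < X i ω})
    (2 ^ L) Finset.univ (by simpa using hcon) (by
      intro i _ j _ hij
      rcases le_abs.1 (h i j hij) with h1 | h1
      · exact Or.inl h1
      · right; simpa using h1)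
  set v : ℕ → EuclideanSpace ℝ ((Fin M → Fin k) × Fin k) :=
    fun a => if ha : a < l.length then vW k p (fun w => w (l[a])) else 0 with hv
  refine no_long_transitive (BW k) ((k : ℝ) + 1) β (by positivity) hβ ?_ (BW_self k) v
    ?_ L hL ?_
  · intro a b
    refine (BW_le k a b).trans ?_
    have h1 := norm_nonneg a
    have h2 := norm_nonneg b
    have h3 := mul_nonneg h1 h2
    nlinarith
  · intro i
    simp only [hv]
    split_ifs
    · exact norm_vW_le k p hp0 hsum _
    · simp
  · intro i j hij hj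
    rw [← hl] at hj
    have hi : i < l.length := lt_trans hij hj
    simp only [hv, dif_pos hi, dif_pos hj]
    rw [BW_vW k p hp0, Finset.sum_sub_distrib, ← hpr, ← hpr]
    exact List.pairwise_iff_getElem.1 hlR i j hi hj hij

end Pool.Agent.Helper8.KS
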