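import Pool.Agent.Helper8.KS.Basic
import Pool.Agent.Helper8.KS.Komlos
import Pool.Agent.Helper8.KS.DoublingCov

set_option autoImplicit false

open MeasureTheory Pool.Agent.Helper1.Balance

namespace Pool.Agent.Helper8.KS

/-- Clamped cell index of a real number. -/
noncomputable def cellIx (k : ℕ) (hk : 0 < k) (z : ℝ) : Fin k :=
  ⟨min ⌊z⌋₊ (k - 1), lt_of_le_of_lt (min_le_right _ _) (Nat.sub_lt hk one_pos)⟩

theorem measurable_cellIx (k : ℕ) (hk : 0 < k) : Measurable (cellIx k hk) := by
  have h : cellIx k hk = (fun m : ℕ => (⟨min m (k - 1),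
      lt_of_le_of_lt (min_le_right _ _) (Nat.sub_lt hk one_pos)⟩ : Fin k)) ∘ (fun z : ℝ => ⌊z⌋₊) := by
    funext z; rfl
  rw [h]
  exact (measurable_of_countable _).comp Nat.measurable_floor

theorem cellIx_mono (k : ℕ) (hk : 0 < k) : Monotone (cellIx k hk) := by
  intro a b hab
  rw [Fin.le_def]
  exact min_le_min (Nat.floor_mono hab) le_rfl

theorem cellIx_eq (k : ℕ) (hk : 0 < k) (a b : ℝ) (ha0 : 0 ≤ a) (hak : a < k) (hb0 : 0 ≤ b)
    (hbk : b < k) (h : cellIx k hk a = cellIx k hk b) : |a - b| < 1 := by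
  have hfa : ⌊a⌋₊ ≤ k - 1 := by
    have := (Nat.floor_lt ha0).2 hak
    omega
  have hfb : ⌊b⌋₊ ≤ k - 1 := by
    have := (Nat.floor_lt hb0).2 hbk
    omega
  have h1 : ⌊a⌋₊ = ⌊b⌋₊ := by
    have := congrArg Fin.val h
    simp only [cellIx, min_eq_left hfa, min_eq_left hfb] at this
    exact this
  have h2 := Nat.floor_le ha0
  have h3 := Nat.floor_le hb0
  have h4 := Nat.lt_floor_add_one a
  have h5 := Nat.lt_floor_add_one b
  rw [h1] at h2 h4
  rw [abs_lt]
  constructor <;> linarith

/-- (4.1) -/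
theorem komlos_bound (ε : ℝ) (hε : 0 < ε) : ∃ K : ℕ, ∀ {n : ℕ} {r : Fin n → Fin n → Prop}
    {top : Fin n} (M : Model r top), Unb ε r → ∀ (S : ℝ) (X : Finset (Fin n)), 0 < S →
    (∀ x ∈ X, ∀ y ∈ X, x ≠ y → S ≤ M.s x y ∧ M.s x y ≤ 4 * S ∧ |ht r x - ht r y| ≤ 2 * S) →
    X.card ≤ K := by
  classical
  obtain ⟨C, hC1, hC⟩ := small_ball
  -- tail parameter
  obtain ⟨q, hq⟩ := exists_pow_lt_of_lt_one (show (0 : ℝ) < ε / 32 by positivity)
    (show (1 : ℝ) / 3 < 1 by norm_num)
  set u0 : ℝ := 4 * q with hu0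
  have hu0n : 0 ≤ u0 := by positivity
  have htail : 4 * (3 : ℝ) ^ (-u0 / 4) ≤ ε / 8 := by
    have e1 : -u0 / 4 = -(q : ℝ) := by rw [hu0]; ring
    rw [e1, Real.rpow_neg (by norm_num), Real.rpow_natCast]
    rw [one_div, inv_pow] at hq
    linarith
  set Lam : ℝ := 4 * u0 + 2 with hLam
  have hLam0 : 0 < Lam := by positivity
  set θ : ℝ := ε / (8 * C) with hθ
  have hθ0 : 0 < θ := by positivity
  obtain ⟨k, hk⟩ := exists_nat_gt (2 * Lam / θ)
  have hk0 : 0 < k := by
    have : (0 : ℝ) < k := lt_trans (by positivity) hk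
    exact_mod_cast this
  obtain ⟨M0, hM0⟩ := komlos k ε hε
  refine ⟨M0, ?_⟩
  intro n r top M hU S X hS hX
  rcases X.eq_empty_or_nonempty with h0 | ⟨x1, hx1⟩
  · simp [h0]
  -- the cell index
  set zz : Fin n → (Fin n → ℝ) → ℝ := fun x t => (t x - t x1 + Lam * S) / (θ * S) with hzz
  set XX : Fin n → (Fin n → ℝ) → Fin k := fun x t => cellIx k hk0 (zz x t) with hXX
  have hθS : 0 < θ * S := by positivity
  have hzmeas : ∀ x, Measurable (zz x) := by
    intro x
    exact (((measurable_pi_apply x).sub (measurable_pi_apply x1)).add_const _).div_const _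
  have hmeas : ∀ x, Measurable (XX x) := fun x => (measurable_cellIx k hk0).comp (hzmeas x)
  have hmono : ∀ x y (t : Fin n → ℝ), t x ≤ t y → XX x t ≤ XX y t := by
    intro x y t hxy
    refine cellIx_mono k hk0 ?_
    show (t x - t x1 + Lam * S) / (θ * S) ≤ (t y - t x1 + Lam * S) / (θ * S)
    exact div_le_div_of_nonneg_right (by linarith) hθS.le
  -- tails
  have hout : ∀ x ∈ X, M.μ.real {t | Lam * S ≤ |t x - t x1|} ≤ ε / 8 := by
    intro x hx
    have hs4 : M.s x x1 ≤ 4 * S := by
      by_cases hxx : x = x1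
      · rw [hxx, M.s_self]; positivity
      · exact (hX x hx x1 hx1 hxx).2.1
    have hh : |ht r x - ht r x1| ≤ 2 * S := by
      by_cases hxx : x = x1
      · rw [hxx, sub_self, abs_zero]; positivity
      · exact (hX x hx x1 hx1 hxx).2.2
    refine le_trans (measureReal_mono ?_) ((M.tail x x1 (4 * S) (by positivity) hs4 u0 hu0n).trans
      htail)
    intro t ht'
    simp only [Set.mem_setOf_eq] at ht' ⊢
    unfold Model.cd
    have h1 := abs_sub_abs_le_abs_sub (t x - t x1) (ht r x - ht r x1)
    have h2 : Lam * S = u0 * (4 * S) + 2 * S := by rw [hLam]; ring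
    linarith
  -- equal cells
  have heq : ∀ x ∈ X, ∀ y ∈ X, x ≠ y → M.μ.real {t | XX x t = XX y t} ≤ ε / 2 := by
    intro x hx y hy hxy
    have hsb := hC M x y hxy (-(θ * S)) (2 * (θ * S)) (by positivity)
    have hsS := (hX x hx y hy hxy).1
    have hsb2 : M.μ.real {t | -(θ * S) ≤ t x - t y ∧ t x - t y ≤ -(θ * S) + 2 * (θ * S)} ≤
        ε / 4 := by
      refine hsb.trans ?_
      rw [div_le_iff₀ (lt_of_lt_of_le hS hsS)]
      have e1 : C * (2 * (θ * S)) = ε / 4 * S := by
        rw [hθ]; field_simp; ring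
      rw [e1]
      exact mul_le_mul_of_nonneg_left hsS (by positivity)
    have hsub : {t : Fin n → ℝ | XX x t = XX y t} ⊆
        ({t | -(θ * S) ≤ t x - t y ∧ t x - t y ≤ -(θ * S) + 2 * (θ * S)} ∪
          {t | Lam * S ≤ |t x - t x1|}) ∪ {t | Lam * S ≤ |t y - t x1|} := by
      intro t ht'
      by_contra hcon
      simp only [Set.mem_union, Set.mem_setOf_eq, not_or, not_le, not_and] at hcon ht'
      obtain ⟨⟨h1, h2⟩, h3⟩ := hcon
      have hrange : ∀ z : Fin n, |t z - t x1| < Lam * S → 0 ≤ zz z t ∧ zz z t < k := by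
        intro z hz
        rw [abs_lt] at hz
        constructor
        · exact div_nonneg (by linarith [hz.1]) hθS.le
        · refine lt_of_le_of_lt ?_ hk
          show (t z - t x1 + Lam * S) / (θ * S) ≤ 2 * Lam / θ
          rw [div_le_div_iff₀ hθS hθ0]
          have : (t z - t x1 + Lam * S) * θ ≤ (Lam * S + Lam * S) * θ :=
            mul_le_mul_of_nonneg_right (by linarith [hz.2]) hθ0.le
          linarith
      have hx' := hrange x h2
      have hy' := hrange y h3
      have h4 := cellIx_eq k hk0 _ _ hx'.1 hx'.2 hy'.1 hy'.2 ht'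
      have h5 : zz x t - zz y t = (t x - t y) / (θ * S) := by
        show (t x - t x1 + Lam * S) / (θ * S) - (t y - t x1 + Lam * S) / (θ * S) = _
        rw [← sub_div]; congr 1; ring
      rw [h5, abs_div, abs_of_pos hθS, div_lt_one hθS, abs_lt] at h4
      have := h1 h4.1.le
      linarith [h4.2]
    refine (measureReal_mono hsub).trans ?_
    refine (measureReal_union_le _ _).trans ?_
    have := measureReal_union_le (μ := M.μ)
      {t : Fin n → ℝ | -(θ * S) ≤ t x - t y ∧ t x - t y ≤ -(θ * S) + 2 * (θ * S)}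
      {t | Lam * S ≤ |t x - t x1|}
    have := hout x hx
    have := hout y hy
    linarith
  -- comparison
  have hms : ∀ x y : Fin n, MeasurableSet {t : Fin n → ℝ | t x < t y} := fun x y =>
    measurableSet_lt (measurable_pi_apply x) (measurable_pi_apply y)
  have hcmp : ∀ x ∈ X, ∀ y ∈ X, x ≠ y → ε ≤
      |M.μ.real {t | XX x t < XX y t} - M.μ.real {t | XX y t < XX x t}| := by
    intro x hx y hy hxy
    have hsum : M.μ.real {t | t x < t y} + M.μ.real {t | t y < t x} = 1 := by
      have h1 := measureReal_add_measureReal_compl (μ := M.μ) (hms x y)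
      rw [probReal_univ] at h1
      have h2 : M.μ.real {t : Fin n → ℝ | t x < t y}ᶜ = M.μ.real {t | t y < t x} := by
        refine measureReal_congr ?_
        have h0 : ∀ᵐ t ∂M.μ, t x - t y ≠ 0 := by
          have := M.noatom x y hxy 0
          exact compl_mem_ae_iff.2 this
        filter_upwards [h0] with t ht'
        refine propext ?_
        show ¬ (t x < t y) ↔ t y < t x
        constructor
        · intro h
          exact lt_of_le_of_ne (not_lt.1 h) (fun h' => ht' (by rw [h']; ring))
        · intro h; exact not_lt.2 h.le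
      rw [h2] at h1
      exact h1
    have hunb := hU x y hxy
    rw [← M.prob_lt x y hxy] at hunb
    have key : ∀ a b : Fin n, M.μ.real {t | XX a t < XX b t} ≤ M.μ.real {t | t a < t b} := by
      intro a b
      refine measureReal_mono ?_
      intro t ht'
      by_contra hcon
      have := hmono b a t (not_lt.1 hcon)
      exact absurd ht' (not_lt.2 this)
    have key2 : ∀ a b : Fin n, M.μ.real {t | t a < t b} ≤
        M.μ.real {t | XX a t < XX b t} + M.μ.real {t | XX a t = XX b t} := by
      intro a b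
      refine le_trans (measureReal_mono ?_) (measureReal_union_le _ _)
      intro t ht'
      rcases lt_or_eq_of_le (hmono a b t (le_of_lt ht')) with h | h
      · exact Or.inl h
      · exact Or.inr h
    have k1 := key x y
    have k2 := key y x
    have k3 := key2 x y
    have k4 := key2 y x
    have k5 := heq x hx y hy hxy
    have k6 := heq y hy x hx (Ne.symm hxy)
    rcases le_abs.1 hunb with h | h
    · refine le_trans ?_ (le_abs_self _)
      linarith
    · rw [abs_sub_comm]
      refine le_trans ?_ (le_abs_self _)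
      linarith
  -- apply Komlos
  have hfin := hM0 M.μ X.card (fun i => XX (X.equivFin.symm i)) (fun i => hmeas _) (by
    intro i j hij
    refine hcmp _ (X.equivFin.symm i).2 _ (X.equivFin.symm j).2 ?_
    intro h
    exact hij (X.equivFin.symm.injective (Subtype.ext h)))
  exact hfin.le

/-- (4.2) -/
theorem cov_exists (ε : ℝ) (hε : 0 < ε) : ∃ N0 : ℕ, 1 ≤ N0 ∧ ∀ {n : ℕ}
    {r : Fin n → Fin n → Prop} {top : Fin n} (M : Model r top), Unb ε r → M.Cov N0 := by
  obtain ⟨K, hK⟩ := komlos_bound ε hε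
  exact ⟨2 * (K + 1), by omega, fun M hU => M.cov_of_packing (K + 1)
    (fun S hS X hX => (hK M hU S X hS hX).trans (Nat.le_succ K))⟩

end Pool.Agent.Helper8.KS
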