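import Pool.Agent.Helper8.KS.Defs
import Pool.Agent.Helper11.KS.Chain

set_option autoImplicit false

open MeasureTheory Pool.Agent.Helper1.Balance

namespace Pool.Agent.Helper8.KS

/-- Section 0: chains of length `N` below and above. -/
theorem extension {n : ℕ} (r : Fin n → Fin n → Prop) (hr : IsPoset r) (N : ℕ) (hN : 1 ≤ N) :
    ∃ (r' : Fin (N + n + N) → Fin (N + n + N) → Prop) (top : Fin (N + n + N))
      (i : Fin n → Fin (N + n + N)), IsPoset r' ∧ (∀ x, r' x top) ∧ Function.Injective i ∧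
      (∀ x y, x ≠ y → prob r' (i x) (i y) = prob r x y) ∧
      (∀ x, ht r' (i x) = ht r x + N) ∧ (∀ x, vr r' (i x) = vr r x) ∧
      (∀ z, (∀ x, z ≠ i x) → vr r' z = 0) ∧
      (∀ ε : ℝ, ε ≤ 1 / 2 → Unb ε r → Unb ε r') := by
  open Pool.Agent.Helper11.Chain in
  refine ⟨ext N r, extTop N n hN, emb N, ext_isPoset N r hr, ext_top N hN r, emb_injective N,
    fun x y _ => prob_ext N r x y, fun x => ht_ext N r hr x, fun x => vr_ext N r hr x, ?_,
    fun ε hε h => unb_ext N r hr hε h⟩
  intro z hz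
  refine Pool.Agent.Helper11.Chain.vr_chain N r hr z ?_
  by_contra hcon
  obtain ⟨x, hx⟩ := Pool.Agent.Helper11.Chain.exists_emb N z (by omega) (by omega)
  exact hz x hx.symm

end Pool.Agent.Helper8.KS
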