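import Pool.Agent.Helper8.KS.Chaining
import Pool.Agent.Helper1.KS.Blk

set_option autoImplicit false

open MeasureTheory Pool.Agent.Helper1.Balance

namespace Pool.Agent.Helper8.KS

/-- the inputs of the block lemma -/
theorem exists_inp (N0 : ℕ) (h1 : 1 ≤ N0) : ∃ C5 : ℝ, 0 < C5 ∧
    ∀ {n : ℕ} {r : Fin n → Fin n → Prop} {top : Fin n} (M : Model r top), M.Cov N0 →
    Pool.Agent.Helper1.KSB.Inp M N0 C5 := by
  obtain ⟨C, hC, hsm⟩ := small_rel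
  refine ⟨C, by linarith, fun {n r top} M hcov => ?_⟩
  exact
    { N0_pos := h1
      C5_pos := by linarith
      cov := hcov
      small := fun x y hxy hne w hw => hsm M x y hxy hne w hw
      chain := fun ρ Q hρ hQ x0 hx0 u hu => chaining M N0 h1 hcov ρ hρ Q hQ x0 hx0 u hu }

/-- (6.1) -/
theorem family_good (N0 : ℕ) (h1 : 1 ≤ N0) : ∃ a0 : ℝ, 0 < a0 ∧ ∃ η : ℝ, 0 < η ∧
    ∀ {n : ℕ} {r : Fin n → Fin n → Prop} {top : Fin n} (M : Model r top), M.Cov N0 →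
    ∀ (ρ g : ℝ) (Q1 Q2 : Finset (Fin n)) (F : Finset (Fin n × Fin n)), 0 < ρ → 0 < g →
    ρ ≤ η * g → M.IsPiece Q1 ρ → M.IsPiece Q2 ρ →
    (∀ p ∈ F, p.1 ∈ Q1 ∧ p.2 ∈ Q2 ∧ r p.1 p.2 ∧ g ≤ ht r p.2 - ht r p.1) →
    1 / 2 ≤ M.μ.real (M.SS F (a0 * g)) := by
  obtain ⟨C5, hC5, hI⟩ := exists_inp N0 h1
  refine ⟨Pool.Agent.Helper1.KSB.a0 C5, Pool.Agent.Helper1.KSB.a0_pos hC5,
    Pool.Agent.Helper1.KSB.eta0 N0 C5, Pool.Agent.Helper1.KSB.eta0_pos h1 hC5, ?_⟩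
  intro n r top M hcov ρ g Q1 Q2 F hρ hg hρg hQ1 hQ2 hF
  refine Pool.Agent.Helper1.KSB.SS_pieces (hI M hcov) hρ hg hQ1 hQ2 F ?_ hρg
  intro p hp
  obtain ⟨e1, e2, e3, e4⟩ := hF p hp
  refine ⟨e1, e2, e3, ?_, e4⟩
  intro hc
  rw [hc, sub_self] at e4
  linarith

variable {n : ℕ} {r : Fin n → Fin n → Prop} {top : Fin n}

theorem measurableSet_SS (M : Model r top) (F : Finset (Fin n × Fin n)) (lam : ℝ) :
    MeasurableSet (M.SS F lam) := Pool.Agent.Helper1.KSB.measurable_SS M F lam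

theorem SS_anti (M : Model r top) {F F' : Finset (Fin n × Fin n)} {lam lam' : ℝ}
    (hF : F ⊆ F') (hl : lam ≤ lam') : M.SS F' lam' ⊆ M.SS F lam := by
  rintro t ⟨h1, h2⟩
  exact ⟨h1, fun p hp => hl.trans (h2 p (hF hp))⟩

/-- (6.2) -/
theorem SS_union (M : Model r top) (F F' : Finset (Fin n × Fin n)) (lam : ℝ) (_hlam : 0 ≤ lam)
    (hF : ∀ p ∈ F, r p.1 p.2) (hF' : ∀ p ∈ F', r p.1 p.2)
    (h : 1 / 2 ≤ M.μ.real (M.SS F lam)) (h' : 1 / 2 ≤ M.μ.real (M.SS F' lam)) :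
    1 / 2 ≤ M.μ.real (M.SS (F ∪ F') (lam / 2)) :=
  Pool.Agent.Helper1.KSB.SS_union M hF hF' h h'

/-- (6.3) -/
theorem SS_biUnion (M : Model r top) (m : ℕ) (Fs : Finset (Finset (Fin n × Fin n)))
    (lam : ℝ) (_hlam : 0 ≤ lam) (hcard : Fs.card ≤ 2 ^ m)
    (hF : ∀ F ∈ Fs, ∀ p ∈ F, r p.1 p.2) (h : ∀ F ∈ Fs, 1 / 2 ≤ M.μ.real (M.SS F lam)) :
    1 / 2 ≤ M.μ.real (M.SS (Fs.biUnion id) (lam / 2 ^ m)) :=
  Pool.Agent.Helper1.KSB.SS_biUnion M id m Fs lam hF hcard h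

end Pool.Agent.Helper8.KS
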