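import Pool.Agent.Helper8.KS.Defs
import Pool.Agent.Helper8.KS.PL
import Pool.Agent.Helper73.KM.Model

set_option autoImplicit false

open MeasureTheory Pool.Agent.Helper1.Balance

namespace Pool.Agent.Helper8.KS

variable {n : ℕ}

/-- Section 1: the order-polytope model (`μ` = law of `(n+1) u`, `u` uniform in the order
polytope of `r`) satisfies the interface. -/
theorem exists_model (r : Fin n → Fin n → Prop) (top : Fin n) (hr : IsPoset r)
    (htop : ∀ x, r x top) : Nonempty (Model r top) :=
  Pool.Agent.Helper73.KM.exists_model r top hr htop

end Pool.Agent.Helper8.KS
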