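import Pool.Agent.Helper8.KS.Cross

set_option autoImplicit false

open MeasureTheory Pool.Agent.Helper1.Balance

namespace Pool.Agent.Helper8.KS

namespace NearAux

variable {n : ℕ} {r : Fin n → Fin n → Prop} {top : Fin n}

lemma integrable_cd (M : Model r top) (x y : Fin n) : Integrable (M.cd x y) M.μ :=
  memLp_one_iff_integrable.1 (M.memLp_cd x y 1)

lemma integrable_diff (M : Model r top) (x y : Fin n) :
    Integrable (fun t : Fin n → ℝ => t x - t y) M.μ := by
  have h := (integrable_cd M x y).add (integrable_const (ht r x - ht r y))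
  refine h.congr (Filter.Eventually.of_forall (fun t => ?_))
  simp [Model.cd]

lemma integrable_cd_sq (M : Model r top) (x y : Fin n) :
    Integrable (fun t => (M.cd x y t) ^ 2) M.μ :=
  (M.memLp_cd x y 2).integrable_sq

/-- `E |cd| ≤ s`. -/
lemma integral_abs_cd_le (M : Model r top) (x y : Fin n) :
    ∫ t, |M.cd x y t| ∂M.μ ≤ M.s x y := by
  set c := ∫ t, |M.cd x y t| ∂M.μ with hc
  have hint : Integrable (fun t => |M.cd x y t|) M.μ := (integrable_cd M x y).abs
  have h1 : 0 ≤ ∫ t, (|M.cd x y t| - c) ^ 2 ∂M.μ := integral_nonneg (fun t => sq_nonneg _)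
  have h2 : ∫ t, (|M.cd x y t| - c) ^ 2 ∂M.μ = ∫ t, (M.cd x y t) ^ 2 ∂M.μ - c ^ 2 := by
    have e1 : ∀ t, (|M.cd x y t| - c) ^ 2 =
        (M.cd x y t) ^ 2 - (2 * c * |M.cd x y t| - c ^ 2) := by
      intro t
      have := sq_abs (M.cd x y t)
      nlinarith
    simp_rw [e1]
    have e2 : Integrable (fun t => 2 * c * |M.cd x y t|) M.μ := hint.const_mul (2 * c)
    have e3 : Integrable (fun _ : Fin n → ℝ => c ^ 2) M.μ := integrable_const _
    have e4 : Integrable (fun t => 2 * c * |M.cd x y t| - c ^ 2) M.μ := e2.sub e3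
    rw [integral_sub (integrable_cd_sq M x y) e4, integral_sub e2 e3, integral_const_mul, ← hc,
      integral_const]
    simp only [probReal_univ, one_smul]
    ring
  rw [h2] at h1
  have hc0 : 0 ≤ c := integral_nonneg (fun t => abs_nonneg _)
  unfold Model.s
  apply Real.le_sqrt_of_sq_le
  linarith

lemma integral_abs_diff_le (M : Model r top) (x y : Fin n) :
    ∫ t, |t x - t y| ∂M.μ ≤ M.s x y + |ht r x - ht r y| := by
  have h1 : ∫ t, |t x - t y| ∂M.μ ≤ ∫ t, (|M.cd x y t| + |ht r x - ht r y|) ∂M.μ := by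
    apply integral_mono (integrable_diff M x y).abs
      ((integrable_cd M x y).abs.add (integrable_const _))
    intro t
    have : t x - t y = M.cd x y t + (ht r x - ht r y) := by unfold Model.cd; ring
    change |t x - t y| ≤ |M.cd x y t| + |ht r x - ht r y|
    rw [this]
    exact abs_add_le _ _
  rw [integral_add (integrable_cd M x y).abs (integrable_const _), integral_const] at h1
  have := integral_abs_cd_le M x y
  simp only [probReal_univ, one_smul] at h1
  linarith

lemma integral_abs_rel_le (M : Model r top) (z u : Fin n) (h : r z u ∨ r u z) :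
    ∫ t, |t z - t u| ∂M.μ ≤ |ht r z - ht r u| := by
  rcases h with h | h
  · have h1 : ∫ t, |t z - t u| ∂M.μ = ∫ t, (t u - t z) ∂M.μ := by
      apply integral_congr_ae
      filter_upwards [M.ae_le h] with t ht'
      rw [abs_of_nonpos (by linarith)]
      ring
    rw [h1, M.mean, abs_sub_comm]
    exact le_abs_self _
  · have h1 : ∫ t, |t z - t u| ∂M.μ = ∫ t, (t z - t u) ∂M.μ := by
      apply integral_congr_ae
      filter_upwards [M.ae_le h] with t ht'
      rw [abs_of_nonneg (by linarith)]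
    rw [h1, M.mean]
    exact le_abs_self _

/-- expected distance of positions through the chain -/
lemma Ex_abs_le (M : Model r top) (x y z u : Fin n) (δ : ℝ) (h : r z u ∨ r u z)
    (h1 : M.s x z ≤ δ) (h2 : |ht r x - ht r z| ≤ δ) (h3 : M.s y u ≤ δ)
    (h4 : |ht r y - ht r u| ≤ δ) :
    Ex r (fun σ => |pos σ x - pos σ y|) ≤ |ht r x - ht r y| + 6 * δ := by
  rw [← M.absm]
  have e1 : ∫ t, |t x - t y| ∂M.μ ≤
      ∫ t, (|t x - t z| + |t z - t u| + |t y - t u|) ∂M.μ := by
    apply integral_mono (integrable_diff M x y).abs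
      (((integrable_diff M x z).abs.add (integrable_diff M z u).abs).add
        (integrable_diff M y u).abs)
    intro t
    change |t x - t y| ≤ |t x - t z| + |t z - t u| + |t y - t u|
    have : t x - t y = (t x - t z) + (t z - t u) + -(t y - t u) := by ring
    rw [this]
    calc |(t x - t z) + (t z - t u) + -(t y - t u)|
        ≤ |(t x - t z) + (t z - t u)| + |-(t y - t u)| := abs_add_le _ _
      _ ≤ |t x - t z| + |t z - t u| + |t y - t u| := by
          rw [abs_neg]
          linarith [abs_add_le (t x - t z) (t z - t u)]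
  have e2 : ∫ t, (|t x - t z| + |t z - t u| + |t y - t u|) ∂M.μ =
      ∫ t, |t x - t z| ∂M.μ + ∫ t, |t z - t u| ∂M.μ + ∫ t, |t y - t u| ∂M.μ := by
    have i1 : Integrable (fun t : Fin n → ℝ => |t x - t z|) M.μ := (integrable_diff M x z).abs
    have i2 : Integrable (fun t : Fin n → ℝ => |t z - t u|) M.μ := (integrable_diff M z u).abs
    have i3 : Integrable (fun t : Fin n → ℝ => |t y - t u|) M.μ := (integrable_diff M y u).abs
    have i4 : Integrable (fun t : Fin n → ℝ => |t x - t z| + |t z - t u|) M.μ := i1.add i2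
    rw [integral_add i4 i3, integral_add i1 i2]
  have e3 := integral_abs_diff_le M x z
  have e4 := integral_abs_diff_le M y u
  have e5 := integral_abs_rel_le M z u h
  have e6 : |ht r z - ht r u| ≤ |ht r x - ht r y| + 2 * δ := by
    have : ht r z - ht r u = (ht r x - ht r y) + -(ht r x - ht r z) + (ht r y - ht r u) := by ring
    rw [this]
    calc |(ht r x - ht r y) + -(ht r x - ht r z) + (ht r y - ht r u)|
        ≤ |(ht r x - ht r y) + -(ht r x - ht r z)| + |ht r y - ht r u| := abs_add_le _ _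
      _ ≤ |ht r x - ht r y| + |-(ht r x - ht r z)| + |ht r y - ht r u| := by
          linarith [abs_add_le (ht r x - ht r y) (-(ht r x - ht r z))]
      _ ≤ _ := by rw [abs_neg]; linarith
  linarith

lemma Ex_mono' (r : Fin n → Fin n → Prop) {f g : Equiv.Perm (Fin n) → ℝ}
    (h : ∀ σ ∈ LEs r, f σ ≤ g σ) : Ex r f ≤ Ex r g := by
  unfold Ex
  exact div_le_div_of_nonneg_right (Finset.sum_le_sum h) (by positivity)

lemma sqrt_add_le' (a b : ℝ) (ha : 0 ≤ a) (hb : 0 ≤ b) :
    Real.sqrt (a + b) ≤ Real.sqrt a + Real.sqrt b := by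
  apply Real.sqrt_le_iff.2
  refine ⟨by positivity, ?_⟩
  have h1 := Real.sq_sqrt ha
  have h2 := Real.sq_sqrt hb
  have h3 := mul_nonneg (Real.sqrt_nonneg a) (Real.sqrt_nonneg b)
  nlinarith

/-- Dyadic summation of `1 / sqrt d`. -/
lemma sum_inv_sqrt_le {ι : Type*} (S : Finset ι) (d : ι → ℝ) (L c A : ℝ) (hc : 0 < c)
    (hcL : c ≤ L) (hA : 0 ≤ A) (hS : ∀ x ∈ S, c ≤ d x ∧ d x ≤ L)
    (hcount : ∀ w, c ≤ w → w ≤ L → ((S.filter (fun x => d x ≤ w)).card : ℝ) ≤ A * w) :
    ∑ x ∈ S, 1 / Real.sqrt (d x) ≤ 4 * A * Real.sqrt L := by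
  classical
  have hL : 0 < L := hc.trans_le hcL
  have hsL : 0 < Real.sqrt L := Real.sqrt_pos.2 hL
  obtain ⟨J, hJ⟩ : ∃ J : ℕ, L / 4 ^ J < c := by
    obtain ⟨J, hJ⟩ := pow_unbounded_of_one_lt (L / c) (show (1 : ℝ) < 4 by norm_num)
    refine ⟨J, ?_⟩
    rw [div_lt_iff₀ hc] at hJ
    rw [div_lt_iff₀ (by positivity)]
    linarith
  have hJ0 : 0 < J := by
    rcases Nat.eq_zero_or_pos J with h | h
    · subst h; simp at hJ; linarith
    · exact h
  have hpoint : ∀ x ∈ S, 1 / Real.sqrt (d x) ≤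
      2 / Real.sqrt L * ∑ j ∈ Finset.range J, (if d x ≤ L / 4 ^ j then (2 : ℝ) ^ j else 0) := by
    intro x hx
    obtain ⟨h1, h2⟩ := hS x hx
    have hd0 : 0 < d x := hc.trans_le h1
    -- the largest `k < J` with `d x ≤ L / 4 ^ k`
    set T := (Finset.range J).filter (fun j => d x ≤ L / 4 ^ j) with hT
    have hTne : T.Nonempty := ⟨0, by rw [hT, Finset.mem_filter]; exact ⟨by simpa using hJ0, by simpa using h2⟩⟩
    set k := T.max' hTne with hk
    have hkT : k ∈ T := Finset.max'_mem _ _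
    rw [hT, Finset.mem_filter, Finset.mem_range] at hkT
    have hnext : L / 4 ^ (k + 1) < d x := by
      by_contra hcon
      push Not at hcon
      by_cases hk1 : k + 1 < J
      · have : k + 1 ∈ T := by
          rw [hT, Finset.mem_filter, Finset.mem_range]; exact ⟨hk1, hcon⟩
        have := Finset.le_max' T _ this
        omega
      · have : k + 1 = J := by omega
        rw [this] at hcon
        linarith
    have hsq : Real.sqrt L / 2 ^ (k + 1) ≤ Real.sqrt (d x) := by
      apply Real.le_sqrt_of_sq_le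
      rw [div_pow, Real.sq_sqrt hL.le, ← pow_mul, mul_comm (k + 1) 2, pow_mul]
      norm_num
      exact hnext.le
    have hsum : (2 : ℝ) ^ k ≤ ∑ j ∈ Finset.range J, (if d x ≤ L / 4 ^ j then (2 : ℝ) ^ j else 0) := by
      have := Finset.single_le_sum
        (f := fun j => if d x ≤ L / 4 ^ j then (2 : ℝ) ^ j else 0)
        (fun j _ => by split_ifs <;> positivity) (Finset.mem_range.2 hkT.1)
      rwa [if_pos hkT.2] at this
    calc 1 / Real.sqrt (d x) ≤ 1 / (Real.sqrt L / 2 ^ (k + 1)) :=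
          one_div_le_one_div_of_le (by positivity) hsq
      _ = 2 / Real.sqrt L * 2 ^ k := by rw [pow_succ]; field_simp
      _ ≤ _ := mul_le_mul_of_nonneg_left hsum (by positivity)
  calc ∑ x ∈ S, 1 / Real.sqrt (d x)
      ≤ ∑ x ∈ S, 2 / Real.sqrt L * ∑ j ∈ Finset.range J,
          (if d x ≤ L / 4 ^ j then (2 : ℝ) ^ j else 0) := Finset.sum_le_sum hpoint
    _ = 2 / Real.sqrt L * ∑ j ∈ Finset.range J, ∑ x ∈ S,
          (if d x ≤ L / 4 ^ j then (2 : ℝ) ^ j else 0) := by
        rw [← Finset.mul_sum, Finset.sum_comm]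
    _ ≤ 2 / Real.sqrt L * ∑ j ∈ Finset.range J, A * L * (1 / 2) ^ j := by
        apply mul_le_mul_of_nonneg_left _ (by positivity)
        apply Finset.sum_le_sum
        intro j _
        rw [← Finset.sum_filter, Finset.sum_const, nsmul_eq_mul]
        by_cases hj : c ≤ L / 4 ^ j
        · have h3 := hcount (L / 4 ^ j) hj (div_le_self hL.le (one_le_pow₀ (by norm_num)))
          calc ((S.filter (fun x => d x ≤ L / 4 ^ j)).card : ℝ) * 2 ^ j
              ≤ A * (L / 4 ^ j) * 2 ^ j := mul_le_mul_of_nonneg_right h3 (by positivity)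
            _ = A * L * (1 / 2) ^ j := by
                rw [show (4 : ℝ) ^ j = 2 ^ j * 2 ^ j by rw [← mul_pow]; norm_num, one_div,
                  inv_pow]
                field_simp
        · have : S.filter (fun x => d x ≤ L / 4 ^ j) = ∅ := by
            apply Finset.filter_eq_empty_iff.2
            intro x hx hcon
            exact hj ((hS x hx).1.trans hcon)
          rw [this]
          simp only [Finset.card_empty, Nat.cast_zero, zero_mul]
          positivity
    _ ≤ 2 / Real.sqrt L * (A * L * 2) := by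
        apply mul_le_mul_of_nonneg_left _ (by positivity)
        rw [← Finset.mul_sum]
        apply mul_le_mul_of_nonneg_left _ (by positivity)
        have := geom_sum_eq (show (1 / 2 : ℝ) ≠ 1 by norm_num) J
        rw [this]
        have h4 : (0 : ℝ) < (1 / 2) ^ J := by positivity
        rw [div_le_iff_of_neg (by norm_num)]
        linarith
    _ = 4 * A * Real.sqrt L := by
        have : L = Real.sqrt L * Real.sqrt L := (Real.mul_self_sqrt hL.le).symm
        rw [div_mul_eq_mul_div, div_eq_iff hsL.ne']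
        nlinarith [this]

end NearAux

open NearAux

open Classical in
/-- (10.5); `G` is a chain -/
theorem local_count {n : ℕ} {r : Fin n → Fin n → Prop} {top : Fin n} (M : Model r top)
    (y : Fin n) (δ w W : ℝ) (hδ : 0 < δ) (G : Set (Fin n))
    (hG : ∀ a ∈ G, ∀ b ∈ G, r a b ∨ r b a)
    (hclose : ∀ x, |ht r x - ht r y| ≤ W → ∃ z ∈ G, M.s x z ≤ δ ∧ |ht r x - ht r z| ≤ δ)
    (h1 : 1 ≤ w) (h2 : 4 * δ ≤ w) (h3 : w ≤ W) :
    ((Finset.univ.filter (fun x => |ht r x - ht r y| ≤ w)).card : ℝ) ≤ 26 * w := by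
  set S := Finset.univ.filter (fun x => |ht r x - ht r y| ≤ w) with hS
  have hne := LEs_nonempty r M.poset
  have hcard0 : (0 : ℝ) < ((LEs r).card : ℝ) := by exact_mod_cast hne.card_pos
  obtain ⟨u, hu, hu1, hu2⟩ := hclose y (by rw [sub_self, abs_zero]; linarith)
  have hx : ∀ x ∈ S, Ex r (fun σ => |pos σ x - pos σ y|) ≤ 5 / 2 * w := by
    intro x hx
    rw [hS, Finset.mem_filter] at hx
    obtain ⟨z, hz, hz1, hz2⟩ := hclose x (hx.2.trans h3)
    have := Ex_abs_le M x y z u δ (hG z hz u hu) hz1 hz2 hu1 hu2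
    linarith [hx.2]
  -- double counting
  have hw0 : 0 < 6 * w := by linarith
  have key : ∀ σ ∈ LEs r, (S.card : ℝ) - ∑ x ∈ S, |pos σ x - pos σ y| / (6 * w) ≤ 12 * w + 1 := by
    intro σ _
    have h4 := card_pos_near σ y (6 * w) hw0.le
    have h5 : (S.card : ℝ) - ∑ x ∈ S, |pos σ x - pos σ y| / (6 * w) =
        ∑ x ∈ S, (1 - |pos σ x - pos σ y| / (6 * w)) := by
      rw [Finset.sum_sub_distrib, Finset.sum_const, nsmul_eq_mul, mul_one]
    rw [h5]
    calc ∑ x ∈ S, (1 - |pos σ x - pos σ y| / (6 * w))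
        ≤ ∑ x ∈ S, (if |pos σ x - pos σ y| ≤ 6 * w then (1 : ℝ) else 0) := by
          apply Finset.sum_le_sum
          intro x _
          split_ifs with h6
          · have : 0 ≤ |pos σ x - pos σ y| / (6 * w) := by positivity
            linarith
          · push Not at h6
            have : 1 ≤ |pos σ x - pos σ y| / (6 * w) := by
              rw [le_div_iff₀ hw0]; linarith
            linarith
      _ ≤ ∑ x : Fin n, (if |pos σ x - pos σ y| ≤ 6 * w then (1 : ℝ) else 0) := by
          apply Finset.sum_le_sum_of_subset_of_nonneg (Finset.subset_univ _)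
          intro x _ _
          split_ifs <;> norm_num
      _ = ((Finset.univ.filter (fun x => |pos σ x - pos σ y| ≤ 6 * w)).card : ℝ) := by
          rw [Finset.sum_boole]
      _ ≤ 12 * w + 1 := by linarith
  have h7 : Ex r (fun σ => (S.card : ℝ) - ∑ x ∈ S, |pos σ x - pos σ y| / (6 * w)) ≤ 12 * w + 1 := by
    unfold Ex
    rw [div_le_iff₀ hcard0]
    calc ∑ σ ∈ LEs r, ((S.card : ℝ) - ∑ x ∈ S, |pos σ x - pos σ y| / (6 * w))
        ≤ ∑ σ ∈ LEs r, (12 * w + 1) := Finset.sum_le_sum key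
      _ = (12 * w + 1) * ((LEs r).card : ℝ) := by rw [Finset.sum_const, nsmul_eq_mul]; ring
  have h8 : Ex r (fun σ => (S.card : ℝ) - ∑ x ∈ S, |pos σ x - pos σ y| / (6 * w)) =
      (S.card : ℝ) - ∑ x ∈ S, Ex r (fun σ => |pos σ x - pos σ y|) / (6 * w) := by
    unfold Ex
    rw [Finset.sum_sub_distrib, sub_div, Finset.sum_const, nsmul_eq_mul, mul_comm,
      mul_div_assoc, div_self hcard0.ne', mul_one, Finset.sum_comm, Finset.sum_div]
    congr 1
    apply Finset.sum_congr rfl
    intro x _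
    rw [← Finset.sum_div]
    ring
  have h9 : ∑ x ∈ S, Ex r (fun σ => |pos σ x - pos σ y|) / (6 * w) ≤ (S.card : ℝ) * (5 / 12) := by
    calc ∑ x ∈ S, Ex r (fun σ => |pos σ x - pos σ y|) / (6 * w) ≤ ∑ x ∈ S, (5 / 12 : ℝ) := by
          apply Finset.sum_le_sum
          intro x hx'
          rw [div_le_iff₀ hw0]
          linarith [hx x hx']
      _ = (S.card : ℝ) * (5 / 12) := by rw [Finset.sum_const, nsmul_eq_mul]
  rw [h8] at h7
  linarith

/-- crossing probability through the chain, first part of (10.6) -/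
theorem crossP_near : ∃ C : ℝ, 1 ≤ C ∧ ∀ {n : ℕ} {r : Fin n → Fin n → Prop} {top : Fin n}
    (M : Model r top) (x y z w : Fin n) (δ a : ℝ), 0 < δ → 2 ≤ a → (r z w ∨ r w z) →
    M.s x z ≤ δ → |ht r x - ht r z| ≤ δ → M.s y w ≤ δ → |ht r y - ht r w| ≤ δ →
    4 * δ ≤ |ht r x - ht r y| →
    crossP r x y ≤ C * a * δ / |ht r x - ht r y| + 8 * (3 : ℝ) ^ (-(a - 2) / 8) := by
  obtain ⟨C0, hC0, hsmall⟩ := small_rel
  refine ⟨2 * C0, by linarith, ?_⟩
  intro n r top M x y z w δ a hδ ha hrel h1 h2 h3 h4 h5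
  -- symmetric formulation: `ht y < ht x`
  have main : ∀ (x y z w : Fin n), (r z w ∨ r w z) →
      M.s x z ≤ δ → |ht r x - ht r z| ≤ δ → M.s y w ≤ δ → |ht r y - ht r w| ≤ δ →
      4 * δ ≤ ht r x - ht r y →
      prob r x y ≤ 2 * C0 * a * δ / (ht r x - ht r y) + 8 * (3 : ℝ) ^ (-(a - 2) / 8) := by
    intro x y z w hrel h1 h2 h3 h4 h5
    have hxy : x ≠ y := by
      rintro rfl
      linarith
    have hzw : (ht r x - ht r y) / 2 ≤ ht r z - ht r w := by
      have := abs_le.1 h2
      have := abs_le.1 h4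
      linarith
    have hzw0 : 0 < ht r z - ht r w := by linarith
    have hne : w ≠ z := by
      rintro rfl
      linarith
    have hwz : r w z := by
      rcases hrel with h | h
      · have := M.ht_mono h (Ne.symm hne)
        linarith
      · exact h
    rw [← M.prob_lt x y hxy]
    have hsub : {t : Fin n → ℝ | t x < t y} ⊆ ({t | t z - t w ≤ a * δ} ∪
        {t | (a - 2) / 2 * δ ≤ |M.cd x z t|}) ∪ {t | (a - 2) / 2 * δ ≤ |M.cd y w t|} := by
      intro t htxy
      change t x < t y at htxy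
      by_contra hcon
      simp only [Set.mem_union, Set.mem_ofPred_eq, not_or, not_le] at hcon
      obtain ⟨⟨c1, c2⟩, c3⟩ := hcon
      have b1 := abs_lt.1 c2
      have b2 := abs_lt.1 c3
      have b3 := abs_le.1 h2
      have b4 := abs_le.1 h4
      unfold Model.cd at b1 b2
      nlinarith
    have e1 := hsmall M w z hwz hne (a * δ) (by positivity)
    have e2 := M.tail x z δ hδ h1 ((a - 2) / 2) (by linarith)
    have e3 := M.tail y w δ hδ h3 ((a - 2) / 2) (by linarith)
    rw [show -((a - 2) / 2) / 4 = -(a - 2) / 8 by ring] at e2 e3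
    calc M.μ.real {t | t x < t y}
        ≤ M.μ.real (({t | t z - t w ≤ a * δ} ∪
          {t | (a - 2) / 2 * δ ≤ |M.cd x z t|}) ∪ {t | (a - 2) / 2 * δ ≤ |M.cd y w t|}) :=
          measureReal_mono hsub
      _ ≤ (M.μ.real {t | t z - t w ≤ a * δ} + M.μ.real {t | (a - 2) / 2 * δ ≤ |M.cd x z t|})
          + M.μ.real {t | (a - 2) / 2 * δ ≤ |M.cd y w t|} :=
          (measureReal_union_le _ _).trans (by gcongr; exact measureReal_union_le _ _)
      _ ≤ C0 * (a * δ) / (ht r z - ht r w) + 8 * (3 : ℝ) ^ (-(a - 2) / 8) := by linarith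
      _ ≤ _ := by
          have : C0 * (a * δ) / (ht r z - ht r w) ≤ C0 * (a * δ) / ((ht r x - ht r y) / 2) :=
            div_le_div_of_nonneg_left (by positivity) (by linarith) hzw
          have e4 : C0 * (a * δ) / ((ht r x - ht r y) / 2) =
              2 * C0 * a * δ / (ht r x - ht r y) := by
            have : ht r x - ht r y ≠ 0 := by linarith
            field_simp
          linarith
  unfold crossP
  by_cases hlt : ht r x < ht r y
  · simp only [if_pos hlt]
    have e : |ht r x - ht r y| = ht r y - ht r x := by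
      rw [abs_of_neg (by linarith)]; ring
    rw [e] at h5 ⊢
    exact main y x w z (Or.symm hrel) h3 h4 h1 h2 h5
  · simp only [if_neg hlt]
    have e : |ht r x - ht r y| = ht r x - ht r y := abs_of_nonneg (by linarith)
    rw [e] at h5 ⊢
    exact main x y z w hrel h1 h2 h3 h4 h5

open Classical in
/-- (10.6) -/
theorem near_sum (l2 : ℝ) (hl2 : 1 ≤ l2) : ∃ κ2 : ℝ, 0 < κ2 ∧ ∃ D1 : ℝ, 1 ≤ D1 ∧
    ∀ {n : ℕ} {r : Fin n → Fin n → Prop} {top : Fin n}
    (M : Model r top) (D : ℝ), D1 ≤ D → ∀ (y : Fin n) (G : Set (Fin n)),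
    (∀ a ∈ G, ∀ b ∈ G, r a b ∨ r b a) →
    (∀ x, |ht r x - ht r y| ≤ l2 * D → ∃ z ∈ G, M.s x z ≤ κ2 * D ∧ |ht r x - ht r z| ≤ κ2 * D) →
    ∑ x ∈ Finset.univ.filter (fun x => x ≠ y ∧ |ht r x - ht r y| < l2 * D),
      Real.sqrt (crossP r x y) ≤ 3 * D / 8 := by
  obtain ⟨C, hC, hnear⟩ := crossP_near
  have hl0 : 0 < l2 := by linarith
  -- the choice of `a`
  obtain ⟨a, ha2, haa⟩ : ∃ a : ℝ, 2 ≤ a ∧
      26 * l2 * Real.sqrt (8 * (3 : ℝ) ^ (-(a - 2) / 8)) ≤ 1 / 8 := by
    obtain ⟨m, hm⟩ := exists_pow_lt_of_lt_one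
      (show (0 : ℝ) < (1 / (208 * l2)) ^ 2 / 8 by positivity) (show (1 / 3 : ℝ) < 1 by norm_num)
    refine ⟨8 * m + 2, by have : (0 : ℝ) ≤ m := Nat.cast_nonneg m; linarith, ?_⟩
    have e1 : (3 : ℝ) ^ (-((8 * (m : ℝ) + 2) - 2) / 8) = (1 / 3) ^ m := by
      rw [show -((8 * (m : ℝ) + 2) - 2) / 8 = -(m : ℝ) by ring, Real.rpow_neg (by norm_num),
        Real.rpow_natCast, one_div, inv_pow]
    rw [e1]
    have e2 : Real.sqrt (8 * (1 / 3 : ℝ) ^ m) ≤ 1 / (208 * l2) := by
      apply Real.sqrt_le_iff.2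
      refine ⟨by positivity, by linarith⟩
    calc 26 * l2 * Real.sqrt (8 * (1 / 3 : ℝ) ^ m) ≤ 26 * l2 * (1 / (208 * l2)) :=
          mul_le_mul_of_nonneg_left e2 (by positivity)
      _ = 1 / 8 := by field_simp; norm_num
  have ha0 : 0 < a := by linarith
  have hCal : 0 < C * a * l2 := by positivity
  obtain ⟨κ, hκ0, hκ1, hκ2⟩ : ∃ κ : ℝ, 0 < κ ∧ 104 * κ ≤ 1 / 8 ∧
      104 * Real.sqrt (C * a * κ * l2) ≤ 1 / 8 := by
    refine ⟨min (1 / 832) (1 / (832 ^ 2 * (C * a * l2))), by positivity, ?_, ?_⟩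
    · have := min_le_left (1 / 832 : ℝ) (1 / (832 ^ 2 * (C * a * l2)))
      linarith
    · have h1 := min_le_right (1 / 832 : ℝ) (1 / (832 ^ 2 * (C * a * l2)))
      set κ := min (1 / 832 : ℝ) (1 / (832 ^ 2 * (C * a * l2)))
      have h2 : Real.sqrt (C * a * κ * l2) ≤ 1 / 832 := by
        apply Real.sqrt_le_iff.2
        refine ⟨by norm_num, ?_⟩
        rw [le_div_iff₀ (by positivity)] at h1
        nlinarith
      linarith
  refine ⟨κ, hκ0, max 1 (1 / (4 * κ)), le_max_left _ _, ?_⟩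
  intro n r top M D hD y G hG hclose
  have hD1 : 1 ≤ D := (le_max_left _ _).trans hD
  have hD0 : 0 < D := by linarith
  have hD2 : 1 ≤ 4 * (κ * D) := by
    have := (le_max_right _ _).trans hD
    rw [div_le_iff₀ (by positivity)] at this
    linarith
  have hδ : 0 < κ * D := by positivity
  have h4 : 4 * (κ * D) ≤ l2 * D := by
    have : 4 * κ ≤ l2 := by linarith
    nlinarith
  have hL : 0 < l2 * D := by positivity
  obtain ⟨u, hu, hu1, hu2⟩ := hclose y (by rw [sub_self, abs_zero]; positivity)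
  set U := Finset.univ.filter (fun x => x ≠ y ∧ |ht r x - ht r y| < l2 * D) with hU
  set U1 := U.filter (fun x => |ht r x - ht r y| < 4 * (κ * D)) with hU1
  set U2 := U.filter (fun x => ¬ |ht r x - ht r y| < 4 * (κ * D)) with hU2
  rw [← Finset.sum_filter_add_sum_filter_not U (fun x => |ht r x - ht r y| < 4 * (κ * D))]
  rw [← hU1, ← hU2]
  -- first part
  have p1 : ∑ x ∈ U1, Real.sqrt (crossP r x y) ≤ D / 8 := by
    calc ∑ x ∈ U1, Real.sqrt (crossP r x y) ≤ ∑ x ∈ U1, (1 : ℝ) := by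
          apply Finset.sum_le_sum
          intro x _
          exact Real.sqrt_le_one.2 (crossP_le_one r x y)
      _ = (U1.card : ℝ) := by rw [Finset.sum_const, nsmul_eq_mul, mul_one]
      _ ≤ ((Finset.univ.filter (fun x => |ht r x - ht r y| ≤ 4 * (κ * D))).card : ℝ) := by
          exact_mod_cast Finset.card_le_card (fun x hx => by
            rw [hU1, Finset.mem_filter] at hx
            exact Finset.mem_filter.2 ⟨Finset.mem_univ _, hx.2.le⟩)
      _ ≤ 26 * (4 * (κ * D)) :=
          local_count M y (κ * D) (4 * (κ * D)) (l2 * D) hδ G hG hclose hD2 le_rfl h4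
      _ ≤ D / 8 := by nlinarith
  -- second part
  have p2 : ∑ x ∈ U2, Real.sqrt (crossP r x y) ≤ D / 4 := by
    have q0 : ∀ x ∈ U2, 4 * (κ * D) ≤ |ht r x - ht r y| ∧ |ht r x - ht r y| ≤ l2 * D := by
      intro x hx
      rw [hU2, Finset.mem_filter, hU, Finset.mem_filter, not_lt] at hx
      exact ⟨hx.2, hx.1.2.2.le⟩
    have q1 : ∀ x ∈ U2, Real.sqrt (crossP r x y) ≤
        Real.sqrt (C * a * (κ * D)) * (1 / Real.sqrt |ht r x - ht r y|) +
          Real.sqrt (8 * (3 : ℝ) ^ (-(a - 2) / 8)) := by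
      intro x hx
      obtain ⟨b1, b2⟩ := q0 x hx
      obtain ⟨z, hz, hz1, hz2⟩ := hclose x b2
      have b3 := hnear M x y z u (κ * D) a hδ ha2 (hG z hz u hu) hz1 hz2 hu1 hu2 b1
      have b0 : 0 < |ht r x - ht r y| := by linarith
      calc Real.sqrt (crossP r x y)
          ≤ Real.sqrt (C * a * (κ * D) / |ht r x - ht r y| + 8 * (3 : ℝ) ^ (-(a - 2) / 8)) :=
            Real.sqrt_le_sqrt b3
        _ ≤ Real.sqrt (C * a * (κ * D) / |ht r x - ht r y|) +
            Real.sqrt (8 * (3 : ℝ) ^ (-(a - 2) / 8)) :=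
            sqrt_add_le' _ _ (by positivity) (by positivity)
        _ = _ := by rw [Real.sqrt_div (by positivity)]; ring
    have q2 : ∑ x ∈ U2, 1 / Real.sqrt |ht r x - ht r y| ≤ 4 * 26 * Real.sqrt (l2 * D) := by
      apply sum_inv_sqrt_le U2 (fun x => |ht r x - ht r y|) (l2 * D) (4 * (κ * D)) 26
        (by positivity) h4 (by norm_num) q0
      intro w hw1 hw2
      refine le_trans ?_ (local_count M y (κ * D) w (l2 * D) hδ G hG hclose (hD2.trans hw1) hw1 hw2)
      exact_mod_cast Finset.card_le_card (fun x hx => by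
        rw [Finset.mem_filter] at hx
        exact Finset.mem_filter.2 ⟨Finset.mem_univ _, hx.2⟩)
    have q3 : (U2.card : ℝ) ≤ 26 * (l2 * D) := by
      refine le_trans ?_ (local_count M y (κ * D) (l2 * D) (l2 * D) hδ G hG hclose (by nlinarith) h4
        le_rfl)
      exact_mod_cast Finset.card_le_card (fun x hx =>
        Finset.mem_filter.2 ⟨Finset.mem_univ _, (q0 x hx).2⟩)
    calc ∑ x ∈ U2, Real.sqrt (crossP r x y)
        ≤ ∑ x ∈ U2, (Real.sqrt (C * a * (κ * D)) * (1 / Real.sqrt |ht r x - ht r y|) +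
          Real.sqrt (8 * (3 : ℝ) ^ (-(a - 2) / 8))) := Finset.sum_le_sum q1
      _ = Real.sqrt (C * a * (κ * D)) * ∑ x ∈ U2, 1 / Real.sqrt |ht r x - ht r y| +
          (U2.card : ℝ) * Real.sqrt (8 * (3 : ℝ) ^ (-(a - 2) / 8)) := by
          rw [Finset.sum_add_distrib, ← Finset.mul_sum, Finset.sum_const, nsmul_eq_mul]
      _ ≤ Real.sqrt (C * a * (κ * D)) * (4 * 26 * Real.sqrt (l2 * D)) +
          26 * (l2 * D) * Real.sqrt (8 * (3 : ℝ) ^ (-(a - 2) / 8)) := by
          gcongr
      _ = 104 * (Real.sqrt (C * a * (κ * D)) * Real.sqrt (l2 * D)) +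
          26 * l2 * Real.sqrt (8 * (3 : ℝ) ^ (-(a - 2) / 8)) * D := by ring
      _ = 104 * Real.sqrt (C * a * κ * l2) * D +
          26 * l2 * Real.sqrt (8 * (3 : ℝ) ^ (-(a - 2) / 8)) * D := by
          rw [← Real.sqrt_mul (by positivity),
            show C * a * (κ * D) * (l2 * D) = C * a * κ * l2 * (D * D) by ring,
            Real.sqrt_mul (by positivity), Real.sqrt_mul_self hD0.le]
          ring
      _ ≤ 1 / 8 * D + 1 / 8 * D := by gcongr
      _ = D / 4 := by ring
  linarith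

end Pool.Agent.Helper8.KS
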