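import Pool.Agent.Helper8.KS.Defs

set_option autoImplicit false

open MeasureTheory

namespace Pool.Agent.Helper8.KS

/-! Section 2 of `KahnSaks.md`: one-dimensional consequences of midpoint log-concavity. -/

/-- midpoint inequality for upper half-lines -/
private theorem mid_Ici {ν : Measure ℝ} (hν : MidLC ν) (a b : ℝ) :
    ν.real (Set.Ici a) * ν.real (Set.Ici b) ≤ ν.real (Set.Ici ((a + b) / 2)) ^ 2 :=
  hν _ _ _ measurableSet_Ici measurableSet_Ici measurableSet_Ici (by
    intro x hx y hy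
    simp only [Set.mem_Ici] at *
    linarith)

/-- reflection -/
private theorem midLC_neg {ν : Measure ℝ} (hν : MidLC ν) : MidLC (ν.map (fun z => -z)) := by
  intro A B D hA hB hD h
  rw [measureReal_def, measureReal_def, measureReal_def, Measure.map_apply measurable_neg hA,
    Measure.map_apply measurable_neg hB, Measure.map_apply measurable_neg hD]
  refine hν _ _ _ (measurable_neg hA) (measurable_neg hB) (measurable_neg hD) ?_
  intro a ha b hb
  have := h _ ha _ hb
  simp only [Set.mem_preimage] at *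
  have e : -((a + b) / 2) = (-a + -b) / 2 := by ring
  rw [e]
  exact this

/-- geometric decay of a log-concave sequence -/
private theorem geom (g : ℕ → ℝ) (hg0 : ∀ k, 0 ≤ g k) (hmono : ∀ k, g (k + 1) ≤ g k)
    (hlc : ∀ k, g k * g (k + 2) ≤ g (k + 1) ^ 2) (q : ℝ) (h1 : g 1 ≤ q * g 0) :
    ∀ k, g (k + 1) ≤ q * g k := by
  intro k
  induction k with
  | zero => exact h1
  | succ k ih =>
    rcases (hg0 k).eq_or_lt with h | h
    · have h2 : g (k + 1) = 0 := le_antisymm (by rw [h]; exact hmono k) (hg0 _)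
      have h3 : g (k + 1 + 1) = 0 := le_antisymm (by rw [← h2]; exact hmono (k + 1)) (hg0 _)
      rw [h3, h2]
      simp
    · have h2 := hlc k
      have h3 : g (k + 1) ^ 2 ≤ q * g k * g (k + 1) := by
        rw [sq]
        exact mul_le_mul_of_nonneg_right ih (hg0 _)
      have h4 : g k * g (k + 1 + 1) ≤ g k * (q * g (k + 1)) := by
        calc g k * g (k + 1 + 1) ≤ g (k + 1) ^ 2 := h2
          _ ≤ _ := h3
          _ = _ := by ring
      exact le_of_mul_le_mul_left h4 h

private theorem geom_pow (g : ℕ → ℝ) (hg0 : ∀ k, 0 ≤ g k) (hmono : ∀ k, g (k + 1) ≤ g k)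
    (hlc : ∀ k, g k * g (k + 2) ≤ g (k + 1) ^ 2) (q : ℝ) (hq : 0 ≤ q) (h1 : g 1 ≤ q * g 0) :
    ∀ k, g k ≤ q ^ k * g 0 := by
  intro k
  induction k with
  | zero => simp
  | succ k ih =>
    calc g (k + 1) ≤ q * g k := geom g hg0 hmono hlc q h1 k
      _ ≤ q * (q ^ k * g 0) := mul_le_mul_of_nonneg_left ih hq
      _ = q ^ (k + 1) * g 0 := by ring

/-- `Pr[Z ≥ a + k s] ≤ q^k Pr[Z ≥ a]` if this holds for `k = 1`. -/
private theorem tail_geom {ν : Measure ℝ} [IsProbabilityMeasure ν] (hν : MidLC ν) (a s q : ℝ)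
    (hs : 0 ≤ s) (hq : 0 ≤ q) (h1 : ν.real (Set.Ici (a + s)) ≤ q * ν.real (Set.Ici a)) (k : ℕ) :
    ν.real (Set.Ici (a + k * s)) ≤ q ^ k * ν.real (Set.Ici a) := by
  have := geom_pow (fun k : ℕ => ν.real (Set.Ici (a + k * s))) (fun k => measureReal_nonneg)
    (fun k => measureReal_mono (Set.Ici_subset_Ici.2 (by push_cast; nlinarith)) (by finiteness))
    (fun k => by
      have := mid_Ici hν (a + k * s) (a + (k + 2 : ℕ) * s)
      have e : (a + k * s + (a + (k + 2 : ℕ) * s)) / 2 = a + (k + 1 : ℕ) * s := by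
        push_cast; ring
      rw [e] at this
      exact this) q hq (by simpa using h1) k
  simpa using this

/-- mass of an interval when there is room on the right -/
private theorem room {ν : Measure ℝ} [IsProbabilityMeasure ν] (hν : MidLC ν) (a w c : ℝ)
    (hw : 0 < w) (hc : 0 < c) (k : ℕ) (hk : 1 ≤ k) (h : c ≤ ν.real (Set.Ici (a + k * w))) :
    ν.real (Set.Ico a (a + w)) ≤ 1 / (c * k) := by
  have hk0 : (0 : ℝ) < k := by exact_mod_cast hk
  set G0 := ν.real (Set.Ici a) with hG0
  set G1 := ν.real (Set.Ici (a + w)) with hG1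
  have hG01 : G1 ≤ G0 := measureReal_mono (Set.Ici_subset_Ici.2 (by linarith)) (by finiteness)
  have hG0le : G0 ≤ 1 := measureReal_le_one
  have hGk : ν.real (Set.Ici (a + k * w)) ≤ G0 :=
    measureReal_mono (Set.Ici_subset_Ici.2 (by nlinarith)) (by finiteness)
  have hG0pos : 0 < G0 := by linarith
  have hG1nn : 0 ≤ G1 := measureReal_nonneg
  have hI : ν.real (Set.Ico a (a + w)) = G0 - G1 := by
    rw [hG0, hG1, ← measureReal_sdiff (Set.Ici_subset_Ici.2 (by linarith)) measurableSet_Ici]
    congr 1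
    ext z
    simp only [Set.mem_Ico, Set.mem_sdiff, Set.mem_Ici, not_le]
  rw [hI]
  have ht := tail_geom hν a w (G1 / G0) hw.le (by positivity)
    (by rw [← hG0, ← hG1]; field_simp; exact le_rfl) k
  -- c ≤ (G1/G0)^k
  have h2 : c ≤ (G1 / G0) ^ k := by
    refine le_trans h (le_trans ht ?_)
    have : 0 ≤ (G1 / G0) ^ k := by positivity
    nlinarith
  set x := 1 - G1 / G0 with hx
  have hx0 : 0 ≤ x := by
    rw [hx, sub_nonneg, div_le_one hG0pos]; exact hG01
  have hx1 : x ≤ 1 := by
    rw [hx]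
    have : 0 ≤ G1 / G0 := by positivity
    linarith
  have h3 : (1 + k * x) * (G1 / G0) ^ k ≤ 1 := by
    have hb : 1 + (k : ℝ) * x ≤ (1 + x) ^ k := one_add_mul_le_pow (by linarith) k
    have hq : 0 ≤ (G1 / G0) ^ k := by positivity
    calc (1 + k * x) * (G1 / G0) ^ k ≤ (1 + x) ^ k * (G1 / G0) ^ k :=
          mul_le_mul_of_nonneg_right hb hq
      _ = ((1 + x) * (1 - x)) ^ k := by rw [mul_pow, hx]; ring_nf
      _ ≤ 1 := by
          apply pow_le_one₀
          · apply mul_nonneg <;> linarith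
          · nlinarith
  have h4 : (1 + k * x) * c ≤ 1 :=
    le_trans (mul_le_mul_of_nonneg_left h2 (by positivity)) h3
  have h5 : G0 - G1 ≤ x := by
    rw [hx, ← sub_nonneg]
    have : 1 - G1 / G0 - (G0 - G1) = (1 - G0) * (G0 - G1) / G0 := by
      field_simp
    rw [this]
    apply div_nonneg _ hG0pos.le
    apply mul_nonneg <;> linarith
  rw [le_div_iff₀ (by positivity)]
  nlinarith [mul_nonneg hk0.le hc.le, mul_le_mul_of_nonneg_right h5 (mul_nonneg hc.le hk0.le)]

/-- (2.1) exponential tails; `σ` is any positive upper bound of the standard deviation. -/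
theorem oneDim_tail (ν : Measure ℝ) [IsProbabilityMeasure ν] (hν : MidLC ν)
    (hb : ∃ R : ℝ, ∀ᵐ z ∂ν, |z| ≤ R) (m σ : ℝ) (hm : m = ∫ z, z ∂ν) (hσ : 0 < σ)
    (hvar : ∫ z, (z - m) ^ 2 ∂ν ≤ σ ^ 2) (u : ℝ) (hu : 0 ≤ u) :
    ν.real {z | u * σ ≤ |z - m|} ≤ 4 * (3 : ℝ) ^ (-u / 4) := by
  -- one-sided statement
  have key : ∀ (ν : Measure ℝ) [IsProbabilityMeasure ν], MidLC ν →
      (∃ R : ℝ, ∀ᵐ z ∂ν, |z| ≤ R) → ∀ m : ℝ, ∫ z, (z - m) ^ 2 ∂ν ≤ σ ^ 2 →
      ν.real (Set.Ici (m + u * σ)) ≤ 2 * (3 : ℝ) ^ (-u / 4) := by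
    intro ν _ hν hb m hvar
    obtain ⟨R, hR⟩ := hb
    have hint : Integrable (fun z : ℝ => (z - m) ^ 2) ν := by
      refine Integrable.of_bound (by fun_prop) ((R + |m|) ^ 2) ?_
      filter_upwards [hR] with z hz
      rw [Real.norm_eq_abs, abs_pow]
      apply pow_le_pow_left₀ (abs_nonneg _)
      calc |z - m| ≤ |z| + |m| := abs_sub _ _
        _ ≤ _ := by linarith
    have hcheb : ν.real {z | (2 * σ) ^ 2 ≤ (z - m) ^ 2} ≤ 1 / 4 := by
      have h1 := mul_meas_ge_le_integral_of_nonneg (μ := ν)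
        (Filter.Eventually.of_forall (fun z => sq_nonneg (z - m))) hint ((2 * σ) ^ 2)
      have h2 : (2 * σ) ^ 2 * ν.real {z | (2 * σ) ^ 2 ≤ (z - m) ^ 2} ≤ (2 * σ) ^ 2 * (1 / 4) := by
        refine le_trans h1 (le_trans hvar (le_of_eq ?_))
        ring
      exact le_of_mul_le_mul_left h2 (by positivity)
    have hG1 : ν.real (Set.Ici (m - 2 * σ + 4 * σ)) ≤ 1 / 4 := by
      refine le_trans (measureReal_mono ?_ (by finiteness)) hcheb
      intro z hz
      simp only [Set.mem_Ici, Set.mem_ofPred_eq] at *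
      apply pow_le_pow_left₀ (by positivity)
      linarith
    have hG0 : 3 / 4 ≤ ν.real (Set.Ici (m - 2 * σ)) := by
      have h1 : ν.real (Set.Ici (m - 2 * σ))ᶜ ≤ 1 / 4 := by
        refine le_trans (measureReal_mono ?_ (by finiteness)) hcheb
        intro z hz
        simp only [Set.mem_compl_iff, Set.mem_Ici, not_le, Set.mem_ofPred_eq] at *
        nlinarith
      rw [probReal_compl_eq_one_sub measurableSet_Ici] at h1
      linarith
    have ht := tail_geom hν (m - 2 * σ) (4 * σ) (1 / 3) (by positivity) (by norm_num)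
      (by linarith) ⌊(u + 2) / 4⌋₊
    set k := ⌊(u + 2) / 4⌋₊ with hk
    have hk1 : (k : ℝ) ≤ (u + 2) / 4 := Nat.floor_le (by positivity)
    have hk2 : (u + 2) / 4 < k + 1 := Nat.lt_floor_add_one _
    have h3 : ν.real (Set.Ici (m + u * σ)) ≤ (1 / 3) ^ k := by
      refine le_trans (measureReal_mono (Set.Ici_subset_Ici.2 ?_) (by finiteness))
        (le_trans ht ?_)
      · nlinarith
      · have : ν.real (Set.Ici (m - 2 * σ)) ≤ 1 := measureReal_le_one
        have h4 : (0 : ℝ) ≤ (1 / 3) ^ k := by positivity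
        nlinarith
    refine le_trans h3 ?_
    have h5 : ((1 : ℝ) / 3) ^ k = (3 : ℝ) ^ (-(k : ℝ)) := by
      rw [Real.rpow_neg (by norm_num), Real.rpow_natCast, one_div, inv_pow]
    rw [h5]
    have h6 : (3 : ℝ) ^ (-(k : ℝ)) ≤ (3 : ℝ) ^ (1 / 2 + -u / 4 : ℝ) := by
      apply Real.rpow_le_rpow_of_exponent_le (by norm_num)
      linarith
    refine le_trans h6 ?_
    rw [Real.rpow_add (by norm_num)]
    apply mul_le_mul_of_nonneg_right _ (by positivity)
    rw [← Real.sqrt_eq_rpow]
    rw [Real.sqrt_le_left (by norm_num)]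
    norm_num
  have hneg : IsProbabilityMeasure (ν.map (fun z => -z)) :=
    Measure.isProbabilityMeasure_map measurable_neg.aemeasurable
  have h1 := key ν hν hb m hvar
  have h2 := key (ν.map (fun z => -z)) (midLC_neg hν) (by
    obtain ⟨R, hR⟩ := hb
    refine ⟨R, ?_⟩
    have hms : MeasurableSet {z : ℝ | |z| ≤ R} := measurableSet_le (by fun_prop) measurable_const
    refine (ae_map_iff (p := fun z => |z| ≤ R) measurable_neg.aemeasurable hms).2 ?_
    filter_upwards [hR] with z hz
    simpa using hz) (-m) (by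
    rw [integral_map measurable_neg.aemeasurable (by fun_prop)]
    refine le_trans (le_of_eq ?_) hvar
    congr 1
    ext z
    ring)
  have h3 : ν.real {z | u * σ ≤ |z - m|} ≤ ν.real (Set.Ici (m + u * σ)) +
      (ν.map (fun z => -z)).real (Set.Ici (-m + u * σ)) := by
    rw [measureReal_def (ν.map _), Measure.map_apply measurable_neg measurableSet_Ici,
      ← measureReal_def]
    refine le_trans (measureReal_mono ?_ (by finiteness)) (measureReal_union_le _ _)
    intro z hz
    simp only [Set.mem_ofPred_eq, le_abs] at hz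
    rcases hz with hz | hz
    · left
      simp only [Set.mem_Ici]
      linarith
    · right
      simp only [Set.mem_preimage, Set.mem_Ici]
      linarith
  linarith

/-- (2.4), mean version of the layer sum: if `Pr[Z ≥ k s] ≤ q^k` then `E Z ≤ s/(1-q)`. -/
private theorem mean_le {ν : Measure ℝ} [IsProbabilityMeasure ν]
    (hb : ∃ R : ℝ, ∀ᵐ z ∂ν, |z| ≤ R) (hnn : ∀ᵐ z ∂ν, 0 ≤ z) (s q : ℝ) (hs : 0 < s)
    (hq : 0 ≤ q) (hq1 : q < 1) (h : ∀ k : ℕ, ν.real (Set.Ici (k * s)) ≤ q ^ k) :
    ∫ z, z ∂ν ≤ s / (1 - q) := by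
  obtain ⟨R, hR⟩ := hb
  obtain ⟨K, hK⟩ := exists_nat_ge (R / s)
  have hpt : ∀ᵐ z ∂ν, z ≤ ∑ k ∈ Finset.range (K + 1), s * (Set.Ici ((k : ℝ) * s)).indicator 1 z := by
    filter_upwards [hR, hnn] with z hz hz0
    set j := ⌊z / s⌋₊ with hj
    have hj1 : (j : ℝ) * s ≤ z := by
      rw [← le_div_iff₀ hs]; exact Nat.floor_le (by positivity)
    have hj2 : z < (j + 1) * s := by
      rw [← div_lt_iff₀ hs]; exact Nat.lt_floor_add_one _
    have hjK : j ≤ K := by
      have : (j : ℝ) ≤ K := by
        refine le_trans ?_ hK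
        rw [le_div_iff₀ hs]
        linarith [le_abs_self z]
      exact_mod_cast this
    calc z ≤ ∑ k ∈ Finset.range (j + 1), s := by
          rw [Finset.sum_const, Finset.card_range, nsmul_eq_mul]
          push_cast
          linarith
      _ = ∑ k ∈ Finset.range (j + 1), s * (Set.Ici ((k : ℝ) * s)).indicator 1 z := by
          apply Finset.sum_congr rfl
          intro k hk
          have hk' : k ≤ j := by
            have := Finset.mem_range.1 hk
            omega
          have : z ∈ Set.Ici ((k : ℝ) * s) := by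
            simp only [Set.mem_Ici]
            have : (k : ℝ) ≤ j := by exact_mod_cast hk'
            nlinarith
          rw [Set.indicator_of_mem this]
          simp
      _ ≤ _ := by
          apply Finset.sum_le_sum_of_subset_of_nonneg
          · exact Finset.range_subset_range.2 (by omega)
          · intro k _ _
            apply mul_nonneg hs.le
            exact Set.indicator_nonneg (fun _ _ => zero_le_one) _
  have hI : ∀ k : ℕ, Integrable (fun z => s * (Set.Ici ((k : ℝ) * s)).indicator 1 z) ν := by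
    intro k
    exact ((integrable_const (1 : ℝ)).indicator measurableSet_Ici).const_mul s
  have h1 : ∫ z, z ∂ν ≤
      ∫ z, ∑ k ∈ Finset.range (K + 1), s * (Set.Ici ((k : ℝ) * s)).indicator 1 z ∂ν := by
    apply integral_mono_of_nonneg hnn (integrable_finsetSum _ (fun k _ => hI k)) hpt
  rw [integral_finsetSum _ (fun k _ => hI k)] at h1
  refine le_trans h1 ?_
  calc ∑ k ∈ Finset.range (K + 1), ∫ z, s * (Set.Ici ((k : ℝ) * s)).indicator 1 z ∂ν
      ≤ ∑ k ∈ Finset.range (K + 1), s * q ^ k := by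
        apply Finset.sum_le_sum
        intro k _
        rw [integral_const_mul, integral_indicator_one measurableSet_Ici]
        exact mul_le_mul_of_nonneg_left (h k) hs.le
    _ = s * ∑ k ∈ Finset.range (K + 1), q ^ k := by rw [Finset.mul_sum]
    _ ≤ s * (1 / (1 - q)) := by
        apply mul_le_mul_of_nonneg_left _ hs.le
        rw [geom_sum_eq (by linarith), ← neg_div_neg_eq, show -(q - 1) = 1 - q by ring]
        apply div_le_div_of_nonneg_right _ (by linarith)
        have : 0 ≤ q ^ (K + 1) := by positivity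
        linarith
    _ = _ := by ring

private theorem sum_odd_geom (q : ℝ) (hq : 0 ≤ q) (hq1 : q < 1) (n : ℕ) :
    ∑ k ∈ Finset.range n, (2 * (k : ℝ) + 1) * q ^ k ≤ (1 + q) / (1 - q) ^ 2 := by
  have h0 : (1 - q) ≠ 0 := by linarith
  have h1 : ∑ k ∈ Finset.range n, (2 * (k : ℝ) + 1) * q ^ k =
      (1 + q - q ^ n * (2 * n + 1 - (2 * n - 1) * q)) / (1 - q) ^ 2 := by
    induction n with
    | zero => simp
    | succ n ih =>
      rw [Finset.sum_range_succ, ih]
      push_cast
      field_simp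
      ring
  rw [h1]
  apply div_le_div_of_nonneg_right _ (by positivity)
  have h2 : 0 ≤ q ^ n * (2 * n + 1 - (2 * n - 1) * q) := by
    apply mul_nonneg (by positivity)
    have : (0 : ℝ) ≤ n := by positivity
    nlinarith
  linarith

/-- second moment layer sum -/
private theorem sq_layer {ν : Measure ℝ} [IsProbabilityMeasure ν] (Y : ℝ → ℝ)
    (hYm : Measurable Y) (hY0 : ∀ z, 0 ≤ Y z) (hb : ∃ R : ℝ, ∀ᵐ z ∂ν, Y z ≤ R) (s A q : ℝ)
    (hs : 0 < s) (hA : 0 ≤ A) (hq : 0 ≤ q) (hq1 : q < 1)
    (h : ∀ k : ℕ, ν.real {z | k * s ≤ Y z} ≤ A * q ^ k) :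
    ∫ z, Y z ^ 2 ∂ν ≤ s ^ 2 * (A * ((1 + q) / (1 - q) ^ 2)) := by
  obtain ⟨R, hR⟩ := hb
  obtain ⟨K, hK⟩ := exists_nat_ge (R / s)
  have hms : ∀ k : ℕ, MeasurableSet {z | (k : ℝ) * s ≤ Y z} := fun k =>
    measurableSet_le measurable_const hYm
  have hsum : ∀ n : ℕ, ∑ k ∈ Finset.range n, (2 * (k : ℝ) + 1) = (n : ℝ) ^ 2 := by
    intro n
    induction n with
    | zero => simp
    | succ n ih => rw [Finset.sum_range_succ, ih]; push_cast; ring
  have hpt : ∀ᵐ z ∂ν, Y z ^ 2 ≤ ∑ k ∈ Finset.range (K + 1),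
      (s ^ 2 * (2 * (k : ℝ) + 1)) * ({z | (k : ℝ) * s ≤ Y z}).indicator 1 z := by
    filter_upwards [hR] with z hz
    have hz0 := hY0 z
    set j := ⌊Y z / s⌋₊ with hj
    have hj1 : (j : ℝ) * s ≤ Y z := by
      rw [← le_div_iff₀ hs]; exact Nat.floor_le (by positivity)
    have hj2 : Y z < (j + 1) * s := by
      rw [← div_lt_iff₀ hs]; exact Nat.lt_floor_add_one _
    have hjK : j ≤ K := by
      have : (j : ℝ) ≤ K := by
        refine le_trans ?_ hK
        rw [le_div_iff₀ hs]
        linarith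
      exact_mod_cast this
    calc Y z ^ 2 ≤ ((j + 1) * s) ^ 2 := pow_le_pow_left₀ hz0 hj2.le 2
      _ = ∑ k ∈ Finset.range (j + 1), s ^ 2 * (2 * (k : ℝ) + 1) := by
          rw [← Finset.mul_sum, hsum]
          push_cast
          ring
      _ = ∑ k ∈ Finset.range (j + 1),
            (s ^ 2 * (2 * (k : ℝ) + 1)) * ({z | (k : ℝ) * s ≤ Y z}).indicator 1 z := by
          apply Finset.sum_congr rfl
          intro k hk
          have hk' : k ≤ j := by
            have := Finset.mem_range.1 hk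
            omega
          have : z ∈ {z | (k : ℝ) * s ≤ Y z} := by
            simp only [Set.mem_ofPred_eq]
            have : (k : ℝ) ≤ j := by exact_mod_cast hk'
            nlinarith
          rw [Set.indicator_of_mem this]
          simp
      _ ≤ _ := by
          apply Finset.sum_le_sum_of_subset_of_nonneg
          · exact Finset.range_subset_range.2 (by omega)
          · intro k _ _
            apply mul_nonneg (by positivity)
            exact Set.indicator_nonneg (fun _ _ => zero_le_one) _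
  have hI : ∀ k : ℕ, Integrable
      (fun z => (s ^ 2 * (2 * (k : ℝ) + 1)) * ({z | (k : ℝ) * s ≤ Y z}).indicator 1 z) ν := by
    intro k
    exact ((integrable_const (1 : ℝ)).indicator (hms k)).const_mul _
  have h1 : ∫ z, Y z ^ 2 ∂ν ≤ ∫ z, ∑ k ∈ Finset.range (K + 1),
      (s ^ 2 * (2 * (k : ℝ) + 1)) * ({z | (k : ℝ) * s ≤ Y z}).indicator 1 z ∂ν :=
    integral_mono_of_nonneg (Filter.Eventually.of_forall (fun z => sq_nonneg _))
      (integrable_finsetSum _ (fun k _ => hI k)) hpt
  rw [integral_finsetSum _ (fun k _ => hI k)] at h1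
  refine le_trans h1 ?_
  calc ∑ k ∈ Finset.range (K + 1),
        ∫ z, (s ^ 2 * (2 * (k : ℝ) + 1)) * ({z | (k : ℝ) * s ≤ Y z}).indicator 1 z ∂ν
      ≤ ∑ k ∈ Finset.range (K + 1), (s ^ 2 * A) * ((2 * (k : ℝ) + 1) * q ^ k) := by
        apply Finset.sum_le_sum
        intro k _
        rw [integral_const_mul, integral_indicator_one (hms k)]
        calc (s ^ 2 * (2 * (k : ℝ) + 1)) * ν.real {z | (k : ℝ) * s ≤ Y z}
            ≤ (s ^ 2 * (2 * (k : ℝ) + 1)) * (A * q ^ k) :=
              mul_le_mul_of_nonneg_left (h k) (by positivity)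
          _ = _ := by ring
    _ = (s ^ 2 * A) * ∑ k ∈ Finset.range (K + 1), (2 * (k : ℝ) + 1) * q ^ k := by
        rw [Finset.mul_sum]
    _ ≤ (s ^ 2 * A) * ((1 + q) / (1 - q) ^ 2) := by
        apply mul_le_mul_of_nonneg_left (sum_odd_geom q hq hq1 _) (by positivity)
    _ = _ := by ring

private theorem neg_real {ν : Measure ℝ} {s : Set ℝ} (hs : MeasurableSet s) :
    (ν.map (fun z => -z)).real s = ν.real {z | -z ∈ s} := by
  rw [measureReal_def, Measure.map_apply measurable_neg hs, ← measureReal_def]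
  rfl

/-- some mass is at distance at least `σ/4` from any point `b` -/
private theorem spread_pt {ν : Measure ℝ} [IsProbabilityMeasure ν] (hν : MidLC ν)
    (hb : ∃ R : ℝ, ∀ᵐ z ∂ν, |z| ≤ R) (m σ : ℝ) (hm : m = ∫ z, z ∂ν) (hσ : 0 < σ)
    (hvar : σ ^ 2 = ∫ z, (z - m) ^ 2 ∂ν) (b : ℝ) :
    1 / 20 ≤ ν.real (Set.Ici (b + σ / 4)) ∨ 1 / 20 ≤ ν.real (Set.Iic (b - σ / 4)) := by
  by_contra hcon
  push Not at hcon
  obtain ⟨hr, hl⟩ := hcon
  have hneg : IsProbabilityMeasure (ν.map (fun z => -z)) :=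
    Measure.isProbabilityMeasure_map measurable_neg.aemeasurable
  set s0 := σ / 4 with hs0
  have hs0p : 0 < s0 := by positivity
  -- right tails
  have hG0 : 19 / 20 ≤ ν.real (Set.Ici (b - s0)) := by
    have h1 : (Set.Ici (b - s0))ᶜ ⊆ Set.Iic (b - s0) := by
      intro z hz
      simp only [Set.mem_compl_iff, Set.mem_Ici, not_le, Set.mem_Iic] at *
      exact hz.le
    have h2 := measureReal_mono (μ := ν) h1 (by finiteness)
    rw [probReal_compl_eq_one_sub measurableSet_Ici] at h2
    linarith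
  have hF0 : 19 / 20 ≤ (ν.map (fun z => -z)).real (Set.Ici (-b - s0)) := by
    rw [neg_real measurableSet_Ici]
    have h1 : {z : ℝ | -z ∈ Set.Ici (-b - s0)}ᶜ ⊆ Set.Ici (b + s0) := by
      intro z hz
      simp only [Set.mem_compl_iff, Set.mem_ofPred_eq, Set.mem_Ici, not_le] at *
      linarith
    have h2 := measureReal_mono (μ := ν) h1 (by finiteness)
    have hms : MeasurableSet {z : ℝ | -z ∈ Set.Ici (-b - s0)} := measurable_neg measurableSet_Ici
    rw [probReal_compl_eq_one_sub hms] at h2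
    linarith
  have hF1 : (ν.map (fun z => -z)).real (Set.Ici (-b - s0 + 2 * s0)) ≤ 1 / 20 := by
    rw [neg_real measurableSet_Ici]
    refine le_trans (measureReal_mono ?_ (by finiteness)) hl.le
    intro z hz
    simp only [Set.mem_ofPred_eq, Set.mem_Ici, Set.mem_Iic] at *
    linarith
  have hR : ∀ k : ℕ, ν.real (Set.Ici (b - s0 + k * (2 * s0))) ≤ (1 / 9) ^ k := by
    intro k
    refine le_trans (tail_geom hν (b - s0) (2 * s0) (1 / 9) (by positivity) (by norm_num) ?_ k) ?_
    · have e : b - s0 + 2 * s0 = b + s0 := by ring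
      rw [e]
      linarith
    · have h1 : ν.real (Set.Ici (b - s0)) ≤ 1 := measureReal_le_one
      have h2 : (0 : ℝ) ≤ (1 / 9) ^ k := by positivity
      nlinarith
  have hL : ∀ k : ℕ, (ν.map (fun z => -z)).real (Set.Ici (-b - s0 + k * (2 * s0))) ≤
      (1 / 9) ^ k := by
    intro k
    refine le_trans (tail_geom (midLC_neg hν) (-b - s0) (2 * s0) (1 / 9) (by positivity)
      (by norm_num) ?_ k) ?_
    · linarith
    · have h1 : (ν.map (fun z => -z)).real (Set.Ici (-b - s0)) ≤ 1 := measureReal_le_one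
      have h2 : (0 : ℝ) ≤ (1 / 9) ^ k := by positivity
      nlinarith
  have hlay : ∀ k : ℕ, ν.real {z | (k : ℝ) * (2 * s0) ≤ |z - b|} ≤ 2 * (1 / 9) ^ k := by
    intro k
    have h1 := hR k
    have h2 := hL k
    rw [neg_real measurableSet_Ici] at h2
    have h3 : {z : ℝ | (k : ℝ) * (2 * s0) ≤ |z - b|} ⊆
        Set.Ici (b - s0 + k * (2 * s0)) ∪ {z : ℝ | -z ∈ Set.Ici (-b - s0 + k * (2 * s0))} := by
      intro z hz
      simp only [Set.mem_ofPred_eq, Set.mem_union, Set.mem_Ici, le_abs] at *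
      rcases hz with hz | hz
      · left; linarith
      · right; linarith
    have h4 := measureReal_mono (μ := ν) h3 (by finiteness)
    have h5 := measureReal_union_le (μ := ν) (Set.Ici (b - s0 + k * (2 * s0)))
      {z : ℝ | -z ∈ Set.Ici (-b - s0 + k * (2 * s0))}
    linarith
  obtain ⟨R, hR'⟩ := hb
  have h1 := sq_layer (ν := ν) (fun z => |z - b|) (by fun_prop) (fun z => abs_nonneg _)
    ⟨R + |b|, by
      filter_upwards [hR'] with z hz
      calc |z - b| ≤ |z| + |b| := abs_sub _ _
        _ ≤ _ := by linarith⟩ (2 * s0) 2 (1 / 9) (by positivity) (by norm_num) (by norm_num)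
    (by norm_num) hlay
  simp only [sq_abs] at h1
  -- variance is minimal at the mean
  have hint1 : Integrable (fun z : ℝ => z) ν := by
    refine Integrable.of_bound (by fun_prop) R ?_
    filter_upwards [hR'] with z hz
    rwa [Real.norm_eq_abs]
  have hint2 : Integrable (fun z : ℝ => (z - m) ^ 2) ν := by
    refine Integrable.of_bound (by fun_prop) ((R + |m|) ^ 2) ?_
    filter_upwards [hR'] with z hz
    rw [Real.norm_eq_abs, abs_pow]
    apply pow_le_pow_left₀ (abs_nonneg _)
    calc |z - m| ≤ |z| + |m| := abs_sub _ _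
      _ ≤ _ := by linarith
  have h2 : ∫ z, (z - b) ^ 2 ∂ν = ∫ z, (z - m) ^ 2 ∂ν + (m - b) ^ 2 := by
    have e : (fun z : ℝ => (z - b) ^ 2) =
        fun z => (z - m) ^ 2 + ((2 * (m - b)) * z + ((m - b) ^ 2 - 2 * (m - b) * m)) := by
      ext z; ring
    have hlin : Integrable
        (fun z : ℝ => (2 * (m - b)) * z + ((m - b) ^ 2 - 2 * (m - b) * m)) ν :=
      (hint1.const_mul _).add (integrable_const _)
    rw [e, integral_add hint2 hlin,
      integral_add (hint1.const_mul _) (integrable_const _), integral_const_mul, ← hm,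
      integral_const]
    simp
  rw [h2, ← hvar] at h1
  have h3 : σ = 4 * s0 := by rw [hs0]; ring
  rw [h3] at h1
  have h4 : 0 ≤ (m - b) ^ 2 := sq_nonneg _
  have h5 : 0 < s0 ^ 2 := by positivity
  norm_num at h1
  nlinarith

/-- (2.3) small ball: an interval of length `w` has mass at most `C w / σ`. -/
theorem oneDim_small_ball : ∃ C : ℝ, 1 ≤ C ∧ ∀ (ν : Measure ℝ) [IsProbabilityMeasure ν],
    MidLC ν → (∃ R : ℝ, ∀ᵐ z ∂ν, |z| ≤ R) → ∀ (m σ : ℝ), m = ∫ z, z ∂ν → 0 < σ →
    σ ^ 2 = ∫ z, (z - m) ^ 2 ∂ν → ∀ (a w : ℝ), 0 < w →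
    ν.real (Set.Icc a (a + w)) ≤ C * w / σ := by
  refine ⟨320, by norm_num, ?_⟩
  intro ν _ hν hb m σ hm hσ hvar a w hw
  have hneg : IsProbabilityMeasure (ν.map (fun z => -z)) :=
    Measure.isProbabilityMeasure_map measurable_neg.aemeasurable
  rcases lt_or_ge (σ / 4) (2 * w) with hbig | hsmall
  · refine le_trans measureReal_le_one ?_
    rw [le_div_iff₀ hσ]
    linarith
  -- k = floor
  set k := ⌊(σ / 4) / (2 * w)⌋₊ with hk
  have hk1 : (k : ℝ) * (2 * w) ≤ σ / 4 := by
    rw [← le_div_iff₀ (by positivity)]; exact Nat.floor_le (by positivity)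
  have hk2 : σ / 4 < (k + 1) * (2 * w) := by
    rw [← div_lt_iff₀ (by positivity)]; exact Nat.lt_floor_add_one _
  have hk3 : 1 ≤ k := by
    rw [hk, Nat.one_le_floor_iff, le_div_iff₀ (by positivity)]
    linarith
  have hk4 : (1 : ℝ) ≤ k := by exact_mod_cast hk3
  have hfin : 1 / (1 / 20 * (k : ℝ)) ≤ 320 * w / σ := by
    rw [div_le_div_iff₀ (by positivity) hσ]
    nlinarith
  rcases spread_pt hν hb m σ hm hσ hvar a with h | h
  · have h1 := room hν a (2 * w) (1 / 20) (by positivity) (by norm_num) k hk3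
      (le_trans h (measureReal_mono (Set.Ici_subset_Ici.2 (by linarith)) (by finiteness)))
    refine le_trans (measureReal_mono ?_ (by finiteness)) (le_trans h1 hfin)
    intro z hz
    simp only [Set.mem_Icc, Set.mem_Ico] at *
    constructor <;> linarith
  · have h1 := room (midLC_neg hν) (-a - w) (2 * w) (1 / 20) (by positivity) (by norm_num) k hk3
      (by
        rw [neg_real measurableSet_Ici]
        refine le_trans h (measureReal_mono ?_ (by finiteness))
        intro z hz
        simp only [Set.mem_Iic, Set.mem_ofPred_eq, Set.mem_Ici] at *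
        linarith)
    rw [neg_real measurableSet_Ico] at h1
    refine le_trans (measureReal_mono ?_ (by finiteness)) (le_trans h1 hfin)
    intro z hz
    simp only [Set.mem_Icc, Set.mem_Ico, Set.mem_ofPred_eq] at *
    constructor <;> linarith

/-- (2.4) nonnegative variables. -/
theorem oneDim_nonneg : ∃ C : ℝ, 1 ≤ C ∧ ∀ (ν : Measure ℝ) [IsProbabilityMeasure ν],
    MidLC ν → (∃ R : ℝ, ∀ᵐ z ∂ν, |z| ≤ R) → (∀ᵐ z ∂ν, 0 ≤ z) → ∀ (m : ℝ), m = ∫ z, z ∂ν → 0 < m →
    (∫ z, (z - m) ^ 2 ∂ν ≤ (7 * m) ^ 2) ∧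
    ∀ a : ℝ, 0 < a → ν.real (Set.Iic (a * m)) ≤ C * a := by
  refine ⟨16, by norm_num, ?_⟩
  intro ν _ hν hb hnn m hm hm0
  have hb' := hb
  obtain ⟨R, hR⟩ := hb
  have hint1 : Integrable (fun z : ℝ => z) ν := by
    refine Integrable.of_bound (by fun_prop) R ?_
    filter_upwards [hR] with z hz
    rwa [Real.norm_eq_abs]
  have hG0 : ν.real (Set.Ici 0) = 1 := by
    rw [measureReal_def, (mem_ae_iff_prob_eq_one measurableSet_Ici).1 hnn]
    simp
  have hmark : ν.real (Set.Ici (2 * m)) ≤ 1 / 2 := by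
    have h1 := mul_meas_ge_le_integral_of_nonneg hnn hint1 (2 * m)
    rw [← hm] at h1
    have h2 : 2 * m * ν.real (Set.Ici (2 * m)) ≤ 2 * m * (1 / 2) := by
      refine le_trans h1 (le_of_eq (by ring))
    exact le_of_mul_le_mul_left h2 (by positivity)
  constructor
  · -- second moment
    have hlay : ∀ k : ℕ, ν.real {z | (k : ℝ) * (2 * m) ≤ |z|} ≤ 1 * (1 / 2) ^ k := by
      intro k
      have h1 := tail_geom hν 0 (2 * m) (1 / 2) (by positivity) (by norm_num)
        (by rw [zero_add, hG0]; linarith) k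
      rw [zero_add, hG0, mul_one] at h1
      rw [one_mul]
      refine le_trans (le_of_eq ?_) h1
      apply measureReal_congr
      filter_upwards [hnn] with z hz
      apply propext
      show (k : ℝ) * (2 * m) ≤ |z| ↔ (k : ℝ) * (2 * m) ≤ z
      rw [abs_of_nonneg hz]
    have h1 := sq_layer (ν := ν) (fun z => |z|) (by fun_prop) (fun z => abs_nonneg _)
      ⟨R, hR⟩ (2 * m) 1 (1 / 2) (by positivity) (by norm_num) (by norm_num)
      (by norm_num) hlay
    simp only [sq_abs] at h1
    have hint2 : Integrable (fun z : ℝ => z ^ 2) ν := by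
      refine Integrable.of_bound (by fun_prop) (R ^ 2) ?_
      filter_upwards [hR] with z hz
      rw [Real.norm_eq_abs, abs_pow]
      exact pow_le_pow_left₀ (abs_nonneg _) hz 2
    have h2 : ∫ z, (z - m) ^ 2 ∂ν = ∫ z, z ^ 2 ∂ν - m ^ 2 := by
      have e : (fun z : ℝ => (z - m) ^ 2) = fun z => z ^ 2 + ((-(2 * m)) * z + m ^ 2) := by
        ext z; ring
      have hlin : Integrable (fun z : ℝ => (-(2 * m)) * z + m ^ 2) ν :=
        (hint1.const_mul _).add (integrable_const _)
      rw [e, integral_add hint2 hlin,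
        integral_add (hint1.const_mul _) (integrable_const _), integral_const_mul, ← hm,
        integral_const]
      simp
      ring
    rw [h2]
    norm_num at h1
    nlinarith
  · intro a ha
    -- half of the mass is above m / 2
    have hhalf : 1 / 2 ≤ ν.real (Set.Ici (m / 2)) := by
      by_contra hcon
      push Not at hcon
      set q := ν.real (Set.Ici (m / 2)) with hq
      have hq0 : 0 ≤ q := measureReal_nonneg
      have h1 := mean_le (ν := ν) hb' hnn (m / 2) q (by positivity) hq0 (by linarith) (by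
        intro k
        have h1 := tail_geom hν 0 (m / 2) q (by positivity) hq0
          (by rw [zero_add, hG0, mul_one]) k
        rw [zero_add, hG0, mul_one] at h1
        exact h1)
      rw [← hm, le_div_iff₀ (by linarith)] at h1
      nlinarith
    rcases lt_or_ge (1 / 4) a with hbig | hsmall
    · refine le_trans measureReal_le_one ?_
      linarith
    set k := ⌊1 / (4 * a)⌋₊ with hk
    have hk1 : (k : ℝ) * (4 * a) ≤ 1 := by
      rw [← le_div_iff₀ (by positivity)]; exact Nat.floor_le (by positivity)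
    have hk2 : 1 < ((k : ℝ) + 1) * (4 * a) := by
      rw [← div_lt_iff₀ (by positivity)]; exact Nat.lt_floor_add_one _
    have hk3 : 1 ≤ k := by
      rw [hk, Nat.one_le_floor_iff, le_div_iff₀ (by positivity)]
      linarith
    have hk4 : (1 : ℝ) ≤ k := by exact_mod_cast hk3
    have h1 := room hν 0 (2 * (a * m)) (1 / 2) (by positivity) (by norm_num) k hk3
      (le_trans hhalf (measureReal_mono (Set.Ici_subset_Ici.2 (by nlinarith)) (by finiteness)))
    have h2 : ν.real (Set.Iic (a * m)) ≤ ν.real (Set.Ico 0 (0 + 2 * (a * m))) := by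
      rw [measureReal_def, measureReal_def]
      apply ENNReal.toReal_mono (by finiteness)
      apply measure_mono_ae
      filter_upwards [hnn] with z hz hz1
      have hz2 : z ≤ a * m := hz1
      have : 0 < a * m := by positivity
      show 0 ≤ z ∧ z < 0 + 2 * (a * m)
      constructor
      · exact hz
      · linarith
    refine le_trans h2 (le_trans h1 ?_)
    rw [div_le_iff₀ (by positivity)]
    nlinarith

end Pool.Agent.Helper8.KS
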