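import Pool.Agent.Helper8.KS.Block

set_option autoImplicit false

open MeasureTheory Pool.Agent.Helper1.Balance

namespace Pool.Agent.Helper8.KS

/-- (8.1) -/
theorem stuck_isolated (N0 : ℕ) (h1 : 1 ≤ N0) (R : ℝ) : ∃ c : ℝ, 0 < c ∧
    ∀ {n : ℕ} {r : Fin n → Fin n → Prop} {top : Fin n} (M : Model r top), M.Cov N0 →
    ∀ (δ ell : ℝ) (z : Fin n), 0 < δ → 0 < ell → ell ≤ R * δ → Stuck r δ ell z →
    ht r z + ell ≤ ht r top → ∀ x, x ≠ z → c * δ ≤ M.s z x := by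
  obtain ⟨c, hc, hblock⟩ := block N0 h1 R
  refine ⟨c, hc, ?_⟩
  intro n r top M hcov δ ℓ z hδ hℓ hR hz hT x hxz
  have hp := M.poset
  have hTz : top ∉ Pool.Agent.Helper1.KSB.Bset r δ z := fun hc =>
    absurd (hz top (Pool.Agent.Helper1.KSB.mem_Bset.1 hc)) (not_lt.2 hT)
  by_cases hx : x ∈ Pool.Agent.Helper1.KSB.Bset r δ z
  · -- x is above z; use the block of x
    have hx' := Pool.Agent.Helper1.KSB.mem_Bset.1 hx
    have hzx : r z x := Pool.Agent.Helper1.KSB.rel_of_mem_Bset hp hx'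
    have hsub : Pool.Agent.Helper1.KSB.Bset r δ x ⊆ Pool.Agent.Helper1.KSB.Bset r δ z :=
      fun w hw => Pool.Agent.Helper1.KSB.mem_Bset.2
        (Relation.ReflTransGen.trans hx' (Pool.Agent.Helper1.KSB.mem_Bset.1 hw))
    have hh := M.ht_mono hzx hxz.symm
    have := hblock M hcov δ ℓ (Pool.Agent.Helper1.KSB.Bset r δ x) x hδ hℓ hR
      (fun hc => hTz (hsub hc)) (Pool.Agent.Helper1.KSB.mem_Bset.2 Relation.ReflTransGen.refl)
      (fun w hw => ⟨Pool.Agent.Helper1.KSB.rel_of_mem_Bset hp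
        (Pool.Agent.Helper1.KSB.mem_Bset.1 hw), by
          have := hz w (Pool.Agent.Helper1.KSB.mem_Bset.1 (hsub hw)); linarith⟩)
      (fun w hw z' hz' hlt => by
        by_contra hcon
        exact hz' (Pool.Agent.Helper1.KSB.mem_Bset.2 (Relation.ReflTransGen.tail
          (Pool.Agent.Helper1.KSB.mem_Bset.1 hw) ⟨hlt, not_le.1 hcon⟩)))
      x (Pool.Agent.Helper1.KSB.mem_Bset.2 Relation.ReflTransGen.refl) z
      (fun hc => hxz (hp.2.2 _ _ (Pool.Agent.Helper1.KSB.rel_of_mem_Bset hp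
        (Pool.Agent.Helper1.KSB.mem_Bset.1 hc)) hzx))
    rwa [M.s_comm] at this
  · exact hblock M hcov δ ℓ (Pool.Agent.Helper1.KSB.Bset r δ z) z hδ hℓ hR hTz
      (Pool.Agent.Helper1.KSB.mem_Bset.2 Relation.ReflTransGen.refl)
      (fun w hw => ⟨Pool.Agent.Helper1.KSB.rel_of_mem_Bset hp
        (Pool.Agent.Helper1.KSB.mem_Bset.1 hw), hz w (Pool.Agent.Helper1.KSB.mem_Bset.1 hw)⟩)
      (fun w hw z' hz' hlt => by
        by_contra hcon
        exact hz' (Pool.Agent.Helper1.KSB.mem_Bset.2 (Relation.ReflTransGen.tail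
          (Pool.Agent.Helper1.KSB.mem_Bset.1 hw) ⟨hlt, not_le.1 hcon⟩)))
      z (Pool.Agent.Helper1.KSB.mem_Bset.2 Relation.ReflTransGen.refl) x hx

/-- (8.2) -/
theorem not_stuck_chain {n : ℕ} (r : Fin n → Fin n → Prop) (δ ell : ℝ) (z : Fin n)
    (h : ¬ Stuck r δ ell z) : ∃ (m : ℕ) (γ : ℕ → Fin n), γ 0 = z ∧
      (∀ i, i < m → Step r δ (γ i) (γ (i + 1))) ∧ ht r z + ell ≤ ht r (γ m) :=
  Pool.Agent.Helper1.KSB.chain_of_not_stuck h

end Pool.Agent.Helper8.KS
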