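import Pool.Agent.Helper8.KS.DenseChain
import Pool.Agent.Helper8.KS.Closeness
import Pool.Agent.Helper8.KS.Near
import Pool.Agent.Helper8.KS.Extension
import Pool.Agent.Helper8.KS.ModelExists

set_option autoImplicit false

open MeasureTheory Pool.Agent.Helper1.Balance

namespace Pool.Agent.Helper8.KS

/-- a sequence of steps is a chain -/
private theorem chain_rel {n : ℕ} {r : Fin n → Fin n → Prop} (hr : IsPoset r) {δ : ℝ} {m : ℕ}
    {γ : ℕ → Fin n} (hγ : ∀ i, i < m → Step r δ (γ i) (γ (i + 1))) :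
    ∀ i j, i ≤ j → j ≤ m → r (γ i) (γ j) := by
  intro i j hij
  induction j, hij using Nat.le_induction with
  | base => intro _; exact hr.1 _
  | succ k hk ih =>
    intro hkm
    exact hr.2.1 _ _ _ (ih (by omega)) (hγ k (by omega)).1

/-- Section 10, in the model. -/
theorem theoremI_model (ε : ℝ) (hε : 0 < ε) (hε' : ε ≤ 1 / 2) : ∃ D0 : ℝ, 1 ≤ D0 ∧
    ∃ c : ℝ, 1 ≤ c ∧ ∀ {n : ℕ} {r : Fin n → Fin n → Prop} {top : Fin n}
    (M : Model r top), Unb ε r → ∀ D : ℝ, D0 ≤ D → (∀ x, vr r x ≤ D ^ 2) → ∀ y : Fin n,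
    vr r y = D ^ 2 → c * D ≤ ht r y → ht r y + c * D ≤ n → False := by
  classical
  obtain ⟨l2, hl2, hfar⟩ := far_sum
  obtain ⟨κ2, hκ2, D1, hD1, hnear⟩ := near_sum l2 hl2
  obtain ⟨C, hC, hclose⟩ := closeness ε hε hε'
  obtain ⟨l3, hl3, hclose⟩ := hclose l2 hl2
  have hC0 : 0 < C := by linarith
  obtain ⟨D0, hD0, c, hc, hdense⟩ := dense_chain ε hε (κ2 / C) l3 (div_pos hκ2 hC0) (by linarith)
  refine ⟨max D0 D1, le_trans hD0 (le_max_left _ _), c, hc, ?_⟩
  intro n r top M hU D hD hv y hvy h1 h2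
  have hDD0 : D0 ≤ D := le_trans (le_max_left _ _) hD
  have hDD1 : D1 ≤ D := le_trans (le_max_right _ _) hD
  have hD1' : 1 ≤ D := le_trans hD0 hDD0
  obtain ⟨m, γ, hγ, hlo, hhi⟩ := hdense M hU D hDD0 hv y h1 h2
  set G : Set (Fin n) := {z | ∃ i, i ≤ m ∧ z = γ i} with hGdef
  have hG : ∀ a ∈ G, ∀ b ∈ G, r a b ∨ r b a := by
    rintro a ⟨i, hi, rfl⟩ b ⟨j, hj, rfl⟩
    rcases le_total i j with hij | hij
    · exact Or.inl (chain_rel M.poset hγ i j hij hj)
    · exact Or.inr (chain_rel M.poset hγ j i hij hi)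
  have hcl : ∀ x, |ht r x - ht r y| ≤ l2 * D →
      ∃ z ∈ G, M.s x z ≤ κ2 * D ∧ |ht r x - ht r z| ≤ κ2 * D := by
    intro x hx
    obtain ⟨i, hi, hs, hh⟩ := hclose M hU D hD1' hv y (κ2 / C) (div_pos hκ2 hC0) m γ hγ hlo hhi x hx
    have e : C * (κ2 / C) * D = κ2 * D := by field_simp
    rw [e] at hs hh
    exact ⟨γ i, ⟨i, hi, rfl⟩, hs, hh⟩
  have hn := hnear M D hDD1 y G hG hcl
  have hf := hfar M D hD1' hv y
  have hs := sd_le_sum_cross r M.poset y
  rw [hvy, Real.sqrt_sq (by linarith)] at hs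
  have hsplit : ∑ x ∈ Finset.univ.filter (fun x => x ≠ y), Real.sqrt (crossP r x y) ≤
      ∑ x ∈ Finset.univ.filter (fun x => x ≠ y ∧ |ht r x - ht r y| < l2 * D),
        Real.sqrt (crossP r x y) +
      ∑ x ∈ Finset.univ.filter (fun x => l2 * D ≤ |ht r x - ht r y|),
        Real.sqrt (crossP r x y) := by
    have hsub : (Finset.univ.filter (fun x => x ≠ y)) ⊆
        (Finset.univ.filter (fun x => x ≠ y ∧ |ht r x - ht r y| < l2 * D)) ∪
        (Finset.univ.filter (fun x => l2 * D ≤ |ht r x - ht r y|)) := by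
      intro x hx
      simp only [Finset.mem_filter, Finset.mem_univ, true_and, Finset.mem_union] at hx ⊢
      rcases lt_or_ge (|ht r x - ht r y|) (l2 * D) with h | h
      · exact Or.inl ⟨hx, h⟩
      · exact Or.inr h
    calc ∑ x ∈ Finset.univ.filter (fun x => x ≠ y), Real.sqrt (crossP r x y) ≤
        ∑ x ∈ (Finset.univ.filter (fun x => x ≠ y ∧ |ht r x - ht r y| < l2 * D)) ∪
          (Finset.univ.filter (fun x => l2 * D ≤ |ht r x - ht r y|)),
          Real.sqrt (crossP r x y) :=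
          Finset.sum_le_sum_of_subset_of_nonneg hsub (fun _ _ _ => Real.sqrt_nonneg _)
      _ ≤ _ := by
          rw [← Finset.sum_union_inter]
          have : 0 ≤ ∑ x ∈ (Finset.univ.filter (fun x => x ≠ y ∧ |ht r x - ht r y| < l2 * D)) ∩
            (Finset.univ.filter (fun x => l2 * D ≤ |ht r x - ht r y|)),
            Real.sqrt (crossP r x y) := Finset.sum_nonneg (fun _ _ => Real.sqrt_nonneg _)
          linarith
  have hconv : ∑ x ∈ Finset.univ.filter (fun x => x ≠ y), Real.sqrt (crossP r x y) =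
      ∑ x ∈ Finset.univ.filter (fun x => x ≠ y), Real.sqrt (crossP r x y) := rfl
  have key : D ≤ 3 * D / 8 + D / 8 := by
    refine le_trans ?_ (le_trans hsplit (add_le_add hn hf))
    convert hs using 2
  linarith

/-- heights are at most `n` -/
theorem ht_le {n : ℕ} (r : Fin n → Fin n → Prop) (x : Fin n) : ht r x ≤ n := by
  unfold ht Ex
  rcases Finset.eq_empty_or_nonempty (LEs r) with h | h
  · rw [h]; simp
  · rw [div_le_iff₀ (by exact_mod_cast h.card_pos)]
    calc ∑ σ ∈ LEs r, pos σ x ≤ ∑ _σ ∈ LEs r, (n : ℝ) := by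
          apply Finset.sum_le_sum
          intro σ _
          unfold pos
          have : ((σ x : ℕ)) + 1 ≤ n := (σ x).2
          exact_mod_cast this
      _ = (n : ℝ) * ((LEs r).card : ℝ) := by
          rw [Finset.sum_const, nsmul_eq_mul]; ring

/-- heights are nonnegative -/
theorem ht_nonneg {n : ℕ} (r : Fin n → Fin n → Prop) (x : Fin n) : 0 ≤ ht r x := by
  unfold ht Ex
  apply div_nonneg
  · apply Finset.sum_nonneg
    intro σ _
    unfold pos
    positivity
  · positivity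

theorem vr_nonneg {n : ℕ} (r : Fin n → Fin n → Prop) (x : Fin n) : 0 ≤ vr r x := by
  unfold vr Ex
  apply div_nonneg
  · apply Finset.sum_nonneg
    intro σ _
    positivity
  · positivity

/-- Theorem I. -/
theorem theoremI (ε : ℝ) (hε : 0 < ε) : ∃ D0 : ℝ, 1 ≤ D0 ∧ ∀ {n : ℕ}
    (r : Fin n → Fin n → Prop), IsPoset r → Unb ε r → ∀ x, vr r x ≤ D0 ^ 2 := by
  have he : 0 < min ε (1 / 2) := lt_min hε (by norm_num)
  obtain ⟨D0, hD0, c, hc, hmod⟩ := theoremI_model (min ε (1 / 2)) he (min_le_right _ _)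
  refine ⟨D0, hD0, ?_⟩
  intro n r hr hU x
  by_contra hx
  push Not at hx
  -- the element of maximal variance
  obtain ⟨y, -, hy⟩ := Finset.exists_max_image (Finset.univ : Finset (Fin n)) (vr r)
    ⟨x, Finset.mem_univ x⟩
  have hy' : ∀ z, vr r z ≤ vr r y := fun z => hy z (Finset.mem_univ z)
  set D : ℝ := Real.sqrt (vr r y) with hD
  have hDsq : D ^ 2 = vr r y := by rw [hD, Real.sq_sqrt (vr_nonneg r y)]
  have hD0D : D0 ≤ D := by
    rw [hD]
    apply Real.le_sqrt_of_sq_le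
    linarith [hy' x]
  have hDpos : 1 ≤ D := le_trans hD0 hD0D
  obtain ⟨N, hN⟩ := exists_nat_ge (c * D)
  have hN1 : 1 ≤ N := by
    have : (1 : ℝ) ≤ N := by nlinarith
    exact_mod_cast this
  obtain ⟨r', top, i, hr', htop, hinj, hprob, hht, hvr, hvr0, hunb⟩ := extension r hr N hN1
  obtain ⟨M⟩ := exists_model r' top hr' htop
  have hU' : Unb (min ε (1 / 2)) r := fun a b hab => le_trans (min_le_left _ _) (hU a b hab)
  refine hmod M (hunb _ (min_le_right _ _) hU') D hD0D ?_ (i y) ?_ ?_ ?_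
  · intro z
    by_cases hz : ∃ x, z = i x
    · obtain ⟨x, rfl⟩ := hz
      rw [hvr, hDsq]
      exact hy' x
    · push Not at hz
      rw [hvr0 z hz]
      positivity
  · rw [hvr, hDsq]
  · rw [hht]
    linarith [ht_nonneg r y]
  · rw [hht]
    push_cast
    linarith [ht_le r y]

end Pool.Agent.Helper8.KS
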